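import Pool.Agent.Lib.NF44.Defs

/-!
MP_44a56e_nt, module Adapt (about 120 lines): an integral basis adapted to a subspace.

PROOF of `adapted`. Let `N : Submodule ℤ (𝓞 K)` be the set of `x : 𝓞 K` with `(x : K) ∈ U`. Take a basis `b` of `𝓞 K`
indexed by `Fin n` (`NumberField.RingOfIntegers.basis K` reindexed, `RingOfIntegers.rank`), and
`Submodule.smithNormalForm b N`: a basis `e = snf.bM` of `𝓞 K`, `f : Fin m ↪ Fin n`, a basis `snf.bN` of `N` with
`(snf.bN i : 𝓞 K) = a i • e (f i)`. `N` is saturated (if `k • x ∈ N`, `k ≠ 0` then `x ∈ N` because `U` is a `ℚ`-space), `a i ≠ 0`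
so `e (f i) ∈ N`. `I := univ.map f`. If `c j = 0` for `j ∉ I` then the sum is in `U`. Conversely `x = ∑ c_j e_j ∈ U` lies in `N`, so
it is a combination of the `bN i`, i.e. of the `e (f i)`; uniqueness of coordinates. `I.card = m = finrank ℚ U`:
the `e (f i)` are linearly independent over `ℚ` (fractions: `LinearIndependent.localization` or clear denominators;
`NumberField.integralBasis` reindexed) and span `U` (any `u ∈ U` has a nonzero integer multiple in `N`:
`exists_integral_multiple`).
-/

set_option autoImplicit false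

open MvPolynomial Module NumberField

namespace NF44

theorem adapted (K : SF) [NumberField K] (n : ℕ) (hn : finrank ℚ K = n) (U : Submodule ℚ K) :
    ∃ (e : Basis (Fin n) ℤ (𝓞 K)) (I : Finset (Fin n)), I.card = finrank ℚ U ∧
      ∀ c : Fin n → ℤ, (((∑ i, c i • e i : 𝓞 K) : K) ∈ U ↔ ∀ i ∉ I, c i = 0) := by
  classical
  let φ : 𝓞 K →ₗ[ℤ] K := (algebraMap (𝓞 K) K).toAddMonoidHom.toIntLinearMap
  have hφ : ∀ x : 𝓞 K, φ x = (x : K) := fun _ => rfl
  let N : Submodule ℤ (𝓞 K) := (U.restrictScalars ℤ).comap φ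
  have hN : ∀ x : 𝓞 K, x ∈ N ↔ (x : K) ∈ U := fun _ => Iff.rfl
  have hcard : Fintype.card (Free.ChooseBasisIndex ℤ (𝓞 K)) = n := by
    rw [← finrank_eq_card_chooseBasisIndex, RingOfIntegers.rank, hn]
  let b : Basis (Fin n) ℤ (𝓞 K) :=
    (RingOfIntegers.basis K).reindex (Fintype.equivFinOfCardEq hcard)
  obtain ⟨m, snf⟩ := Submodule.smithNormalForm b N
  have hzs : ∀ (k : ℤ) (x : K), k • x = (k : ℚ) • x := fun k x => by
    rw [Int.cast_smul_eq_zsmul]
  have ha : ∀ i, snf.a i ≠ 0 := by
    intro i h0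
    have h1 := snf.snf i
    rw [h0, zero_smul] at h1
    exact snf.bN.ne_zero i (Subtype.ext h1)
  have hef : ∀ i, ((snf.bM (snf.f i) : 𝓞 K) : K) ∈ U := by
    intro i
    have h1 : ((snf.bN i : 𝓞 K) : K) ∈ U := (hN _).1 (snf.bN i).2
    rw [snf.snf i, ← hφ, map_smul, hφ, hzs] at h1
    have h2 := U.smul_mem ((snf.a i : ℚ)⁻¹) h1
    rwa [smul_smul, inv_mul_cancel₀ (by exact_mod_cast ha i), one_smul] at h2
  -- members of `N` are combinations of the `e (f i)`
  have hcomb : ∀ x : 𝓞 K, (x : K) ∈ U → ∃ d : Fin m → ℤ, x = ∑ i, d i • snf.bM (snf.f i) := by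
    intro x hx
    refine ⟨fun i => snf.bN.repr ⟨x, (hN x).2 hx⟩ i * snf.a i, ?_⟩
    have h1 := snf.bN.sum_repr ⟨x, (hN x).2 hx⟩
    have h2 := congrArg (fun y : N => (y : 𝓞 K)) h1
    simp only [Submodule.coe_sum, Submodule.coe_smul, snf.snf] at h2
    refine h2.symm.trans (Finset.sum_congr rfl fun i _ => ?_)
    rw [smul_smul]
  let B : Basis (Fin n) ℚ K := snf.bM.localizationLocalization ℚ (nonZeroDivisors ℤ) K
  have hB : ∀ i, B i = ((snf.bM i : 𝓞 K) : K) := fun i =>
    Basis.localizationLocalization_apply ℚ (nonZeroDivisors ℤ) K snf.bM i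
  have hli : LinearIndependent ℚ fun i : Fin m => ((snf.bM (snf.f i) : 𝓞 K) : K) := by
    have h1 := B.linearIndependent.comp snf.f snf.f.injective
    have h2 : (B ∘ snf.f : Fin m → K) = fun i : Fin m => ((snf.bM (snf.f i) : 𝓞 K) : K) :=
      funext fun i => hB _
    rwa [h2] at h1
  have hspan : Submodule.span ℚ (Set.range fun i : Fin m => ((snf.bM (snf.f i) : 𝓞 K) : K)) = U := by
    apply le_antisymm
    · rw [Submodule.span_le]
      rintro _ ⟨i, rfl⟩
      exact hef i
    · intro u hu
      have halg : IsAlgebraic ℤ u :=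
        (IsFractionRing.isAlgebraic_iff ℤ ℚ K).2 (Algebra.IsAlgebraic.isAlgebraic u)
      obtain ⟨k, hk, hki⟩ := halg.exists_integral_multiple
      obtain ⟨d, hd⟩ := hcomb ⟨k • u, hki⟩ (by
        change k • u ∈ U
        rw [hzs]
        exact U.smul_mem _ hu)
      have h1 : k • u = ∑ i, d i • ((snf.bM (snf.f i) : 𝓞 K) : K) := by
        have h2 := congrArg φ hd
        rw [map_sum] at h2
        simp only [hφ] at h2
        exact h2
      have hk' : (k : ℚ) ≠ 0 := by exact_mod_cast hk
      have h3 : u = (k : ℚ)⁻¹ • ∑ i, d i • ((snf.bM (snf.f i) : 𝓞 K) : K) := by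
        rw [← h1, hzs, smul_smul, inv_mul_cancel₀ hk', one_smul]
      rw [h3]
      refine Submodule.smul_mem _ _ (Submodule.sum_mem _ fun i _ => ?_)
      rw [hzs]
      exact Submodule.smul_mem _ _ (Submodule.subset_span ⟨i, rfl⟩)
  refine ⟨snf.bM, Finset.univ.map snf.f, ?_, ?_⟩
  · rw [Finset.card_map, Finset.card_univ, ← hspan, finrank_span_eq_card hli]
  · intro c
    constructor
    · intro h i hi
      obtain ⟨d, hd⟩ := hcomb _ h
      have h1 := congrArg (fun y => snf.bM.repr y i) hd
      simp only [map_sum, map_smul, Basis.repr_self, Finsupp.coe_finsetSum, Finset.sum_apply,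
        Finsupp.smul_apply, smul_eq_mul] at h1
      rw [Finset.sum_eq_single i, Finset.sum_eq_zero] at h1
      · simpa using h1
      · intro j _
        rw [Finsupp.single_apply, if_neg, mul_zero]
        rintro rfl
        exact hi (Finset.mem_map_of_mem _ (Finset.mem_univ _))
      · intro j _ hj
        rw [Finsupp.single_apply, if_neg hj, mul_zero]
      · intro h
        exact absurd (Finset.mem_univ _) h
    · intro h
      rw [← hφ, map_sum]
      refine Submodule.sum_mem _ fun i _ => ?_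
      by_cases hi : i ∈ Finset.univ.map snf.f
      · obtain ⟨j, -, rfl⟩ := Finset.mem_map.1 hi
        rw [map_smul, hzs]
        exact U.smul_mem _ (hef j)
      · rw [h i hi, zero_smul, map_zero]
        exact U.zero_mem

end NF44
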