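import Pool.Agent.Lib.NF44.Defs
import Pool.Agent.Lib.MP_d5c16a_gt.PL

/-!
MP_44a56e_nt, module BM (about 200 lines): a discrete Brunn-Minkowski inequality.

PROOF of `bm`. (1) One-dimensional discrete Prekopa-Leindler: `A, B, C : Finset ℤ`, `f, g, h : ℤ →
ℝ` nonnegative, and for `s ∈ A`, `t ∈ B`:
`s + t ∈ C`, `s + t + 1 ∈ C`, `f s * g t ≤ h (s+t)^2`, `f s * g t ≤ h (s+t+1)^2`. Then `4 (∑_A f)
(∑_B g) ≤ (∑_C h)^2`. Proof: if `f = 0` on `A` or `g = 0` on `B` trivial.
Let `M = max_A f`, `N = max_B g` (positive), `f' = f/M`, `g' = g/N`, `h' = h/√(MN)`; for `0 < u ≤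
1` the sets `A_u = {s ∈ A : f' s ≥ u}`, `B_u` are nonempty
and `C_u = {c ∈ C : h' c ≥ u} ⊇ A_u + B_u + {0,1}`, of size `≥ |A_u| + |B_u|`
(`Finset.card_add_card_le`-type bound for `ℤ`:
`|X + Y| ≥ |X| + |Y| - 1`, `Finset.card_add_card_sub_one_le_card_add…` in
Combinatorics/Additive/CauchyDavenport or
`Finset.card_add_mul_card…`; or directly with max and min). Integrate over `u ∈ (0,1]`: `∫ |A_u|
du = ∑_A f'` (`f' ≤ 1`), so `∑_C h' ≥ ∑_C min(h',1) ≥ ∑_A f' + ∑_B g'`
`≥ 2 √(∑f' ∑g')`. (Instead of the integral one may use Mathlib's layer cake, or the list of the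
finitely many values.)
(2) Induction on `x`; `x = 0`: cards are `≤ 1`. Step: for `A ⊆ ℤ^(x+1)` let `A_s ⊆ ℤ^x` be the
slices (first coordinate `s`, `Fin.cons`/`Fin.tail`). With
`Q = {0,1}^x`, the slice of `A + B + {0,1}^(x+1)` at `s + t` and at `s + t + 1` contains `A_s +
B_t + Q`, so its card `H` satisfies
`H^2 ≥ 4^x |A_s| |B_t|`. Apply (1) to `f s = |A_s|`, `g t = |B_t|`, `h = H / 2^x`. (Alternative:
Prekopa-Leindler `pl_fin` in
Lib/MP_d5c16a_gt/PL.lean applied to unions of unit cubes.)
-/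

set_option autoImplicit false

open scoped Pointwise

namespace NF44

open MeasureTheory

/-- The union of the boxes of side `1 / δ` indexed by `C`. -/
private def bx (x : ℕ) (δ : ℝ) (C : Finset (Fin x → ℤ)) : Set (Fin x → ℝ) :=
  {z | (fun i => ⌊δ * z i⌋) ∈ C}

private theorem bx_eq (x : ℕ) {δ : ℝ} (hδ : 0 < δ) (C : Finset (Fin x → ℤ)) :
    bx x δ C = ⋃ c ∈ C, Set.pi Set.univ
      (fun i => Set.Ico ((c i : ℝ) / δ) (((c i : ℝ) + 1) / δ)) := by
  ext z
  simp only [bx, Set.mem_iUnion, Set.mem_pi, Set.mem_univ, true_imp_iff, Set.mem_Ico,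
    exists_prop, div_le_iff₀ hδ, lt_div_iff₀ hδ]
  constructor
  · intro h
    refine ⟨_, h, fun i => ?_⟩
    rw [mul_comm (z i)]
    exact ⟨Int.floor_le _, Int.lt_floor_add_one _⟩
  · rintro ⟨c, hc, h⟩
    have e : (fun i => ⌊δ * z i⌋) = c := by
      funext i
      rw [Int.floor_eq_iff, mul_comm δ]
      exact h i
    change (fun i => ⌊δ * z i⌋) ∈ C
    rw [e]
    exact hc

private theorem bx_meas (x : ℕ) {δ : ℝ} (hδ : 0 < δ) (C : Finset (Fin x → ℤ)) :
    MeasurableSet (bx x δ C) := by
  rw [bx_eq x hδ]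
  refine Finset.measurableSet_biUnion _ fun c _ => ?_
  exact MeasurableSet.univ_pi fun i => measurableSet_Ico

private theorem bx_vol (x : ℕ) {δ : ℝ} (hδ : 0 < δ) (C : Finset (Fin x → ℤ)) :
    volume (bx x δ C) = C.card * ENNReal.ofReal (1 / δ) ^ x := by
  rw [bx_eq x hδ, measure_biUnion_finset]
  · have h1 : ∀ c ∈ C, volume (Set.pi Set.univ
        (fun i => Set.Ico ((c i : ℝ) / δ) (((c i : ℝ) + 1) / δ))) =
        ENNReal.ofReal (1 / δ) ^ x := by
      intro c _
      rw [volume_pi_pi]
      simp only [Real.volume_Ico]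
      have h2 : ∀ i, ((c i : ℝ) + 1) / δ - (c i : ℝ) / δ = 1 / δ := fun i => by ring
      simp only [h2, Finset.prod_const, Finset.card_univ, Fintype.card_fin]
    rw [Finset.sum_congr rfl h1, Finset.sum_const, nsmul_eq_mul]
  · intro c _ c' _ hne
    rw [Function.onFun, Set.disjoint_left]
    intro z hz hz'
    apply hne
    funext i
    have h1 := hz i (Set.mem_univ i)
    have h2 := hz' i (Set.mem_univ i)
    simp only [Set.mem_Ico, div_le_iff₀ hδ, lt_div_iff₀ hδ] at h1 h2
    rw [← Int.floor_eq_iff] at h1 h2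
    rw [← h1, ← h2]
  · intro c _
    exact MeasurableSet.univ_pi fun i => measurableSet_Ico

theorem bm (x : ℕ) (A B : Finset (Fin x → ℤ)) :
    4 ^ x * (A.card * B.card) ≤
      (A + B + Fintype.piFinset (fun _ : Fin x => ({0, 1} : Finset ℤ))).card ^ 2 := by
  classical
  set C := A + B + Fintype.piFinset (fun _ : Fin x => ({0, 1} : Finset ℤ)) with hC
  have h1 := MeyerRatio.pl_fin x
    (f := (bx x 1 A).indicator (fun _ => (1 : ENNReal)))
    (g := (bx x 1 B).indicator (fun _ => (1 : ENNReal)))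
    (h := (bx x 2 C).indicator (fun _ => (1 : ENNReal)))
    (measurable_const.indicator (bx_meas x one_pos A))
    (measurable_const.indicator (bx_meas x one_pos B))
    (measurable_const.indicator (bx_meas x two_pos C))
    (by
      intro y w
      by_cases hy : y ∈ bx x 1 A
      · by_cases hw : w ∈ bx x 1 B
        · have hz : (1 / 2 : ℝ) • (y + w) ∈ bx x 2 C := by
            change (fun i => ⌊(2 : ℝ) * ((1 / 2 : ℝ) • (y + w)) i⌋) ∈ C
            have e1 : (fun i => ⌊(2 : ℝ) * ((1 / 2 : ℝ) • (y + w)) i⌋) =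
                (fun i => ⌊(1 : ℝ) * y i⌋) + (fun i => ⌊(1 : ℝ) * w i⌋) +
                  (fun i => ⌊y i + w i⌋ - ⌊y i⌋ - ⌊w i⌋) := by
              funext i
              simp only [Pi.smul_apply, Pi.add_apply, smul_eq_mul, one_mul]
              have e2 : (2 : ℝ) * (1 / 2 * (y i + w i)) = y i + w i := by ring
              rw [e2]
              ring
            rw [e1, hC]
            refine Finset.add_mem_add (Finset.add_mem_add hy hw) ?_
            rw [Fintype.mem_piFinset]
            intro i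
            rw [Finset.mem_insert, Finset.mem_singleton]
            have a1 := Int.floor_le (y i)
            have a2 := Int.lt_floor_add_one (y i)
            have a3 := Int.floor_le (w i)
            have a4 := Int.lt_floor_add_one (w i)
            have a5 : ⌊y i⌋ + ⌊w i⌋ ≤ ⌊y i + w i⌋ := Int.le_floor_add (y i) (w i)
            have a6 : ⌊y i + w i⌋ ≤ ⌊y i⌋ + ⌊w i⌋ + 1 := by
              have := Int.le_floor_add_floor (y i) (w i)
              omega
            omega
          rw [Set.indicator_of_mem hy, Set.indicator_of_mem hw, Set.indicator_of_mem hz]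
          simp
        · rw [Set.indicator_of_notMem hw, mul_zero]
          exact zero_le
      · rw [Set.indicator_of_notMem hy, zero_mul]
        exact zero_le)
  rw [lintegral_indicator_const (bx_meas x one_pos A),
    lintegral_indicator_const (bx_meas x one_pos B),
    lintegral_indicator_const (bx_meas x two_pos C), bx_vol x one_pos, bx_vol x one_pos,
    bx_vol x two_pos] at h1
  have e1 : ENNReal.ofReal (1 / 1) = 1 := by simp
  rw [e1, one_pow, mul_one, mul_one, one_mul, one_mul, one_mul] at h1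
  have e2 : (2 : ENNReal) ^ x * ENNReal.ofReal (1 / 2) ^ x = 1 := by
    rw [← mul_pow]
    have : (2 : ENNReal) * ENNReal.ofReal (1 / 2) = 1 := by
      rw [← ENNReal.ofReal_ofNat, ← ENNReal.ofReal_mul (by norm_num)]
      norm_num
    rw [this, one_pow]
  have h2 : (4 : ENNReal) ^ x * (A.card * B.card) ≤ (C.card : ENNReal) ^ 2 := by
    calc (4 : ENNReal) ^ x * (A.card * B.card)
        ≤ (4 : ENNReal) ^ x * (C.card * ENNReal.ofReal (1 / 2) ^ x) ^ 2 := by gcongr
      _ = (C.card : ENNReal) ^ 2 * ((2 : ENNReal) ^ x * ENNReal.ofReal (1 / 2) ^ x) ^ 2 := by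
        have : (4 : ENNReal) ^ x = (2 ^ x) ^ 2 := by
          rw [← pow_mul, mul_comm, pow_mul]
          norm_num
        rw [this]
        ring
      _ = (C.card : ENNReal) ^ 2 := by rw [e2, one_pow, mul_one]
  exact_mod_cast h2

end NF44
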