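import Pool.Agent.Lib.NF44.Defs2

/-!
MP_44a56e_nt, module Base (about 150 lines): dimension zero.

PROOF of `base`. `T = ∅` trivial; let `α ∈ T`. `Dep P {z} D` for every variable: a nonzero one-variable polynomial in `P`, so `PR r ⧸ P` is a domain, integral over `ℚ` (generated by integral elements), hence a field: `P` is maximal; `P ≤ Mi β ≠ ⊤`
gives `P = Mi β` for all `β ∈ T`. So for `β ∈ T`: `Mi β = Mi α` and there is an algebra homomorphism `τ_β : Kf α → ℂ` with `τ_β (α i) = β i` (`PR r ⧸ Mi α ≃ ℚ[α] = ℚ(α)`: `Kf α = ℚ[α]` because the `α i` are algebraic, `IntermediateField.adjoin_algebraic_toSubalgebra`; or directly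
`Ideal.quotientKerAlgEquivOfRightInverse`/`quotientKerEquivRange`). `β ↦ τ_β` is injective into `Kf α →ₐ[ℚ] ℂ` which is finite with `finrank = n` elements (`AlgHom.card`, `Fintype.card_eq`). `Set.ncard_le_of_injOn`-type lemma.
(`n ≥ 1` because otherwise `Kf α` would have `finrank 0`, infinite; with `hn`.)
-/

set_option autoImplicit false

open MvPolynomial Module NumberField

namespace NF44

private theorem isMax {r D : ℕ} (P : Ideal (PR r)) (hP : P.IsPrime)
    (hD : ∀ i : Fin r, Dep P {i} D) : P.IsMaximal := by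
  have h1 : ∀ i : Fin r, IsIntegral ℚ (Ideal.Quotient.mkₐ ℚ P (X i)) := by
    intro i
    obtain ⟨G, hG, hG0, hGP, -⟩ := hD i
    have h2 : G ∈ Algebra.adjoin ℚ {(X i : PR r)} := by
      have h3 : supported ℚ (({i} : Finset (Fin r)) : Set (Fin r)) =
          Algebra.adjoin ℚ {(X i : PR r)} := by
        unfold supported
        rw [Finset.coe_singleton, Set.image_singleton]
      rw [← h3]
      exact hG
    rw [Algebra.adjoin_singleton_eq_range_aeval] at h2
    obtain ⟨g, hg⟩ := h2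
    have hg' : Polynomial.aeval (X i : PR r) g = G := hg
    have h4 : g ≠ 0 := by
      rintro rfl
      apply hG0
      rw [← hg', map_zero]
    have h5 : Polynomial.aeval (Ideal.Quotient.mkₐ ℚ P (X i)) g = 0 := by
      rw [Polynomial.aeval_algHom_apply, hg']
      exact Ideal.Quotient.eq_zero_iff_mem.2 hGP
    exact IsAlgebraic.isIntegral ⟨g, h4, h5⟩
  have h2 : ∀ q : PR r, IsIntegral ℚ (Ideal.Quotient.mkₐ ℚ P q) := by
    intro q
    induction q using MvPolynomial.induction_on with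
    | C a =>
      have h3 : (C a : PR r) = algebraMap ℚ (PR r) a := rfl
      rw [h3, AlgHom.commutes]
      exact isIntegral_algebraMap
    | add p q hp hq =>
      rw [map_add]
      exact hp.add hq
    | mul_X p i hp =>
      rw [map_mul]
      exact hp.mul (h1 i)
  have h3 : Algebra.IsIntegral ℚ (PR r ⧸ P) := by
    refine ⟨fun x => ?_⟩
    obtain ⟨q, rfl⟩ := Ideal.Quotient.mk_surjective x
    exact h2 q
  have := Ideal.Quotient.isDomain P
  have h4 : IsField (PR r ⧸ P) :=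
    isField_of_isIntegral_of_isField' (R := ℚ) (Field.toIsField ℚ)
  exact Ideal.Quotient.maximal_of_isField P h4

private theorem exists_hom {r : ℕ} (α β : Fin r → Zb) (h : Mi α = Mi β) :
    ∃ τ : Kf α →ₐ[ℚ] ℂ, ∀ i, τ ((aO α i : 𝓞 (Kf α)) : Kf α) = (β i : ℂ) := by
  set f : PR r →ₐ[ℚ] ℂ := aeval (fun i => (α i : ℂ)) with hf
  set g : PR r →ₐ[ℚ] ℂ := aeval (fun i => (β i : ℂ)) with hg
  have h1 : (Kf α).toSubalgebra = f.range := by
    rw [hf, ← Algebra.adjoin_range_eq_range_aeval]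
    unfold Kf
    refine IntermediateField.adjoin_toSubalgebra_of_isAlgebraic ?_
    rintro x ⟨i, rfl⟩
    have h2 : IsIntegral ℤ (α i : ℂ) := (α i).2
    exact (h2.tower_top (A := ℚ)).isAlgebraic
  have h3 : ∀ a : PR r, a ∈ RingHom.ker f → g a = 0 := by
    intro a ha
    have h4 : a ∈ Mi β := by
      rw [← h]
      exact ha
    exact h4
  let φ : (PR r ⧸ RingHom.ker f) →ₐ[ℚ] ℂ := Ideal.Quotient.liftₐ (RingHom.ker f) g h3
  let e : (PR r ⧸ RingHom.ker f) ≃ₐ[ℚ] f.range := Ideal.quotientKerEquivRange f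
  let e2 : (Kf α).toSubalgebra ≃ₐ[ℚ] f.range := Subalgebra.equivOfEq _ _ h1
  let e3 : Kf α →ₐ[ℚ] f.range := e2.toAlgHom
  refine ⟨φ.comp ((e.symm : f.range →ₐ[ℚ] _).comp e3), fun i => ?_⟩
  have h5 : e3 ((aO α i : 𝓞 (Kf α)) : Kf α) = e (Ideal.Quotient.mk _ (X i)) := by
    apply Subtype.ext
    have h6 : ((e (Ideal.Quotient.mk _ (X i)) : f.range) : ℂ) = f (X i) := rfl
    have h7 : ((e3 ((aO α i : 𝓞 (Kf α)) : Kf α) : f.range) : ℂ) = (α i : ℂ) := rfl
    rw [h6, h7, hf, aeval_X]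
  have h8 : φ (e.symm (e3 ((aO α i : 𝓞 (Kf α)) : Kf α))) = (β i : ℂ) := by
    rw [h5, AlgEquiv.symm_apply_apply]
    have h9 : φ (Ideal.Quotient.mk _ (X i)) = g (X i) := rfl
    rw [h9, hg, aeval_X]
  exact h8

theorem base (n r D S : ℕ) (hn : 1 ≤ n) (P : Ideal (PR r)) (hP : P.IsPrime) (hG : Good P 0 D)
    (T : Set (Fin r → Zb)) (hT : T ⊆ TS n r S) (hPT : ∀ α ∈ T, P ≤ Mi α) :
    T.Finite ∧ T.ncard ≤ n := by
  rcases T.eq_empty_or_nonempty with rfl | ⟨α, hα⟩
  · simp
  have hmax : P.IsMaximal := isMax P hP (fun i => hG.2 {i} (by simp))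
  have heq : ∀ β ∈ T, P = Mi β := fun β hβ =>
    hmax.eq_of_le (RingHom.ker_ne_top _) (hPT β hβ)
  have hfin : finrank ℚ (Kf α) = n := (hT hα).1
  have : FiniteDimensional ℚ (Kf α) := FiniteDimensional.of_finrank_pos (by omega)
  have hcard : Nat.card (Kf α →ₐ[ℚ] ℂ) = n := by
    rw [Nat.card_eq_fintype_card, AlgHom.card, hfin]
  let φ : (Kf α →ₐ[ℚ] ℂ) → (Fin r → ℂ) := fun τ i => τ ((aO α i : 𝓞 (Kf α)) : Kf α)
  have hsub : (fun (β : Fin r → Zb) (i : Fin r) => (β i : ℂ)) '' T ⊆ φ '' Set.univ := by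
    rintro _ ⟨β, hβ, rfl⟩
    obtain ⟨τ, hτ⟩ := exists_hom α β ((heq α hα).symm.trans (heq β hβ))
    exact ⟨τ, Set.mem_univ _, funext hτ⟩
  have hinj : Function.Injective (fun (β : Fin r → Zb) (i : Fin r) => (β i : ℂ)) := by
    intro β γ hβγ
    funext i
    exact Subtype.ext (congrFun hβγ i)
  have hfu : (φ '' Set.univ).Finite := Set.toFinite _
  refine ⟨Set.Finite.of_finite_image (hfu.subset hsub) hinj.injOn, ?_⟩
  rw [← Set.ncard_image_of_injective T hinj]
  calc _ ≤ (φ '' Set.univ).ncard := Set.ncard_le_ncard hsub hfu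
    _ ≤ (Set.univ : Set (Kf α →ₐ[ℚ] ℂ)).ncard := Set.ncard_image_le Set.finite_univ
    _ = n := by rw [Set.ncard_univ, hcard]

end NF44
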