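import Pool.Agent.Lib.NF44.Short

/-!
MP_44a56e_nt, module BasisSq (about 180 lines): a basis of `K` of size `|D|^(2/n)`.

PROOF of `basis_sq`. (a) With `C` from `exists_short` build by induction on `m ≤ n/2 + 1` (natural division) vectors
`w_1, …, w_m ∈ 𝓞 K`, linearly independent over `ℚ`, with all `|φ w_i| ≤ R = C D^(1/n)`: as long as
`2 (m) ≤ n` apply `exists_short` to `U = span(w_1..w_m)` (`finrank U = m`); `LinearIndependent.fin_cons` or
`linearIndependent_fin_snoc`. So there is a subspace `U = span_ℚ (w)` with `n < 2 finrank U`.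
(b) The products `w_i w_j` span `K`: otherwise (`Submodule.exists_le_ker_of_lt_top` / `Submodule.exists_dual_map_eq_bot...`)
there is `f : K →ₗ[ℚ] ℚ`, `f ≠ 0`, vanishing on all `w_i w_j`, hence `f (x y) = 0` for `x, y ∈ U`. The bilinear form
`B x y = f (x y)` is nondegenerate (`x ≠ 0`, `f z ≠ 0`: `B x (x⁻¹ z) ≠ 0`), so `finrank U + finrank U^⊥ = n` and `U ≤ U^⊥` gives
`2 finrank U ≤ n`, contradiction. (Alternative: the map `U → Dual(K/U)`, `x ↦ (y ↦ f (x y))` is injective, so
`finrank U ≤ n - finrank U`.)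
(c) A spanning family contains a basis (`exists_linearIndependent'`/`Basis.extend`…): choose `n` of the products, all of size
`≤ R^2 = C^2 D^(2/n)`; they are in `𝓞 K`.
-/

set_option autoImplicit false

open MvPolynomial Module NumberField

namespace NF44

theorem basis_sq (n : ℕ) (hn : 0 < n) : ∃ C : ℝ, 1 ≤ C ∧ ∀ K : SF, finrank ℚ K = n →
    ∀ _ : NumberField K, ∃ v : Fin n → 𝓞 K, LinearIndependent ℚ (fun i => (v i : K)) ∧
      ∀ (i : Fin n) (φ : K →+* ℂ), ‖φ (v i : K)‖ ≤ C * |(discr K : ℝ)| ^ ((2 : ℝ) / n) := by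
  sorry

end NF44
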