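import Pool.Agent.Lib.NF44.Defs

/-!
MP_44a56e_nt, module CardO: the size of `ℤ[X] / (g, N)`.
-/

set_option autoImplicit false

open MvPolynomial Module NumberField

namespace NF44

private theorem card_aux (g : Polynomial ℤ) (hg : g.Monic) (N : ℕ) (hN : 0 < N) :
    Function.Surjective (fun c : Fin g.natDegree → ZMod N =>
      Ideal.Quotient.mk (Ideal.span {g, (N : Polynomial ℤ)})
        (∑ i : Fin g.natDegree, Polynomial.monomial (i : ℕ) ((c i).val : ℤ))) := by
  classical
  have : NeZero N := ⟨hN.ne'⟩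
  intro y
  obtain ⟨f, rfl⟩ := Ideal.Quotient.mk_surjective y
  refine ⟨fun i => (((f %ₘ g).coeff i : ℤ) : ZMod N), ?_⟩
  rw [Ideal.Quotient.eq]
  set I : Ideal (Polynomial ℤ) := Ideal.span {g, (N : Polynomial ℤ)} with hI
  have hgI : g ∈ I := Ideal.subset_span (by simp)
  have hNI : (N : Polynomial ℤ) ∈ I := Ideal.subset_span (by simp)
  have h1 : f %ₘ g = f - g * (f /ₘ g) := by
    rw [Polynomial.modByMonic_eq_sub_mul_div]
  have h2 : f - f %ₘ g ∈ I := by
    rw [h1]
    have : f - (f - g * (f /ₘ g)) = g * (f /ₘ g) := by ring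
    rw [this]
    exact I.mul_mem_right _ hgI
  have h3 : f %ₘ g = ∑ i : Fin g.natDegree, Polynomial.monomial (i : ℕ) ((f %ₘ g).coeff i) := by
    rcases Nat.eq_zero_or_pos g.natDegree with h0 | h0
    · have hg1 : g = 1 := by
        exact (hg.natDegree_eq_zero).1 h0
      subst hg1
      simp
    · have h4 : (f %ₘ g).natDegree < g.natDegree := by
        apply Polynomial.natDegree_modByMonic_lt _ hg
        intro h
        rw [h] at h0
        simp at h0
      conv_lhs => rw [Polynomial.as_sum_range' (f %ₘ g) g.natDegree h4]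
      rw [Finset.sum_range]
  have h5 : (∑ i : Fin g.natDegree, Polynomial.monomial (i : ℕ)
      (((((f %ₘ g).coeff i : ℤ) : ZMod N)).val : ℤ)) - f %ₘ g ∈ I := by
    obtain ⟨c, hc⟩ : ∃ c : ℕ → ℤ, ∀ i, (f %ₘ g).coeff i = c i := ⟨_, fun _ => rfl⟩
    simp only [hc] at h3 ⊢
    rw [h3, ← Finset.sum_sub_distrib]
    refine I.sum_mem fun i _ => ?_
    rw [← map_sub]
    have h6 : (N : ℤ) ∣ ((((c i : ℤ) : ZMod N)).val : ℤ) - c i := by
      rw [← ZMod.intCast_zmod_eq_zero_iff_dvd]
      push_cast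
      rw [ZMod.natCast_zmod_val, sub_self]
    obtain ⟨t, ht⟩ := h6
    rw [ht, ← Polynomial.C_mul_monomial]
    have h7 : Polynomial.C (N : ℤ) = (N : Polynomial ℤ) := by simp
    rw [h7]
    exact I.mul_mem_right _ hNI
  have h8 := I.sub_mem h5 h2
  have h9 : ∀ a b c : Polynomial ℤ, a - b - (c - b) = a - c := fun a b c => by ring
  rw [h9] at h8
  exact h8

theorem card_quot (g : Polynomial ℤ) (hg : g.Monic) (N : ℕ) (hN : 0 < N) :
    Finite (Polynomial ℤ ⧸ Ideal.span {g, (N : Polynomial ℤ)}) ∧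
      Nat.card (Polynomial ℤ ⧸ Ideal.span {g, (N : Polynomial ℤ)}) ≤ N ^ g.natDegree := by
  have : NeZero N := ⟨hN.ne'⟩
  have hs := card_aux g hg N hN
  refine ⟨Finite.of_surjective _ hs, ?_⟩
  have h := Nat.card_le_card_of_surjective _ hs
  simpa using h

end NF44
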