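import Pool.Agent.Lib.NF44.Defs

/-!
MP_44a56e_nt, module RelMod: relations modulo p.
-/

set_option autoImplicit false

open MvPolynomial Module NumberField

namespace NF44

theorem rel_mod {r : ℕ} (P : Ideal (PR r)) (Z : Finset (Fin r)) (D : ℕ) (h : Dep P Z D)
    (p : ℕ) (hp : p.Prime) :
    ∃ F ∈ supported (kap p) (Z : Set (Fin r)), F ≠ 0 ∧ F.totalDegree ≤ D ∧
      ∀ α : Fin r → Zb, P ≤ Mi α → eval (fun i => red p (α i)) F = 0 := by
  classical
  obtain ⟨G, hGs, hG0, hGP, hGD⟩ := h
  let N : ℕ := ∏ m ∈ G.support, (coeff m G).den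
  have hN : N ≠ 0 := Finset.prod_ne_zero_iff.2 fun m _ => (coeff m G).den_nz
  have hz : ∀ m, ∃ z : ℤ, m ∈ G.support → (z : ℚ) = N * coeff m G := by
    intro m
    by_cases hm : m ∈ G.support
    · obtain ⟨k, hk⟩ := Finset.dvd_prod_of_mem (fun m => (coeff m G).den) hm
      refine ⟨k * (coeff m G).num, fun _ => ?_⟩
      have h1 : (N : ℚ) = (coeff m G).den * k := by exact_mod_cast hk
      have h2 : ((coeff m G).den : ℚ) * coeff m G = (coeff m G).num := by
        rw [mul_comm]
        exact Rat.mul_den_eq_num _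
      push_cast
      rw [h1, ← h2]
      ring
    · exact ⟨0, fun h => absurd h hm⟩
  choose z hz using hz
  have hsup : G.support.Nonempty := by
    rw [Finset.nonempty_iff_ne_empty, Ne, MvPolynomial.support_eq_empty]
    exact hG0
  obtain ⟨g, hg, hg1⟩ := Finset.extract_gcd z hsup
  set d : ℤ := G.support.gcd z with hd
  have hd0 : d ≠ 0 := by
    intro h0
    obtain ⟨m, hm⟩ := hsup
    have h3 := hz m hm
    rw [hg m hm, h0, zero_mul, Int.cast_zero] at h3
    exact (mul_ne_zero (Nat.cast_ne_zero.2 hN) (MvPolynomial.mem_support_iff.1 hm)) h3.symm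
  let G3 : MvPolynomial (Fin r) ℤ := ∑ m ∈ G.support, monomial m (g m)
  have hcG3 : ∀ m, coeff m G3 = if m ∈ G.support then g m else 0 := by
    intro m
    simp only [G3, coeff_sum, coeff_monomial]
    rw [Finset.sum_ite_eq']
  have hmul : C (d : ℚ) * map (Int.castRingHom ℚ) G3 = C (N : ℚ) * G := by
    ext m
    rw [coeff_C_mul, coeff_C_mul, coeff_map, hcG3]
    by_cases hm : m ∈ G.support
    · rw [if_pos hm, ← hz m hm, hg m hm]
      push_cast
      rfl
    · rw [if_neg hm, MvPolynomial.notMem_support_iff.1 hm]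
      simp
  let F : MvPolynomial (Fin r) (kap p) := map (Int.castRingHom (kap p)) G3
  have hcF : ∀ m, coeff m F = ((coeff m G3 : ℤ) : kap p) := fun m => coeff_map _ _ _
  have hFs : F.support ⊆ G.support := by
    intro m hm
    by_contra hmG
    apply MvPolynomial.mem_support_iff.1 hm
    rw [hcF, hcG3, if_neg hmG, Int.cast_zero]
  refine ⟨F, ?_, ?_, ?_, ?_⟩
  · rw [mem_supported] at hGs ⊢
    intro i hi
    obtain ⟨m, hm, hi'⟩ := (MvPolynomial.mem_vars_iff_mem_support i).1 hi
    exact hGs ((MvPolynomial.mem_vars_iff_mem_support i).2 ⟨m, hFs hm, hi'⟩)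
  · have hex : ∃ m ∈ G.support, ¬ (p : ℤ) ∣ g m := by
      by_contra hcon
      push Not at hcon
      have h4 : (p : ℤ) ∣ G.support.gcd g := Finset.dvd_gcd hcon
      rw [hg1] at h4
      have h5 := Int.natAbs_dvd_natAbs.2 h4
      simp only [Int.natAbs_natCast, Int.natAbs_one, Nat.dvd_one] at h5
      exact hp.one_lt.ne' h5
    obtain ⟨m, hm, hpm⟩ := hex
    intro hF0
    have h6 : ((g m : ℤ) : kap p) = 0 := by
      have h7 := congrArg (coeff m) hF0
      have h8 : coeff m F = ((g m : ℤ) : kap p) := by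
        rw [hcF, hcG3, if_pos hm]
      rw [h8, coeff_zero] at h7
      exact h7
    have hcop : IsCoprime (p : ℤ) (g m) :=
      (Prime.coprime_iff_not_dvd (Nat.prime_iff_prime_int.1 hp)).2 hpm
    obtain ⟨u, v, huv⟩ := hcop
    have h9 := congrArg (fun t : ℤ => (t : kap p)) huv
    simp only [Int.cast_add, Int.cast_mul, Int.cast_one, Int.cast_natCast] at h9
    rw [h6, red_p hp, mul_zero, mul_zero, add_zero] at h9
    exact zero_ne_one h9
  · refine le_trans ?_ hGD
    exact Finset.sup_mono hFs
  · intro α hα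
    have h10 : aeval (fun i => (α i : ℂ)) G = 0 := (mem_Mi α G).1 (hα hGP)
    have h11 : aeval (fun i => (α i : ℂ)) (map (Int.castRingHom ℚ) G3) = 0 := by
      have h12 := congrArg (aeval (fun i => (α i : ℂ)) : PR r →ₐ[ℚ] ℂ) hmul
      rw [map_mul, map_mul, h10, mul_zero, mul_eq_zero] at h12
      refine h12.resolve_left ?_
      rw [aeval_C]
      intro h13
      exact hd0 (by
        have := (algebraMap ℚ ℂ).injective (h13.trans (map_zero _).symm)
        exact_mod_cast this)
    have h14 : eval₂ (Int.castRingHom Zb) α G3 = 0 := by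
      apply Subtype.val_injective
      have h15 : (algebraMap Zb ℂ) (eval₂ (Int.castRingHom Zb) α G3) =
          eval₂ ((algebraMap Zb ℂ).comp (Int.castRingHom Zb)) (algebraMap Zb ℂ ∘ α) G3 :=
        eval₂_comp_left _ _ _ _
      have h16 : aeval (fun i => (α i : ℂ)) (map (Int.castRingHom ℚ) G3) =
          eval₂ ((algebraMap ℚ ℂ).comp (Int.castRingHom ℚ)) (fun i => (α i : ℂ)) G3 := by
        rw [aeval_def, eval₂_map]
      have h17 : (algebraMap Zb ℂ).comp (Int.castRingHom Zb) =
          (algebraMap ℚ ℂ).comp (Int.castRingHom ℚ) := Subsingleton.elim _ _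
      rw [h17] at h15
      have h18 : (algebraMap Zb ℂ) (eval₂ (Int.castRingHom Zb) α G3) = 0 := by
        rw [h15]
        exact h16.symm.trans h11
      exact h18
    have h19 : red p (eval₂ (Int.castRingHom Zb) α G3) =
        eval₂ ((red p).comp (Int.castRingHom Zb)) (red p ∘ α) G3 := eval₂_comp_left _ _ _ _
    have h20 : (red p).comp (Int.castRingHom Zb) = Int.castRingHom (kap p) :=
      Subsingleton.elim _ _
    have h21 : eval (fun i => red p (α i)) F =
        eval₂ (Int.castRingHom (kap p)) (fun i => red p (α i)) G3 := eval_map _ _ _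
    rw [h21, ← h20]
    refine h19.symm.trans ?_
    rw [h14, map_zero]

end NF44
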