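import Pool.Agent.Lib.NF44.Defs

/-!
MP_44a56e_nt, module ResF (about 220 lines): residue fields of number fields inside `kap p`.

PROOF of `rr_facts`. `𝓞 K ⧸ PP K p ≃ rr K p` (`RingHom.quotientKerEquivRange`). `PP K p` is prime (kernel of a map to a field), contains `p`
(`red_p`), so it is nonzero, hence maximal (`Ideal.IsPrime.isMaximal`), the quotient is finite
(`Ideal.absNorm`, `Ring.HasFiniteQuotients`), a finite field of characteristic `p`, so it has `p^f` elements, `f ≥ 1`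
(`FiniteField.card'` / `FiniteField.card`), `f = Nat.log p (p^f) = fd K p` (`Nat.log_pow`). `f ≤ n`: `𝓞 K / p` has `p^n` elements and maps onto it
(`Ideal.absNorm_dvd_absNorm_of_le`, `Ideal.absNorm_span_singleton`, `|N(p)| = p^n`), or `Ideal.inertiaDeg_le_finrank`.
`Ideal.absNorm_apply`, `Submodule.cardQuot_apply`. Elements of the finite field `rr K p` satisfy `z^q = z`
(`FiniteField.pow_card`); the polynomial `X^q - X` has at most `q` roots in the field `kap p`
(`FiniteField.X_pow_card_sub_X_natDegree_eq`, `Polynomial.card_roots'`), all in `rr K p`, so the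
set of its roots is `rr K p`. `fin_roots` is the same root count for any `q ≥ 2`.
-/

set_option autoImplicit false

open MvPolynomial Module NumberField

namespace NF44

private theorem resf_fin_roots (k : Type) [Field k] (q : ℕ) (hq : 2 ≤ q) :
    {z : k | z ^ q = z}.Finite ∧ {z : k | z ^ q = z}.ncard ≤ q := by
  classical
  have hne : (Polynomial.X ^ q - Polynomial.X : Polynomial k) ≠ 0 :=
    FiniteField.X_pow_card_sub_X_ne_zero k (by omega)
  have hset : {z : k | z ^ q = z} =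
      ((Polynomial.X ^ q - Polynomial.X : Polynomial k).roots.toFinset : Set k) := by
    ext z
    simp only [Set.mem_setOf_eq, Finset.mem_coe, Multiset.mem_toFinset]
    rw [Polynomial.mem_roots hne, Polynomial.IsRoot.def]
    simp [sub_eq_zero]
  rw [hset]
  refine ⟨Finset.finite_toSet _, ?_⟩
  rw [Set.ncard_coe_finset]
  calc (Polynomial.X ^ q - Polynomial.X : Polynomial k).roots.toFinset.card
      ≤ Multiset.card (Polynomial.X ^ q - Polynomial.X : Polynomial k).roots :=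
        Multiset.toFinset_card_le _
    _ ≤ (Polynomial.X ^ q - Polynomial.X : Polynomial k).natDegree := Polynomial.card_roots' _
    _ = q := FiniteField.X_pow_card_sub_X_natDegree_eq k (by omega)

theorem rr_facts (K : SF) [NumberField K] (n : ℕ) (hn : finrank ℚ K = n) (p : ℕ)
    (hp : p.Prime) :
    Nat.card (rr K p) = p ^ fd K p ∧ 1 ≤ fd K p ∧ fd K p ≤ n ∧
      (∀ z : kap p, z ∈ rr K p ↔ z ^ (p ^ fd K p) = z) ∧
      (PP K p).IsPrime ∧ PP K p ≠ ⊥ ∧ (p : 𝓞 K) ∈ PP K p ∧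
      Ideal.absNorm (PP K p) = p ^ fd K p := by
  classical
  obtain ⟨φ, hφ⟩ : ∃ φ : 𝓞 K →+* kap p, φ = (red p).comp (oz K) := ⟨_, rfl⟩
  have hPP : PP K p = RingHom.ker φ := by rw [hφ]; rfl
  have hrr : rr K p = φ.range := by rw [hφ]; rfl
  have hprime : (PP K p).IsPrime := by rw [hPP]; exact RingHom.ker_isPrime φ
  have hpmem : (p : 𝓞 K) ∈ PP K p := by
    rw [hPP, RingHom.mem_ker, map_natCast]
    exact red_p hp
  have hp0 : (p : 𝓞 K) ≠ 0 := by exact_mod_cast hp.ne_zero
  have hbot : PP K p ≠ ⊥ := by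
    intro h
    rw [h, Ideal.mem_bot] at hpmem
    exact hp0 hpmem
  have hmax : (PP K p).IsMaximal := hprime.isMaximal hbot
  have hfin : Finite (𝓞 K ⧸ PP K p) := Ring.HasFiniteQuotients.finiteQuotient hbot
  -- the residue field
  letI : Field (𝓞 K ⧸ PP K p) := Ideal.Quotient.field (PP K p)
  letI : Fintype (𝓞 K ⧸ PP K p) := Fintype.ofFinite _
  have hchar : CharP (𝓞 K ⧸ PP K p) p := by
    rw [CharP.charP_iff_prime_eq_zero hp]
    have h1 := (Ideal.Quotient.eq_zero_iff_mem (I := PP K p)).2 hpmem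
    rw [map_natCast] at h1
    exact h1
  obtain ⟨f, -, hf⟩ := FiniteField.card (𝓞 K ⧸ PP K p) p
  have hcardq : Nat.card (𝓞 K ⧸ PP K p) = p ^ (f : ℕ) := by
    rw [Nat.card_eq_fintype_card, hf]
  obtain ⟨e⟩ : Nonempty ((𝓞 K ⧸ PP K p) ≃+* rr K p) := by
    rw [hPP, hrr]
    exact ⟨RingHom.quotientKerEquivRange φ⟩
  have hcard : Nat.card (rr K p) = p ^ (f : ℕ) := by
    rw [← Nat.card_congr e.toEquiv, hcardq]
  have hfd : fd K p = f := by
    unfold fd
    rw [hcard, Nat.log_pow hp.one_lt]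
  have hnorm : Ideal.absNorm (PP K p) = p ^ (f : ℕ) := by
    rw [Ideal.absNorm_apply, Submodule.cardQuot_apply]
    exact hcardq
  have hfn : (f : ℕ) ≤ n := by
    have h1 : Ideal.absNorm (PP K p) ∣ Ideal.absNorm (Ideal.span {(p : 𝓞 K)}) := by
      apply Ideal.absNorm_dvd_absNorm_of_le
      rw [Ideal.span_singleton_le_iff_mem]
      exact hpmem
    have h2 : Ideal.absNorm (Ideal.span {(p : 𝓞 K)}) = p ^ n := by
      rw [Ideal.absNorm_span_singleton]
      have h3 : (p : 𝓞 K) = algebraMap ℤ (𝓞 K) (p : ℤ) := by simp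
      rw [h3, Algebra.norm_algebraMap, RingOfIntegers.rank, hn, Int.natAbs_pow, Int.natAbs_natCast]
    rw [hnorm, h2] at h1
    exact (Nat.pow_dvd_pow_iff_le_right hp.one_lt).1 h1
  have hq2 : 2 ≤ p ^ (f : ℕ) := by
    calc 2 ≤ p := hp.two_le
      _ = p ^ 1 := (pow_one p).symm
      _ ≤ p ^ (f : ℕ) := Nat.pow_le_pow_right hp.pos f.2
  have hsub : (rr K p : Set (kap p)) ⊆ {z : kap p | z ^ (p ^ (f : ℕ)) = z} := by
    intro z hz
    obtain ⟨w, hw⟩ : ∃ w : 𝓞 K ⧸ PP K p, ((e w : rr K p) : kap p) = z :=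
      ⟨e.symm ⟨z, hz⟩, by rw [e.apply_symm_apply]⟩
    have h1 : w ^ (p ^ (f : ℕ)) = w := by
      rw [← hf]
      exact FiniteField.pow_card w
    show z ^ (p ^ (f : ℕ)) = z
    rw [← hw, ← Subring.coe_pow, ← map_pow, h1]
  obtain ⟨hR1, hR2⟩ := resf_fin_roots (kap p) (p ^ (f : ℕ)) hq2
  have hseteq : (rr K p : Set (kap p)) = {z : kap p | z ^ (p ^ (f : ℕ)) = z} := by
    apply Set.eq_of_subset_of_ncard_le hsub _ hR1
    have h1 : (rr K p : Set (kap p)).ncard = p ^ (f : ℕ) := by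
      rw [← Nat.card_coe_set_eq]
      exact hcard
    rw [h1]
    exact hR2
  rw [hfd]
  refine ⟨hcard, f.2, hfn, ?_, hprime, hbot, hpmem, hnorm⟩
  intro z
  have h1 : z ∈ (rr K p : Set (kap p)) ↔ z ∈ {z : kap p | z ^ (p ^ (f : ℕ)) = z} := by
    rw [hseteq]
  exact h1

theorem fin_roots (k : Type) [Field k] (q : ℕ) (hq : 2 ≤ q) :
    {z : k | z ^ q = z}.Finite ∧ {z : k | z ^ q = z}.ncard ≤ q := by
  exact resf_fin_roots k q hq

end NF44
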