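import Pool.Agent.Lib.NF44.Cover
import Pool.Agent.Lib.NF44.RelMod
import Pool.Agent.Lib.NF44.ResF

/-!
MP_44a56e_nt, module ClassCount: the number of classes at `p`.
-/

set_option autoImplicit false

open MvPolynomial Module NumberField

namespace NF44

private lemma class_aux {n r S p f : ℕ} (hn : 1 ≤ n) (hp : p.Prime) (α : Fin r → Zb)
    (hα : α ∈ TS n r S) (hf : fd (Kf α) p = f) :
    1 ≤ f ∧ ∀ i, red p (α i) ^ (p ^ f) = red p (α i) := by
  have h1 : finrank ℚ (Kf α) = n := hα.1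
  have hfd : FiniteDimensional ℚ (Kf α) := FiniteDimensional.of_finrank_pos (by omega)
  have hnf : NumberField (Kf α) := { to_charZero := inferInstance, to_finiteDimensional := hfd }
  obtain ⟨-, h2, -, h3, -⟩ := rr_facts (Kf α) n h1 p hp
  rw [hf] at h2 h3
  refine ⟨h2, fun i => ?_⟩
  rw [← h3]
  exact ⟨aO α i, rfl⟩

theorem class_count (n r x D : ℕ) (hn : 1 ≤ n) : ∃ c : ℕ, ∀ P : Ideal (PR r), Good P x D →
    ∀ S p f : ℕ, p.Prime →
      {a : Fin r → kap p | ∃ α ∈ TS n r S, P ≤ Mi α ∧ cls p α = (f, a)}.Finite ∧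
      {a : Fin r → kap p | ∃ α ∈ TS n r S, P ≤ Mi α ∧ cls p α = (f, a)}.ncard ≤
        c * (p ^ f) ^ x := by
  by_cases hx : x ≤ r
  · obtain ⟨c, hc⟩ := covering D r x hx
    refine ⟨c, fun P hP S p f hp => ?_⟩
    set A := {a : Fin r → kap p | ∃ α ∈ TS n r S, P ≤ Mi α ∧ cls p α = (f, a)} with hA
    rcases A.eq_empty_or_nonempty with hAe | ⟨a0, α0, hα0, -, hcl0⟩
    · rw [hAe]
      simp
    · have hf0 : fd (Kf α0) p = f := congrArg Prod.fst hcl0
      have hf1 : 1 ≤ f := (class_aux hn hp α0 hα0 hf0).1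
      have hq : 2 ≤ p ^ f := hp.two_le.trans (Nat.le_self_pow (by omega) p)
      obtain ⟨hG1, hG2⟩ := fin_roots (kap p) (p ^ f) hq
      refine hc (kap p) {z : kap p | z ^ (p ^ f) = z} (p ^ f) hG1 hG2 (by omega) A ?_ ?_
      · rintro a ⟨α, hα, -, hcl⟩ i
        have hf2 : fd (Kf α) p = f := congrArg Prod.fst hcl
        have ha : (fun i => red p (α i)) = a := congrArg Prod.snd hcl
        rw [← ha]
        exact (class_aux hn hp α hα hf2).2 i
      · intro Z hZ
        obtain ⟨F, hF1, hF2, hF3, hF4⟩ := rel_mod P Z D (hP.2 Z hZ) p hp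
        refine ⟨F, hF1, hF2, hF3, ?_⟩
        rintro a ⟨α, hα, hPα, hcl⟩
        have ha : (fun i => red p (α i)) = a := congrArg Prod.snd hcl
        rw [← ha]
        exact hF4 α hPα
  · refine ⟨0, fun P hP => ?_⟩
    obtain ⟨Y, hY, -⟩ := hP.1
    have := Finset.card_le_univ Y
    rw [Fintype.card_fin] at this
    omega

end NF44
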