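import Pool.Agent.Lib.NF44.Defs

/-!
MP_44a56e_nt, module Hensel: lifting a simple root modulo powers of a maximal ideal.
-/

set_option autoImplicit false

open MvPolynomial Module NumberField

namespace NF44

private theorem aeval_sub_mem {O : Type} [CommRing O] (M : Ideal O) (g : Polynomial ℤ)
    (x y : O) (h : x - y ∈ M) : Polynomial.aeval x g - Polynomial.aeval y g ∈ M := by
  have h1 : x - y ∣ Polynomial.aeval x g - Polynomial.aeval y g := by
    have := Polynomial.sub_dvd_eval_sub x y (g.map (algebraMap ℤ O))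
    rw [Polynomial.eval_map_algebraMap, Polynomial.eval_map_algebraMap] at this
    exact this
  obtain ⟨c, hc⟩ := h1
  rw [hc]
  exact M.mul_mem_right c h

theorem hensel {O : Type} [CommRing O] (M : Ideal O) (hM : M.IsMaximal) (g : Polynomial ℤ)
    (θ0 : O) (h0 : Polynomial.aeval θ0 g ∈ M) (h1 : Polynomial.aeval θ0 g.derivative ∉ M)
    (b : ℕ) : ∃ θ : O, θ - θ0 ∈ M ∧ Polynomial.aeval θ g ∈ M ^ b := by
  induction b with
  | zero => exact ⟨θ0, by simp, by simp⟩
  | succ b ih =>
    rcases Nat.eq_zero_or_pos b with hb | hb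
    · subst hb
      exact ⟨θ0, by simp, by simpa using h0⟩
    obtain ⟨θ, hθ1, hθ2⟩ := ih
    have h2 : Polynomial.aeval θ g.derivative ∉ M := by
      intro hc
      apply h1
      have h3 := aeval_sub_mem M g.derivative θ θ0 hθ1
      have h4 := M.sub_mem hc h3
      simpa using h4
    obtain ⟨u, hu⟩ := hM.exists_inv h2
    obtain ⟨m, hm, hmu⟩ := hu
    -- u * g'(θ) + m = 1
    set G : Polynomial O := g.map (algebraMap ℤ O) with hG
    have hGe : ∀ x : O, Polynomial.aeval x g = G.eval x := fun x => by
      rw [hG, Polynomial.eval_map_algebraMap]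
    have hGd : ∀ x : O, Polynomial.aeval x g.derivative = G.derivative.eval x := fun x => by
      rw [hG, Polynomial.derivative_map, Polynomial.eval_map_algebraMap]
    obtain ⟨c, hc⟩ := Polynomial.binomExpansion G θ (-(G.eval θ * u))
    refine ⟨θ + -(G.eval θ * u), ?_, ?_⟩
    · have h5 : G.eval θ ∈ M := by
        rw [← hGe]
        exact Ideal.pow_le_self hb.ne' hθ2
      have h6 : θ + -(G.eval θ * u) - θ0 = (θ - θ0) - G.eval θ * u := by ring
      rw [h6]
      exact M.sub_mem hθ1 (M.mul_mem_right u h5)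
    · rw [hGe, hc]
      rw [hGd] at hmu
      rw [hGe] at hθ2
      have h7 : G.eval θ + G.derivative.eval θ * -(G.eval θ * u) + c * (-(G.eval θ * u)) ^ 2
          = G.eval θ * (1 - u * G.derivative.eval θ) + (G.eval θ * G.eval θ) * (c * u ^ 2) := by
        ring
      rw [h7]
      have h8 : 1 - u * G.derivative.eval θ = m := by rw [← hmu]; ring
      rw [h8]
      refine (M ^ (b + 1)).add_mem ?_ ?_
      · rw [pow_succ]
        exact Ideal.mul_mem_mul hθ2 hm
      · refine (M ^ (b + 1)).mul_mem_right _ ?_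
        have h9 : G.eval θ * G.eval θ ∈ M ^ b * M ^ b := Ideal.mul_mem_mul hθ2 hθ2
        rw [← pow_add] at h9
        exact Ideal.pow_le_pow_right (by omega) h9

end NF44
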