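import Pool.Agent.Lib.NF44.Mon

/-!
MP_44a56e_nt, module Taylor: the Taylor expansion at a lift of a residue class.
-/

set_option autoImplicit false

open MvPolynomial Module NumberField

namespace NF44

private theorem taylor_eval {O : Type} [CommRing O] {r : ℕ}
    (ψ : Polynomial ℤ →+* O) (a : Fin r → Polynomial ℤ)
    (α : Fin r → O) (Q : MvPolynomial (Fin r) ℤ) :
    aeval α Q = eval₂ ψ (fun i => α i - ψ (a i))
      (aeval (fun i => X i + C (a i) : Fin r → MvPolynomial (Fin r) (Polynomial ℤ)) Q) := by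
  have h : (aeval α : MvPolynomial (Fin r) ℤ →ₐ[ℤ] O).toRingHom =
      (eval₂Hom ψ (fun i => α i - ψ (a i))).comp
        (aeval (fun i => X i + C (a i) :
          Fin r → MvPolynomial (Fin r) (Polynomial ℤ)) :
            MvPolynomial (Fin r) ℤ →ₐ[ℤ] MvPolynomial (Fin r) (Polynomial ℤ)).toRingHom := by
    apply MvPolynomial.ringHom_ext
    · intro z
      simp
    · intro i
      simp
  have := congrArg (fun f : MvPolynomial (Fin r) ℤ →+* O => f Q) h
  simpa using this

theorem taylor {O : Type} [CommRing O] {r : ℕ} (M : Ideal O) (p b : ℕ) (hp : (p : O) ∈ M)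
    (g : Polynomial ℤ) (θ : O) (hθ : Polynomial.aeval θ g ∈ M ^ b) (a : Fin r → Polynomial ℤ)
    (α : Fin r → O) (hα : ∀ i, α i - Polynomial.aeval θ (a i) ∈ M)
    (Q : MvPolynomial (Fin r) ℤ)
    (hQ : ∀ J : Fin r →₀ ℕ, J.degree < b → ∃ u w : Polynomial ℤ,
      coeff J (aeval (fun i => X i + C (a i) :
        Fin r → MvPolynomial (Fin r) (Polynomial ℤ)) Q) =
        g * u + (p : Polynomial ℤ) ^ (b - J.degree) * w) :
    aeval α Q ∈ M ^ b := by
  have h1 := taylor_eval ((Polynomial.aeval θ : Polynomial ℤ →ₐ[ℤ] O) : Polynomial ℤ →+* O)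
    a α Q
  rw [h1, MvPolynomial.eval₂_eq']
  refine Ideal.sum_mem _ fun J _ => ?_
  have hprod : ∏ i, (α i - Polynomial.aeval θ (a i)) ^ J i ∈ M ^ J.degree := by
    rw [Finsupp.degree_eq_sum, ← Finset.prod_pow_eq_pow_sum]
    exact Ideal.prod_mem_prod fun i _ => Ideal.pow_mem_pow (hα i) _
  change Polynomial.aeval θ (coeff J _) * ∏ i, (α i - Polynomial.aeval θ (a i)) ^ J i ∈ M ^ b
  by_cases hJ : J.degree < b
  · obtain ⟨u, w, huw⟩ := hQ J hJ
    rw [huw, map_add, map_mul, map_mul, map_pow, add_mul]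
    refine Ideal.add_mem _ ?_ ?_
    · rw [mul_assoc]
      exact Ideal.mul_mem_right _ _ hθ
    · have hpp : (Polynomial.aeval θ (p : Polynomial ℤ)) ∈ M := by
        rw [map_natCast]
        exact hp
      have h2 := Ideal.mul_mem_mul (Ideal.pow_mem_pow hpp (b - J.degree)) hprod
      rw [← pow_add, Nat.sub_add_cancel hJ.le] at h2
      rw [mul_right_comm]
      exact Ideal.mul_mem_right _ _ h2
  · exact Ideal.mul_mem_left _ _ (Ideal.pow_le_pow_right (not_lt.1 hJ) hprod)

end NF44
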