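import Pool.Agent.Lib.NF44.Gen
import Pool.Agent.Lib.NF44.Hensel
import Pool.Agent.Lib.NF44.Taylor
import Pool.Agent.Lib.NF44.CardO

/-!
MP_44a56e_nt, module ClassHom (about 200 lines): the conditions of vanishing to order `b` on a residue class.

PROOF of `class_hom`. If no `α` with `Kf α` finite has `cls p α = (f, a)` take `H = Unit`-like (`PUnit` or `Fin 1`/`ZMod 1`), `Θ = 0`
(`1 ≤ p ^ _`). Otherwise fix one, `K1 = Kf α1` (a number field), `fd K1 p = f`; `ρ, g` from `exists_gen K1`. By `rr_facts`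
`rr K p = {z | z^(p^f) = z}` for every `K` with `fd K p = f`, in particular it is the same subring for all `α` of the class. `a i ∈ rr`
(it is the image of `aO α1 i`), so `a i = A_i(ρ)` with `A_i : ℤ[X]`. `H = ∏_{J ∈ mon r b} ℤ[X] ⧸ (g, p^(b-|J|))` (a `Π` over
the subtype `mon r b`; factors with `|J| = b` are trivial, exponent `0`), `Θ Q = (class of coeff J (Q(x + A)))_J`, additive.
Card: `∏ p^((b-|J|) f) = p^(f ∑ (b-|J|)) = p^(f choose(b+r, r+1))` by `card_quot`, `sum_mon`. Now let `α` have the class `(f, a)`,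
`K = Kf α`, `M = PP K p` maximal. `ρ ∈ rr K p`: `ρ = red p (oz K θ0)`; `g(θ0) ∈ M`, `g'(θ0) ∉ M` (kernel). `hensel` gives `θ`, `θ - θ0 ∈ M`,
`g(θ) ∈ M^b`. `red (oz (aO α i - A_i(θ))) = a i - A_i(ρ) = 0`, so the difference is in `M`. `Θ Q = 0` says
`coeff J ∈ (g, p^(b-|J|))` (`Ideal.mem_span_pair`). Apply `taylor`.
-/

set_option autoImplicit false

open MvPolynomial Module NumberField

namespace NF44

theorem class_hom {r : ℕ} (p f b : ℕ) (hp : p.Prime) (a : Fin r → kap p) :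
    ∃ (H : Type) (_ : AddCommGroup H) (Θ : MvPolynomial (Fin r) ℤ →+ H),
      Finite H ∧ Nat.card H ≤ p ^ (f * (b + r).choose (r + 1)) ∧
      ∀ α : Fin r → Zb, FiniteDimensional ℚ (Kf α) → cls p α = (f, a) →
        ∀ Q : MvPolynomial (Fin r) ℤ, Θ Q = 0 → aeval (aO α) Q ∈ PP (Kf α) p ^ b := by
  classical
  by_cases hex : ∃ α : Fin r → Zb, FiniteDimensional ℚ (Kf α) ∧ cls p α = (f, a)
  swap
  · refine ⟨PUnit, inferInstance, 0, inferInstance, ?_, ?_⟩
    · rw [Nat.card_unique]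
      exact Nat.one_le_iff_ne_zero.2 (pow_ne_zero _ hp.ne_zero)
    · intro α h1 h2
      exact absurd ⟨α, h1, h2⟩ hex
  obtain ⟨α1, hfd1, hc1⟩ := hex
  have _inst : NumberField (Kf α1) := @NumberField.mk _ _ inferInstance hfd1
  have hf1 : fd (Kf α1) p = f := congrArg Prod.fst hc1
  have ha1 : (fun i => red p (α1 i)) = a := congrArg Prod.snd hc1
  obtain ⟨ρ, g, hρ, hgm, hgd, hg0, hg1, hgen⟩ := exists_gen (Kf α1) p hp
  have hrr := (rr_facts (Kf α1) _ rfl p hp).2.2.2.1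
  rw [hf1] at hrr hgd
  have haA : ∀ i, ∃ A : Polynomial ℤ, Polynomial.aeval ρ A = a i := fun i => hgen _ (by
    rw [← ha1]
    exact ⟨aO α1 i, rfl⟩)
  choose A hA using haA
  let I : (mon r b) → Ideal (Polynomial ℤ) := fun J =>
    Ideal.span {g, ((p ^ (b - (J : Fin r →₀ ℕ).degree) : ℕ) : Polynomial ℤ)}
  let S : MvPolynomial (Fin r) ℤ →+ MvPolynomial (Fin r) (Polynomial ℤ) :=
    ((aeval (fun i => X i + C (A i)) : MvPolynomial (Fin r) ℤ →ₐ[ℤ]
      MvPolynomial (Fin r) (Polynomial ℤ)) : MvPolynomial (Fin r) ℤ →+*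
      MvPolynomial (Fin r) (Polynomial ℤ)).toAddMonoidHom
  let Θ : MvPolynomial (Fin r) ℤ →+ (∀ J : mon r b, Polynomial ℤ ⧸ I J) :=
    AddMonoidHom.pi (fun J => (Ideal.Quotient.mk (I J)).toAddMonoidHom.comp
      ((coeffAddMonoidHom (J : Fin r →₀ ℕ)).comp S))
  have hcq : ∀ J : mon r b, Finite (Polynomial ℤ ⧸ I J) ∧
      Nat.card (Polynomial ℤ ⧸ I J) ≤ (p ^ (b - (J : Fin r →₀ ℕ).degree)) ^ g.natDegree :=
    fun J => card_quot g hgm _ (pow_pos hp.pos _)
  have _inst2 : ∀ J : mon r b, Finite (Polynomial ℤ ⧸ I J) := fun J => (hcq J).1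
  refine ⟨∀ J : mon r b, Polynomial ℤ ⧸ I J, inferInstance, Θ, inferInstance, ?_, ?_⟩
  · rw [Nat.card_pi]
    calc ∏ J : mon r b, Nat.card (Polynomial ℤ ⧸ I J)
        ≤ ∏ J : mon r b, (p ^ (b - (J : Fin r →₀ ℕ).degree)) ^ g.natDegree :=
          Finset.prod_le_prod' fun J _ => (hcq J).2
      _ = ∏ J ∈ mon r b, (p ^ (b - J.degree)) ^ g.natDegree :=
          Finset.prod_coe_sort (mon r b)
            (fun J : Fin r →₀ ℕ => (p ^ (b - J.degree)) ^ g.natDegree)
      _ = p ^ (f * (b + r).choose (r + 1)) := by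
          rw [Finset.prod_pow, Finset.prod_pow_eq_pow_sum, sum_mon, ← pow_mul, hgd, mul_comm]
      _ ≤ _ := le_rfl
  · intro α hfd hc Q hQ
    have _inst : NumberField (Kf α) := @NumberField.mk _ _ inferInstance hfd
    have hf : fd (Kf α) p = f := congrArg Prod.fst hc
    have ha : ∀ i, red p (α i) = a i := fun i => congrFun (congrArg Prod.snd hc) i
    obtain ⟨-, -, -, hrrα, hprime, hbot, hpm, -⟩ := rr_facts (Kf α) _ rfl p hp
    rw [hf] at hrrα
    have hρα : ρ ∈ rr (Kf α) p := (hrrα ρ).2 ((hrr ρ).1 hρ)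
    let ψ : 𝓞 (Kf α) →+* kap p := (red p).comp (oz (Kf α))
    have hmem : ∀ x, x ∈ PP (Kf α) p ↔ ψ x = 0 := fun _ => Iff.rfl
    obtain ⟨θ0, hθ0'⟩ := hρα
    have hθ0 : ψ θ0 = ρ := hθ0'
    have hmax : (PP (Kf α) p).IsMaximal := hprime.isMaximal hbot
    have hcomp : ∀ (q : Polynomial ℤ) (x : 𝓞 (Kf α)),
        ψ (Polynomial.aeval x q) = Polynomial.aeval (ψ x) q := by
      intro q x
      exact (Polynomial.aeval_algHom_apply ψ.toIntAlgHom x q).symm
    obtain ⟨θ, hθ, hgθ⟩ := hensel (PP (Kf α) p) hmax g θ0 (by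
      rw [hmem, hcomp, hθ0, hg0]) (by
      rw [hmem, hcomp, hθ0]
      exact hg1) b
    have hθρ : ψ θ = ρ := by
      rw [← hθ0, ← sub_eq_zero, ← map_sub]
      exact (hmem _).1 hθ
    refine taylor (PP (Kf α) p) p b hpm g θ hgθ A (aO α) ?_ Q ?_
    · intro i
      rw [hmem, map_sub, hcomp, hθρ, hA]
      show red p (α i) - a i = 0
      rw [ha i, sub_self]
    · intro J hJ
      have hJm : J ∈ mon r b := mem_mon.2 hJ.le
      have h := congrFun hQ ⟨J, hJm⟩
      have h' : coeff J (aeval (fun i => X i + C (A i) :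
          Fin r → MvPolynomial (Fin r) (Polynomial ℤ)) Q) ∈
          Ideal.span {g, ((p ^ (b - J.degree) : ℕ) : Polynomial ℤ)} :=
        Ideal.Quotient.eq_zero_iff_mem.1 h
      rw [Ideal.mem_span_pair] at h'
      obtain ⟨u, w, huw⟩ := h'
      refine ⟨u, w, ?_⟩
      rw [← huw]
      push_cast
      ring

end NF44
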