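import Pool.Agent.Lib.NF44.BM

/-!
MP_44a56e_nt, module Coset (about 130 lines): growth in a commutative group.

PROOF of `coset_growth`. `Λ = ι(ℤ^x)` is a subgroup of `Γ` (`ι 0 = 1`, `ι (-a) = (ι a)⁻¹` by `hadd`). `A = ∅` trivial. Split `A` by cosets of `Λ`: for a class
`c ∈ Γ ⧸ Λ` let `A_c = {a ∈ A : class c}`. Let `c0` be a class with `|A_c0|` maximal (among the classes of elements of `A`). For each class `c` of
`A` the set `A_c * A_c0 * ι(E)` lies in the class `c c0`; these are pairwise disjoint subsets of `A * A * ι(E)`. Choose `a_c ∈ A_c`; `A_c = a_c ι(A'_c)` with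
`A'_c ⊆ ℤ^x` of the same size; `A_c * A_c0 * ι(E) = a_c a_c0 ι(A'_c + A'_c0 + E)`, so by `bm` its card `N` satisfies
`N^2 ≥ 4^x |A_c| |A_c0| ≥ (2^x |A_c|)^2`, i.e. `N ≥ 2^x |A_c|`. Sum over `c`
(`Finset.card_eq_sum_card_fiberwise`, `Finset.card_biUnion`).
-/

set_option autoImplicit false

open scoped Pointwise

namespace NF44

/-- A piece of `A` in one coset of the image of `ι`, transported to `ℤ ^ x`. -/
private theorem cg_piece {Γ : Type} [CommGroup Γ] [DecidableEq Γ] {x : ℕ} (ι : (Fin x → ℤ) → Γ)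
    (A : Finset Γ) (a1 : Γ)
    (h : ∀ a ∈ A, ∃ v, a1 * ι v = a) :
    ∃ A' : Finset (Fin x → ℤ), A'.card = A.card ∧ ∀ v ∈ A', a1 * ι v ∈ A := by
  classical
  choose! g hg using h
  refine ⟨A.image g, Finset.card_image_of_injOn ?_, ?_⟩
  · intro a ha b hb hab
    rw [← hg a ha, ← hg b hb, hab]
  · intro v hv
    obtain ⟨a, ha, rfl⟩ := Finset.mem_image.1 hv
    rw [hg a ha]
    exact ha

theorem coset_growth {Γ : Type} [CommGroup Γ] [DecidableEq Γ] {x : ℕ} (ι : (Fin x → ℤ) → Γ)
    (hι : Function.Injective ι) (hadd : ∀ a b, ι (a + b) = ι a * ι b) (A : Finset Γ) :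
    2 ^ x * A.card ≤
      (A * A * (Fintype.piFinset (fun _ : Fin x => ({0, 1} : Finset ℤ))).image ι).card := by
  classical
  rcases A.eq_empty_or_nonempty with rfl | hA
  · simp
  set Q : Finset (Fin x → ℤ) := Fintype.piFinset (fun _ : Fin x => ({0, 1} : Finset ℤ)) with hQ
  have h0 : ι 0 = 1 := by
    have h1 := hadd 0 0
    rw [add_zero] at h1
    exact (mul_eq_left.1 h1.symm)
  have hneg : ∀ a, ι (-a) = (ι a)⁻¹ := fun a => by
    have h1 := hadd (-a) a
    rw [neg_add_cancel, h0] at h1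
    exact eq_inv_of_mul_eq_one_left h1.symm
  let H : Subgroup Γ :=
    { carrier := Set.range ι
      one_mem' := ⟨0, h0⟩
      mul_mem' := by
        rintro _ _ ⟨a, rfl⟩ ⟨b, rfl⟩
        exact ⟨a + b, hadd a b⟩
      inv_mem' := by
        rintro _ ⟨a, rfl⟩
        exact ⟨-a, hneg a⟩ }
  have hH : ∀ v, ι v ∈ H := fun v => ⟨v, rfl⟩
  let cls : Γ →* Γ ⧸ H := QuotientGroup.mk' H
  have hcls : ∀ v, cls (ι v) = 1 := fun v => (QuotientGroup.eq_one_iff _).2 (hH v)
  have hcls2 : ∀ a b : Γ, cls a = cls b → ∃ v, a * ι v = b := by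
    intro a b hab
    have h1 : a⁻¹ * b ∈ H := QuotientGroup.eq.1 hab
    obtain ⟨v, hv⟩ := h1
    exact ⟨v, by rw [hv, mul_inv_cancel_left]⟩
  let P : Γ ⧸ H → Finset Γ := fun q => A.filter fun a => cls a = q
  obtain ⟨q0, hq0, hmax⟩ := Finset.exists_max_image (A.image cls) (fun q => (P q).card)
    (hA.image cls)
  set S : Finset Γ := A * A * Q.image ι with hS
  have key : ∀ q ∈ A.image cls,
      2 ^ x * (P q).card ≤ (S.filter fun s => cls s = q * q0).card := by
    intro q hq
    obtain ⟨a1, ha1, hq1⟩ := Finset.mem_image.1 hq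
    obtain ⟨a0, ha0, hq2⟩ := Finset.mem_image.1 hq0
    obtain ⟨A1, hA1, hA1'⟩ := cg_piece ι (P q) a1 (fun a ha =>
      hcls2 a1 a (hq1.trans (Finset.mem_filter.1 ha).2.symm))
    obtain ⟨A0, hA0, hA0'⟩ := cg_piece ι (P q0) a0 (fun a ha =>
      hcls2 a0 a (hq2.trans (Finset.mem_filter.1 ha).2.symm))
    have h1 := bm x A1 A0
    rw [← hQ] at h1
    have h2 : (A1 + A0 + Q).card ≤ (S.filter fun s => cls s = q * q0).card := by
      refine Finset.card_le_card_of_injOn (fun v => a1 * a0 * ι v) ?_ ?_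
      · intro v hv
        obtain ⟨w, hw, e, he, rfl⟩ := Finset.mem_add.1 (Finset.mem_coe.1 hv)
        obtain ⟨v1, hv1, v0, hv0, rfl⟩ := Finset.mem_add.1 hw
        refine Finset.mem_coe.2 (Finset.mem_filter.2 ⟨?_, ?_⟩)
        · have h3 : a1 * a0 * ι (v1 + v0 + e) = (a1 * ι v1) * (a0 * ι v0) * ι e := by
            rw [hadd, hadd]
            simp only [mul_assoc, mul_left_comm]
          change a1 * a0 * ι (v1 + v0 + e) ∈ S
          rw [h3, hS]
          exact Finset.mul_mem_mul (Finset.mul_mem_mul (Finset.mem_filter.1 (hA1' v1 hv1)).1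
            (Finset.mem_filter.1 (hA0' v0 hv0)).1) (Finset.mem_image_of_mem ι he)
        · change cls (a1 * a0 * ι (v1 + v0 + e)) = q * q0
          rw [map_mul, map_mul, hcls, mul_one, hq1, hq2]
      · intro v _ w _ hvw
        exact hι (mul_left_cancel hvw)
    have h3 : (2 ^ x * (P q).card) ^ 2 ≤ (A1 + A0 + Q).card ^ 2 := by
      refine le_trans ?_ h1
      rw [hA1, hA0, mul_pow, ← pow_mul, mul_comm x 2, pow_mul, sq (P q).card]
      exact Nat.mul_le_mul (le_of_eq (by norm_num)) (Nat.mul_le_mul le_rfl (hmax q hq))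
    exact ((Nat.pow_le_pow_iff_left two_ne_zero).1 h3).trans h2
  calc 2 ^ x * A.card = ∑ q ∈ A.image cls, 2 ^ x * (P q).card := by
        rw [← Finset.mul_sum, Finset.card_eq_sum_card_image cls A]
    _ ≤ ∑ q ∈ A.image cls, (S.filter fun s => cls s = q * q0).card := Finset.sum_le_sum key
    _ = ((A.image cls).biUnion fun q => S.filter fun s => cls s = q * q0).card := by
        rw [Finset.card_biUnion]
        intro q _ r _ hqr
        rw [Function.onFun, Finset.disjoint_left]
        intro s hs hs'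
        exact hqr (mul_right_cancel
          ((Finset.mem_filter.1 hs).2.symm.trans (Finset.mem_filter.1 hs').2))
    _ ≤ S.card := by
        apply Finset.card_le_card
        intro s hs
        obtain ⟨q, _, hq⟩ := Finset.mem_biUnion.1 hs
        exact (Finset.mem_filter.1 hq).1

end NF44
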