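import Pool.Agent.Lib.NF44.Defs

/-!
MP_44a56e_nt, module Cover (about 200 lines): the number of points of a variety in a grid.

PROOF of `covering`. Induction on `r` (for all `x ≤ r`). `x = r`: `P ⊆ G^r`, `ncard ≤ q^r`, `c =
1` (`Set.Finite.pi`, `Set.ncard` of a pi set; work with `Finset`/`Fintype.piFinset`).
`x < r`, `r = r' + 1`: let `z` be the last coordinate (`Fin.last`, `Fin.init`), `π = Fin.init`.
`P1` = points of `P` whose fibre `{a' ∈ P : π a' = π a}` has at most `D` elements, `P2` the
others.
`π(P1)` satisfies the hypotheses for `r', x` (an `(x+1)`-subset of the first `r'` coordinates is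
one of `Fin r` not containing the last; the relation only involves these variables, transport by
`rename Fin.castSucc` / `MvPolynomial.exists_rename_eq_of_vars_subset_range`); `x ≤ r'`. So `|P1|
≤ D c(r',x) q^x`. `π(P2)`: if `x ≥ 1` let `Z` be an `x`-subset of the first `r'` coordinates; the
relation `F` for `Z ∪ {z}`,
written `F = ∑_k F_k(Z) z^k` (`MvPolynomial.finSuccEquiv` or `Polynomial` in `z` of degree `≤ D`),
vanishes at more than `D` values of `z` above each point of `π(P2)`,
so all `F_k` vanish there; some `F_k ≠ 0`. Hence `|π(P2)| ≤ c(r', x-1) q^(x-1)`, `|P2| ≤ q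
|π(P2)|`. If `x = 0`: `F(z)` nonzero of degree `≤ D` has `≤ D` roots so `P2 = ∅`.
`c(r,x) = D c(r',x) + c(r',x-1) `.
-/

set_option autoImplicit false

open MvPolynomial Module NumberField

namespace NF44

private theorem td_inj {k : Type} [Field k] {σ τ : Type} {f : σ → τ} (hf : Function.Injective f)
    (p : MvPolynomial σ k) : p.totalDegree ≤ (rename f p).totalDegree := by
  classical
  refine Finset.sup_le fun b hb => ?_
  have h1 : b.mapDomain f ∈ (rename f p).support := by
    rw [support_rename_of_injective hf]
    exact Finset.mem_image_of_mem _ hb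
  refine le_trans (le_of_eq ?_) (le_totalDegree h1)
  exact (Finsupp.sum_mapDomain_index (h := fun _ e => e) (fun _ => rfl)
    (fun _ _ _ => rfl)).symm

/-- a relation which does not involve the first variable -/
private theorem cv_tail {k : Type} [Field k] {r : ℕ} (Z : Finset (Fin r))
    (F : MvPolynomial (Fin (r + 1)) k)
    (hF : F ∈ supported k ((Z.map (Fin.succEmb r) : Finset (Fin (r + 1))) : Set (Fin (r + 1)))) :
    ∃ F' ∈ supported k (Z : Set (Fin r)), rename Fin.succ F' = F := by
  classical
  rw [mem_supported] at hF
  obtain ⟨q, hq⟩ := exists_rename_eq_of_vars_subset_range F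
    (fun j : (Z : Set (Fin r)) => Fin.succ (j : Fin r))
    (fun a b hab => Subtype.ext (Fin.succ_injective _ hab)) (by
      intro i hi
      have h1 := hF hi
      rw [Finset.coe_map] at h1
      obtain ⟨j, hj, rfl⟩ := h1
      exact ⟨⟨j, hj⟩, rfl⟩)
  refine ⟨rename (fun j : (Z : Set (Fin r)) => (j : Fin r)) q, ?_, ?_⟩
  · rw [supported_eq_range_rename]
    exact ⟨q, rfl⟩
  · rw [rename_rename]
    exact hq

private theorem cv_coeff {k : Type} [Field k] {r : ℕ} (Z : Finset (Fin r))
    (F : MvPolynomial (Fin (r + 1)) k)
    (hF : F ∈ supported k ((insert 0 (Z.map (Fin.succEmb r)) : Finset (Fin (r + 1))) :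
      Set (Fin (r + 1)))) (i : ℕ) :
    (finSuccEquiv k r F).coeff i ∈ supported k (Z : Set (Fin r)) := by
  classical
  rw [mem_supported] at hF ⊢
  intro j hj
  rw [Finset.mem_coe, mem_vars_iff_mem_support] at hj
  obtain ⟨m, hm, hjm⟩ := hj
  have h1 := mem_support_coeff_finSuccEquiv.1 hm
  have h2 : (j.succ : Fin (r + 1)) ∈ F.vars := by
    rw [mem_vars_iff_mem_support]
    refine ⟨_, h1, ?_⟩
    rw [Finsupp.mem_support_iff, Finsupp.cons_succ]
    exact Finsupp.mem_support_iff.1 hjm
  have h3 := hF h2
  rw [Finset.mem_coe, Finset.mem_insert] at h3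
  rcases h3 with h3 | h3
  · exact absurd h3 (Fin.succ_ne_zero j)
  · rw [Finset.mem_map] at h3
    obtain ⟨l, hl, hl2⟩ := h3
    rw [← Fin.succ_injective _ hl2]
    exact hl

private theorem cov_aux (D : ℕ) : ∀ r x : ℕ, x ≤ r → ∃ c : ℕ, ∀ (k : Type) [Field k]
    [DecidableEq k] (G : Finset k) (q : ℕ), G.card ≤ q → ∀ P : Finset (Fin r → k),
    (∀ a ∈ P, ∀ i, a i ∈ G) →
    (∀ Z : Finset (Fin r), Z.card = x + 1 → ∃ F ∈ supported k (Z : Set (Fin r)),
      F ≠ 0 ∧ F.totalDegree ≤ D ∧ ∀ a ∈ P, eval a F = 0) →
    P.card ≤ c * q ^ x := by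
  intro r
  induction r with
  | zero =>
    intro x hx
    refine ⟨1, fun k _ _ G q hG P hP _ => ?_⟩
    have hx0 : x = 0 := by omega
    subst hx0
    rw [pow_zero, mul_one, Finset.card_le_one]
    intro a _ b _
    exact Subsingleton.elim _ _
  | succ r ih =>
    intro x hx
    rcases Nat.eq_or_lt_of_le hx with hx | hx
    · refine ⟨1, fun k _ _ G q hG P hP _ => ?_⟩
      subst hx
      have h1 : P ⊆ Fintype.piFinset (fun _ : Fin (r + 1) => G) := by
        intro a ha
        rw [Fintype.mem_piFinset]
        exact hP a ha
      have h2 := Finset.card_le_card h1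
      rw [Fintype.card_piFinset_const] at h2
      rw [one_mul]
      exact h2.trans (Nat.pow_le_pow_left hG _)
    · have hxr : x ≤ r := by omega
      obtain ⟨c1, hc1⟩ := ih x hxr
      obtain ⟨c2, hc2⟩ := ih (x - 1) (by omega)
      refine ⟨D * c1 + c2, fun k _ _ G q hG P hP hZ => ?_⟩
      -- the fibres
      set P1 := P.filter (fun a => (P.filter (fun a' => Fin.tail a' = Fin.tail a)).card ≤ D)
        with hP1
      set P2 := P.filter (fun a => ¬ (P.filter (fun a' => Fin.tail a' = Fin.tail a)).card ≤ D)
        with hP2
      have hcard : P.card = P1.card + P2.card :=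
        (Finset.card_filter_add_card_filter_not _).symm
      have b1 : P1.card ≤ D * (P1.image Fin.tail).card := by
        apply Finset.card_le_mul_card_image
        intro b hb
        rw [Finset.mem_image] at hb
        obtain ⟨a, ha, rfl⟩ := hb
        rw [hP1, Finset.mem_filter] at ha
        refine le_trans (Finset.card_le_card ?_) ha.2
        intro a' ha'
        rw [Finset.mem_filter] at ha' ⊢
        exact ⟨(Finset.mem_filter.1 ha'.1).1, ha'.2⟩
      have b2 : (P1.image Fin.tail).card ≤ c1 * q ^ x := by
        refine hc1 k G q hG _ ?_ ?_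
        · intro b hb i
          rw [Finset.mem_image] at hb
          obtain ⟨a, ha, rfl⟩ := hb
          exact hP a (Finset.mem_filter.1 ha).1 _
        · intro Z hZc
          obtain ⟨F, hF1, hF2, hF3, hF4⟩ := hZ (Z.map (Fin.succEmb r)) (by
            rw [Finset.card_map, hZc])
          obtain ⟨F', hF', rfl⟩ := cv_tail Z F hF1
          refine ⟨F', hF', ?_, (td_inj (Fin.succ_injective _) F').trans hF3, ?_⟩
          · rintro rfl
            exact hF2 (map_zero _)
          · intro b hb
            rw [Finset.mem_image] at hb
            obtain ⟨a, ha, rfl⟩ := hb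
            have h1 := hF4 a (Finset.mem_filter.1 ha).1
            rw [eval_rename] at h1
            exact h1
      -- the relations on `π(P2)`
      have key : ∀ Z : Finset (Fin r), Z.card = x → ∃ F ∈ supported k (Z : Set (Fin r)),
          F ≠ 0 ∧ F.totalDegree ≤ D ∧ ∀ b ∈ P2.image Fin.tail, eval b F = 0 := by
        intro Z hZc
        obtain ⟨F, hF1, hF2, hF3, hF4⟩ := hZ (insert 0 (Z.map (Fin.succEmb r))) (by
          rw [Finset.card_insert_of_notMem, Finset.card_map, hZc]
          intro h0
          rw [Finset.mem_map] at h0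
          obtain ⟨j, -, hj⟩ := h0
          exact Fin.succ_ne_zero j hj)
        have hf0 : finSuccEquiv k r F ≠ 0 := by
          rw [Ne, EmbeddingLike.map_eq_zero_iff]
          exact hF2
        obtain ⟨i, hi⟩ : ∃ i, (finSuccEquiv k r F).coeff i ≠ 0 := by
          by_contra hcon
          push Not at hcon
          exact hf0 (Polynomial.ext fun i => by rw [hcon i, Polynomial.coeff_zero])
        refine ⟨(finSuccEquiv k r F).coeff i, cv_coeff Z F hF1 i, hi, ?_, ?_⟩
        · have := totalDegree_coeff_finSuccEquiv_add_le F i hi
          omega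
        · intro b hb
          rw [Finset.mem_image] at hb
          obtain ⟨a, ha, rfl⟩ := hb
          rw [hP2, Finset.mem_filter] at ha
          have h0 : Polynomial.map (eval (Fin.tail a)) (finSuccEquiv k r F) = 0 := by
            by_contra hne
            apply ha.2
            have h1 : (P.filter (fun a' => Fin.tail a' = Fin.tail a)).image (fun a' => a' 0) ⊆
                (Polynomial.map (eval (Fin.tail a)) (finSuccEquiv k r F)).roots.toFinset := by
              intro z hz
              rw [Finset.mem_image] at hz
              obtain ⟨a', ha', rfl⟩ := hz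
              rw [Finset.mem_filter] at ha'
              rw [Multiset.mem_toFinset, Polynomial.mem_roots hne, Polynomial.IsRoot.def,
                ← eval_eq_eval_mv_eval', ← ha'.2, Fin.cons_self_tail]
              exact hF4 a' ha'.1
            have h2 : ((P.filter (fun a' => Fin.tail a' = Fin.tail a)).image
                (fun a' => a' 0)).card =
                (P.filter (fun a' => Fin.tail a' = Fin.tail a)).card := by
              apply Finset.card_image_of_injOn
              intro u hu v hv huv
              rw [Finset.mem_coe, Finset.mem_filter] at hu hv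
              rw [← Fin.cons_self_tail u, ← Fin.cons_self_tail v, hu.2, hv.2]
              have huv' : u 0 = v 0 := huv
              rw [huv']
            rw [← h2]
            refine (Finset.card_le_card h1).trans ((Multiset.toFinset_card_le _).trans ?_)
            refine (Polynomial.card_roots' _).trans ((Polynomial.natDegree_map_le).trans ?_)
            rw [natDegree_finSuccEquiv]
            exact (degreeOf_le_totalDegree _ _).trans hF3
          have h1 := congrArg (fun g => Polynomial.coeff g i) h0
          simpa [Polynomial.coeff_map] using h1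
      have b3 : P2.card ≤ q * (P2.image Fin.tail).card := by
        apply Finset.card_le_mul_card_image
        intro b hb
        refine le_trans ?_ hG
        refine Finset.card_le_card_of_injOn (fun a => a 0) ?_ ?_
        · intro a ha
          rw [Finset.mem_coe, Finset.mem_filter] at ha
          exact hP a (Finset.mem_filter.1 ha.1).1 _
        · intro u hu v hv huv
          rw [Finset.mem_coe, Finset.mem_filter] at hu hv
          rw [← Fin.cons_self_tail u, ← Fin.cons_self_tail v, hu.2, hv.2]
          have huv' : u 0 = v 0 := huv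
          rw [huv']
      have b4 : P2.card ≤ c2 * q ^ x := by
        rcases Nat.eq_zero_or_pos x with hx0 | hx0
        · subst hx0
          obtain ⟨F, hF1, hF2, -, hF4⟩ := key ∅ rfl
          rw [Finset.coe_empty, supported_empty, Algebra.mem_bot] at hF1
          obtain ⟨c, rfl⟩ := hF1
          have h1 : P2.image Fin.tail = ∅ := by
            rw [Finset.eq_empty_iff_forall_notMem]
            intro b hb
            have h2 := hF4 b hb
            rw [algebraMap_eq, eval_C] at h2
            rw [h2, map_zero] at hF2
            exact hF2 rfl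
          rw [h1, Finset.card_empty, mul_zero] at b3
          omega
        · have h1 := hc2 k G q hG (P2.image Fin.tail) (by
            intro b hb i
            rw [Finset.mem_image] at hb
            obtain ⟨a, ha, rfl⟩ := hb
            exact hP a (Finset.mem_filter.1 ha).1 _) (by
            intro Z hZc
            exact key Z (by omega))
          calc P2.card ≤ q * (P2.image Fin.tail).card := b3
            _ ≤ q * (c2 * q ^ (x - 1)) := Nat.mul_le_mul_left _ h1
            _ = c2 * (q ^ (x - 1) * q) := by ring
            _ = c2 * q ^ x := by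
              rw [← pow_succ, Nat.sub_add_cancel hx0]
      calc P.card = P1.card + P2.card := hcard
        _ ≤ D * (c1 * q ^ x) + c2 * q ^ x :=
          Nat.add_le_add (b1.trans (Nat.mul_le_mul_left _ b2)) b4
        _ = (D * c1 + c2) * q ^ x := by ring

theorem covering (D r x : ℕ) (hx : x ≤ r) : ∃ c : ℕ, ∀ (k : Type) [Field k] (G : Set k) (q : ℕ),
    G.Finite → G.ncard ≤ q → 1 ≤ q → ∀ P : Set (Fin r → k), (∀ a ∈ P, ∀ i, a i ∈ G) →
    (∀ Z : Finset (Fin r), Z.card = x + 1 → ∃ F ∈ supported k (Z : Set (Fin r)),
      F ≠ 0 ∧ F.totalDegree ≤ D ∧ ∀ a ∈ P, eval a F = 0) →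
    P.Finite ∧ P.ncard ≤ c * q ^ x := by
  classical
  obtain ⟨c, hc⟩ := cov_aux D r x hx
  refine ⟨c, fun k _ G q hGf hG _ P hP hZ => ?_⟩
  have hPf : P.Finite := by
    refine (Set.Finite.pi' (fun _ : Fin r => hGf)).subset ?_
    intro a ha i
    exact hP a ha i
  refine ⟨hPf, ?_⟩
  rw [Set.ncard_eq_toFinset_card P hPf]
  refine hc k hGf.toFinset q ?_ _ ?_ ?_
  · rwa [← Set.ncard_eq_toFinset_card G hGf]
  · intro a ha i
    rw [Set.Finite.mem_toFinset] at ha ⊢
    exact hP a ha i
  · intro Z hZc
    obtain ⟨F, h1, h2, h3, h4⟩ := hZ Z hZc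
    exact ⟨F, h1, h2, h3, fun a ha => h4 a ((Set.Finite.mem_toFinset hPf).1 ha)⟩

end NF44
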