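import Mathlib

/-!
# Number fields of given degree and bounded discriminant (MP_44a56e_nt): definitions
-/

set_option autoImplicit false

open MvPolynomial Module NumberField

namespace NF44

/-- Subfields of the complex numbers. -/
abbrev SF : Type := IntermediateField ℚ ℂ

/-- The ring of all algebraic integers in `ℂ`. -/
abbrev Zb : Type := integralClosure ℤ ℂ

/-- The polynomial ring in `r` variables over `ℚ`. -/
abbrev PR (r : ℕ) : Type := MvPolynomial (Fin r) ℚ

/-- The field generated by a tuple of algebraic integers. -/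
noncomputable def Kf {r : ℕ} (α : Fin r → Zb) : SF :=
  IntermediateField.adjoin ℚ (Set.range fun i => (α i : ℂ))

/-- The polynomials vanishing at the point `α`. -/
noncomputable def Mi {r : ℕ} (α : Fin r → Zb) : Ideal (PR r) :=
  RingHom.ker (aeval (fun i => (α i : ℂ)) : PR r →ₐ[ℚ] ℂ)

theorem mem_Mi {r : ℕ} (α : Fin r → Zb) (Q : PR r) :
    Q ∈ Mi α ↔ aeval (fun i => (α i : ℂ)) Q = 0 := Iff.rfl

/-- The set of tuples `α` of algebraic integers generating a field of degree `n` all of whose
conjugates have absolute value at most `S` and which are not a zero of a nonzero polynomial of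
degree at most `r` with rational coefficients. -/
def TS (n r S : ℕ) : Set (Fin r → Zb) :=
  {α | finrank ℚ (Kf α) = n ∧
    (∀ i, ∀ w : ℂ, Polynomial.aeval w (minpoly ℚ (α i : ℂ)) = 0 → ‖w‖ ≤ S) ∧
    ∀ Q : PR r, Q.totalDegree ≤ r → Q ∈ Mi α → Q = 0}

/-- The Hilbert function of the affine algebra `ℚ[x] / P`. -/
noncomputable def hil {r : ℕ} (P : Ideal (PR r)) (j : ℕ) : ℕ :=
  finrank ℚ ((restrictTotalDegree (Fin r) ℚ j).map (Ideal.Quotient.mkₐ ℚ P).toLinearMap)

/-- The variables in `Z` are algebraically independent modulo `P`. -/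
def Ind {r : ℕ} (P : Ideal (PR r)) (Z : Finset (Fin r)) : Prop :=
  ∀ G ∈ supported ℚ (Z : Set (Fin r)), G ∈ P → G = 0

/-- There is a nontrivial relation of degree at most `D` modulo `P` between the variables in
`Z`. -/
def Dep {r : ℕ} (P : Ideal (PR r)) (Z : Finset (Fin r)) (D : ℕ) : Prop :=
  ∃ G ∈ supported ℚ (Z : Set (Fin r)), G ≠ 0 ∧ G ∈ P ∧ G.totalDegree ≤ D

/-- `P` has dimension `x` and any `x + 1` variables satisfy a nontrivial relation of degree at
most `D` modulo `P`. -/
def Good {r : ℕ} (P : Ideal (PR r)) (x D : ℕ) : Prop :=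
  (∃ Y : Finset (Fin r), Y.card = x ∧ Ind P Y) ∧
    ∀ Z : Finset (Fin r), Z.card = x + 1 → Dep P Z D

/-- The exponents of the monomials in `r` variables of degree at most `j`. -/
noncomputable def mon (r j : ℕ) : Finset (Fin r →₀ ℕ) :=
  (Finset.range (j + 1)).biUnion fun d => Finset.univ.finsuppAntidiag d

theorem mem_mon {r j : ℕ} {I : Fin r →₀ ℕ} : I ∈ mon r j ↔ I.degree ≤ j := by
  simp only [mon, Finset.mem_biUnion, Finset.mem_range, Finset.mem_finsuppAntidiag,
    Finset.subset_univ, and_true, exists_eq_right', Finsupp.degree_eq_sum]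
  exact Nat.lt_succ_iff

/-- The number of variables used in degree `n`. -/
def rn (n : ℕ) : ℕ := Nat.findGreatest (fun r => (2 * r).choose r ≤ n) n

/-- The degree of the auxiliary polynomials. -/
def KK (r : ℕ) : ℕ := 256 * r

/-- A binary logarithm of `r + 1`. -/
def ll (r : ℕ) : ℕ := Nat.clog 2 (r + 1)

/-- The order of vanishing in dimension `x`. -/
def bb (r x : ℕ) : ℕ := x / ll r + 1

/-- The total residue degree needed in dimension `x`. -/
def tau (n r x : ℕ) : ℕ := KK r * n / bb r x + 1

/-- The exponent for the classes of dimension `x` and total residue degree `L`. -/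
def FF (n r x L : ℕ) : ℕ := ∑ y ∈ Finset.Icc 1 x, (tau n r y + n - L)

theorem exists_MM (p : ℕ) : ∃ M : Ideal Zb, M.IsMaximal ∧ (p.Prime → (p : Zb) ∈ M) := by
  by_cases hp : p.Prime
  · have h : Ideal.span {(p : Zb)} ≠ ⊤ := by
      rw [Ne, Ideal.span_singleton_eq_top]
      intro hu
      obtain ⟨y, hy⟩ := hu.exists_right_inv
      have h1 : (p : ℂ) * (y : ℂ) = 1 := by
        have := congrArg (fun z : Zb => (z : ℂ)) hy
        simpa using this
      have hp0 : (p : ℂ) ≠ 0 := by exact_mod_cast hp.ne_zero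
      have h2 : (y : ℂ) = algebraMap ℚ ℂ ((p : ℚ)⁻¹) := by
        rw [eq_ratCast]
        push_cast
        field_simp
        rw [mul_comm]; exact h1
      have h3 : IsIntegral ℤ ((p : ℚ)⁻¹) := by
        have h4 : IsIntegral ℤ (y : ℂ) := y.2
        rw [h2] at h4
        exact (isIntegral_algebraMap_iff (algebraMap ℚ ℂ).injective).1 h4
      obtain ⟨z, hz⟩ := IsIntegrallyClosed.isIntegral_iff.1 h3
      have h5 : (z : ℚ) * p = 1 := by
        have h8 : (z : ℚ) = (p : ℚ)⁻¹ := by simpa using hz
        have h9 : (p : ℚ) ≠ 0 := by exact_mod_cast hp.ne_zero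
        rw [h8, inv_mul_cancel₀ h9]
      have h6 : z * (p : ℤ) = 1 := by exact_mod_cast h5
      have h7 : z.natAbs * p = 1 := by
        have := Int.natAbs_mul z p
        rw [h6] at this
        simpa using this.symm
      exact hp.one_lt.ne' (Nat.eq_one_of_mul_eq_one_left h7)
    obtain ⟨M, hM, hle⟩ := Ideal.exists_le_maximal _ h
    exact ⟨M, hM, fun _ => hle (Ideal.mem_span_singleton_self _)⟩
  · obtain ⟨M, hM⟩ := Ideal.exists_maximal Zb
    exact ⟨M, hM, fun h => absurd h hp⟩

/-- A maximal ideal of the ring of algebraic integers containing `p` (if `p` is prime). -/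
noncomputable def MM (p : ℕ) : Ideal Zb := (exists_MM p).choose

instance (p : ℕ) : (MM p).IsMaximal := (exists_MM p).choose_spec.1

/-- The residue field of `MM p`. -/
def kap (p : ℕ) : Type := Zb ⧸ MM p

noncomputable instance (p : ℕ) : Field (kap p) := Ideal.Quotient.field (MM p)

/-- The reduction modulo `MM p`. -/
noncomputable def red (p : ℕ) : Zb →+* kap p := Ideal.Quotient.mk (MM p)

theorem red_surjective (p : ℕ) : Function.Surjective (red p) := Ideal.Quotient.mk_surjective

theorem red_eq_zero (p : ℕ) (x : Zb) : red p x = 0 ↔ x ∈ MM p := Ideal.Quotient.eq_zero_iff_mem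

theorem red_p {p : ℕ} (hp : p.Prime) : ((p : ℕ) : kap p) = 0 := by
  have := (red_eq_zero p (p : Zb)).2 ((exists_MM p).choose_spec.2 hp)
  simpa using this

/-- The inclusion of the ring of integers of `K` in the ring of all algebraic integers. -/
noncomputable def oz (K : SF) : 𝓞 K →+* Zb :=
  ((algebraMap K ℂ).comp (algebraMap (𝓞 K) K)).codRestrict (integralClosure ℤ ℂ) (by
    intro x
    have h1 : IsIntegral ℤ (x : K) := x.2
    exact (isIntegral_algebraMap_iff (A := K) (B := ℂ) (algebraMap K ℂ).injective).2 h1)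

theorem oz_apply (K : SF) (x : 𝓞 K) : ((oz K x : Zb) : ℂ) = ((x : K) : ℂ) := rfl

/-- The residue field of `K` at the prime below `MM p`, inside the residue field of `MM p`. -/
noncomputable def rr (K : SF) (p : ℕ) : Subring (kap p) := ((red p).comp (oz K)).range

/-- The prime of `K` below `MM p`. -/
noncomputable def PP (K : SF) (p : ℕ) : Ideal (𝓞 K) := RingHom.ker ((red p).comp (oz K))

/-- The residue degree of the prime of `K` below `MM p`. -/
noncomputable def fd (K : SF) (p : ℕ) : ℕ := Nat.log p (Nat.card (rr K p))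

/-- The class of `α` at `p`. -/
noncomputable def cls {r : ℕ} (p : ℕ) (α : Fin r → Zb) : ℕ × (Fin r → kap p) :=
  (fd (Kf α) p, fun i => red p (α i))

/-- The coordinates of `α` as integers of the field generated by them. -/
noncomputable def aO {r : ℕ} (α : Fin r → Zb) (i : Fin r) : 𝓞 (Kf α) :=
  ⟨⟨(α i : ℂ), IntermediateField.subset_adjoin ℚ _ ⟨i, rfl⟩⟩, by
    have h1 : IsIntegral ℤ (α i : ℂ) := (α i).2
    exact (isIntegral_algebraMap_iff (A := Kf α) (B := ℂ) (algebraMap (Kf α) ℂ).injective).1 h1⟩

theorem oz_aO {r : ℕ} (α : Fin r → Zb) (i : Fin r) : oz (Kf α) (aO α i) = α i := rfl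

end NF44
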