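import Pool.Agent.Lib.NF44.Defs

/-!
# Number fields of given degree and bounded discriminant (MP_44a56e_nt): more definitions
-/

set_option autoImplicit false

open MvPolynomial Module NumberField

namespace NF44

/-- The dimension of the graded piece of value `γ` of the space `W`. -/
noncomputable def grd {L : Type} [Field L] [Algebra ℚ L] (V : ValuationSubring L)
    (W : Submodule ℚ L) (γ : V.ValueGroup) : ℕ :=
  finrank ℚ (Submodule.span ℚ {w : L | w ∈ W ∧ V.valuation w ≤ γ}) -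
    finrank ℚ (Submodule.span ℚ {w : L | w ∈ W ∧ V.valuation w < γ})

/-- The bound for the number of elements of `TS n r S` in a class of dimension `x` whose total
residue degree `L` satisfies `tau n r x ≤ L + d`. -/
def Bd (n r x D d : ℕ) : Prop :=
  ∃ C S0 : ℕ, 1 ≤ S0 ∧ ∀ S : ℕ, S0 ≤ S → ∀ p : ℕ → ℕ, (∀ i, (p i).Prime) →
    Function.Injective p → (∀ i, S ≤ p i ∧ p i ≤ 2 ^ (i + 1) * S) →
    ∀ P : Ideal (PR r), P.IsPrime → Good P x D → ∀ m L : ℕ,
    ∀ c : (i : ℕ) → ℕ × (Fin r → kap (p i)), ∑ i ∈ Finset.range m, (c i).1 = L →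
    tau n r x ≤ L + d → ∀ T ⊆ TS n r S, (∀ α ∈ T, P ≤ Mi α ∧ ∀ i < m, cls (p i) α = c i) →
    T.Finite ∧ T.ncard ≤ C * S ^ FF n r x L

end NF44
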