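import Pool.Agent.Lib.NF44.HilUp

/-!
MP_44a56e_nt, module DepBd (about 120 lines): bounded relations.

PROOF of `good_of_ind`. `y = |Y| ≤ r`, `M = 1 + r D`. `hil P j ≤ (D+1)^r choose (y + M j) y` (`hil_up`), and `choose (y + M j) y ≤ M^y choose (y + j) y`
(`y! choose (y+m) y = ∏_{i=1}^y (m + i)`, `M j + i ≤ M (j + i)`; `Nat.ascFactorial`, or induction on `y`). If `Z` has `y + 1` elements and no relation of degree `≤ j` then `hil_ge` gives
`choose (y + 1 + j) (y + 1) ≤ hil P j`, and `(y+1) choose (y+1+j) (y+1) = (y+1+j) choose (y+j) y`. So `(y + 1 + j) ≤ (y+1) (D+1)^r M^y`. Take `D' = j = (r+1) (D+1)^r M^r`.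
`dep_add`. Let `P` be `Good P x D`, with `Y`, `|Y| = x`, and `Dep P (insert z Y) D` for `z ∉ Y` (`|insert z Y| = x+1`), so `hil_up` applies. We may replace `K` by `K + 1` (so `K ≥ 1`). Claim: there is a bound `D'` (depending on `r, x, D, K`) and for each `P`
some `j` with `K ≤ j ≤ D'` and `hil P j < hil P (j - K) + choose (x + j) x`. Otherwise for all `i ≤ m`: `hil P (i K) ≥ ∑_{1≤k≤i} choose (x + kK) x ≥ ∑_{1 ≤ k ≤ i} choose (x+k) x = choose (x+1+i) (x+1) - 1`
(hockey stick), while `hil P (mK) ≤ (D+1)^r choose (x + M K m) x ≤ (D+1)^r (MK)^x choose (x+m) x`; for `m = (x+1)((D+1)^r (MK)^x + 1)` contradiction. `D' = m K`.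
Given `Z` with `|Z| = x`. If some nonzero `G ∈ ℚ[Z]` of degree `≤ j` is in `P` done. Otherwise `ℚ[Z]_{≤j}` embeds in `R_j` (dimension `choose (x+j) x`, `finrank_sup` of Mon) and `Q R_(j-K)` is a subspace of `R_j` of dimension
`hil P (j-K)` (`Q ≠ 0` in the domain `R`); by the dimension count in `R_j` they have a common nonzero element
(`Submodule.finrank_sup_add_finrank_inf_eq`): `G ∈ ℚ[Z]`, `G ≠ 0`, `deg ≤ j`, `G ∈ P ⊔ (Q)`.
-/

set_option autoImplicit false

open MvPolynomial Module NumberField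

namespace NF44

theorem good_of_ind (r D : ℕ) : ∃ D' : ℕ, ∀ P : Ideal (PR r), P.IsPrime →
    ∀ Y : Finset (Fin r), Ind P Y → (∀ z ∉ Y, Dep P (insert z Y) D) → Good P Y.card D' := by
  sorry

theorem dep_add (r x D K : ℕ) : ∃ D' : ℕ, ∀ P : Ideal (PR r), P.IsPrime → Good P x D →
    ∀ Q : PR r, Q ∉ P → Q.totalDegree ≤ K → ∀ Z : Finset (Fin r), Z.card = x →
      Dep (P ⊔ Ideal.span {Q}) Z D' := by
  sorry

end NF44
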