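import Pool.Agent.Lib.NF44.Num1

/-!
MP_44a56e_nt, module Num3 (about 150 lines): the exponent.

PROOF of `expo`. Put `r = rn n`, so `1 ≤ r`, `2^r ≤ n`, i.e. `r ≤ log n / log 2 ≤ 2 log n`. `l = ll r`:
`2^(l-1) < r + 1`, so `l ≤ 1 + log (r+1) / log 2 ≤ 1 + 2 log (r + 1)`. For `1 ≤ x`: `bb r x = x/l+1 ≥ x / l` as a real
number (`x < l (x/l + 1)`), so `tau n r x ≤ 256 r n l / x + 1`. So
`FF n r r 0 ≤ ∑_{x=1}^r (256 r n l / x + 1 + n) ≤ 256 r n l (1 + log r) + r (n + 1)` (harmonic numbers: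
`harmonic_le_one_add_log`). Multiply by `2/n`, `1 + n ≤ 2 n`: `≤ 512 r l (1 + log r) + 4 r`.
With `M = 1 + log (1 + log n) `: `log (r+1) ≤ log (2 log n + 1) ≤ log 2 + log (1 + log n) ≤ M`, so `l ≤ 1 + 2 M`,
`1 + log r ≤ 1 + M`. `M ≥ 1 + log (1 + log 2) ≥ 1`. So everything is `≤ C r M^2 ≤ 2 C log n M^2`.
-/

set_option autoImplicit false

open MvPolynomial Module NumberField

namespace NF44

private theorem ll_le (r : ℕ) (hr : 1 ≤ r) :
    0 < ll r ∧ (ll r : ℝ) ≤ 1 + 2 * Real.log ((r : ℝ) + 1) := by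
  have h0 : 0 < ll r := Nat.clog_pos (by norm_num) (by omega)
  refine ⟨h0, ?_⟩
  have h1 : 2 ^ (ll r - 1) < r + 1 :=
    Nat.pow_pred_clog_lt_self (b := 2) (by norm_num) (x := r + 1) (by omega)
  have h2 : (2 : ℝ) ^ (ll r - 1) ≤ (r : ℝ) + 1 := by exact_mod_cast h1.le
  have h3 := Real.log_le_log (by positivity) h2
  rw [Real.log_pow, Nat.cast_sub h0, Nat.cast_one] at h3
  have h4 := Real.log_two_gt_d9
  have h5 : (0 : ℝ) ≤ (ll r : ℝ) - 1 := by
    have : (1 : ℝ) ≤ (ll r : ℝ) := by exact_mod_cast h0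
    linarith
  nlinarith

private theorem tau_le (n r x : ℕ) (hr : 1 ≤ r) (hx : 1 ≤ x) :
    (tau n r x : ℝ) ≤ 256 * r * n * ll r * ((x : ℝ))⁻¹ + 1 := by
  obtain ⟨hl, -⟩ := ll_le r hr
  unfold tau
  have h1 : ((KK r * n / bb r x : ℕ) : ℝ) ≤ ((KK r * n : ℕ) : ℝ) / (bb r x : ℝ) :=
    Nat.cast_div_le
  have h2 : x < ll r * bb r x := by
    unfold bb
    have h := Nat.div_add_mod x (ll r)
    have h' := Nat.mod_lt x hl
    nlinarith
  have hx' : (0 : ℝ) < (x : ℝ) := by exact_mod_cast hx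
  have hb : (0 : ℝ) < (bb r x : ℝ) := by
    have : 0 < bb r x := by
      unfold bb
      exact Nat.succ_pos _
    exact_mod_cast this
  have h2' : (x : ℝ) ≤ (ll r : ℝ) * (bb r x : ℝ) := by exact_mod_cast h2.le
  have h3 : ((KK r * n : ℕ) : ℝ) / (bb r x : ℝ) ≤ 256 * r * n * ll r * ((x : ℝ))⁻¹ := by
    unfold KK
    push_cast
    rw [← div_eq_mul_inv, div_le_div_iff₀ hb hx']
    have h4 : (0 : ℝ) ≤ 256 * r * n := by positivity
    have h5 := mul_le_mul_of_nonneg_left h2' h4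
    calc (256 : ℝ) * r * n * x ≤ 256 * r * n * ((ll r : ℝ) * (bb r x : ℝ)) := h5
      _ = 256 * r * n * ll r * bb r x := by ring
  push_cast
  push_cast at h1 h3
  linarith

private theorem FF_le (n r : ℕ) (hr : 1 ≤ r) :
    (FF n r r 0 : ℝ) ≤ 256 * r * n * ll r * (1 + Real.log r) + r * ((n : ℝ) + 1) := by
  have hh := harmonic_le_one_add_log r
  rw [harmonic_eq_sum_Icc] at hh
  push_cast at hh
  have h1 : (FF n r r 0 : ℝ) = ∑ y ∈ Finset.Icc 1 r, ((tau n r y : ℝ) + n) := by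
    unfold FF
    push_cast
    refine Finset.sum_congr rfl (fun y _ => ?_)
    rw [Nat.sub_zero]
    push_cast
    rfl
  rw [h1]
  have h2 : ∑ y ∈ Finset.Icc 1 r, ((tau n r y : ℝ) + n) ≤
      ∑ y ∈ Finset.Icc 1 r, (256 * r * n * ll r * ((y : ℝ))⁻¹ + ((n : ℝ) + 1)) := by
    refine Finset.sum_le_sum (fun y hy => ?_)
    have h3 := tau_le n r y hr (Finset.mem_Icc.1 hy).1
    linarith
  refine le_trans h2 ?_
  rw [Finset.sum_add_distrib, ← Finset.mul_sum, Finset.sum_const, Nat.card_Icc, nsmul_eq_mul,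
    Nat.add_sub_cancel]
  have h4 : (0 : ℝ) ≤ 256 * r * n * ll r := by positivity
  have h5 := mul_le_mul_of_nonneg_left hh h4
  linarith

theorem expo : ∃ C : ℝ, 0 < C ∧ ∀ n : ℕ, 2 ≤ n →
    2 / (n : ℝ) * FF n (rn n) (rn n) 0 ≤
      C * Real.log n * (1 + Real.log (1 + Real.log n)) ^ 2 := by
  refine ⟨6152, by norm_num, ?_⟩
  intro n hn
  obtain ⟨hr1, -, -, hr2⟩ := rn_spec n hn
  set r := rn n with hr
  have hn0 : (0 : ℝ) < (n : ℝ) := by
    have : 0 < n := by omega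
    exact_mod_cast this
  have hn1 : (2 : ℝ) ≤ (n : ℝ) := by exact_mod_cast hn
  have hr0 : (1 : ℝ) ≤ (r : ℝ) := by exact_mod_cast hr1
  have hl2 := Real.log_two_gt_d9
  have hl2' := Real.log_two_lt_d9
  have h1 : (r : ℝ) ≤ 2 * Real.log n := by
    have h2 : (2 : ℝ) ^ r ≤ (n : ℝ) := by exact_mod_cast hr2
    have h3 := Real.log_le_log (by positivity) h2
    rw [Real.log_pow] at h3
    nlinarith
  have hL : 0 ≤ Real.log n := Real.log_nonneg (by linarith)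
  set M : ℝ := 1 + Real.log (1 + Real.log n) with hM
  have hM1 : 1 ≤ M := by
    have := Real.log_nonneg (show (1 : ℝ) ≤ 1 + Real.log n by linarith)
    linarith
  have h4 : Real.log ((r : ℝ) + 1) ≤ M := by
    have h5 : (r : ℝ) + 1 ≤ 2 * (1 + Real.log n) := by linarith
    have h6 := Real.log_le_log (by linarith) h5
    rw [Real.log_mul (by norm_num) (by linarith)] at h6
    linarith
  have h7 : Real.log (r : ℝ) ≤ M :=
    le_trans (Real.log_le_log (by linarith) (by linarith)) h4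
  have h7' : 0 ≤ Real.log (r : ℝ) := Real.log_nonneg hr0
  obtain ⟨hl0, hl1⟩ := ll_le r hr1
  have h8 : (ll r : ℝ) ≤ 3 * M := by linarith
  have h9 : 1 + Real.log (r : ℝ) ≤ 2 * M := by linarith
  have h10 := FF_le n r hr1
  have h11 : (0 : ℝ) ≤ 2 / (n : ℝ) := by positivity
  have h12 := mul_le_mul_of_nonneg_left h10 h11
  refine le_trans h12 ?_
  have h13 : 2 / (n : ℝ) * (256 * r * n * ll r * (1 + Real.log r) + r * ((n : ℝ) + 1)) =
      512 * r * (ll r * (1 + Real.log r)) + 2 * r * (1 + 1 / (n : ℝ)) := by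
    field_simp
    ring
  rw [h13]
  have h14 : 1 / (n : ℝ) ≤ 1 := by
    rw [div_le_one hn0]
    linarith
  have h15 : (ll r : ℝ) * (1 + Real.log r) ≤ 3 * M * (2 * M) :=
    mul_le_mul h8 h9 (by linarith) (by linarith)
  have h16 : 512 * (r : ℝ) * (ll r * (1 + Real.log r)) ≤ 512 * r * (3 * M * (2 * M)) :=
    mul_le_mul_of_nonneg_left h15 (by linarith)
  have h17 : 2 * (r : ℝ) * (1 + 1 / (n : ℝ)) ≤ 4 * r * M ^ 2 := by
    have h18 : (1 : ℝ) ≤ M ^ 2 := one_le_pow₀ hM1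
    have h19 : 2 * (r : ℝ) * (1 + 1 / (n : ℝ)) ≤ 4 * r * 1 := by nlinarith
    have h20 : 4 * (r : ℝ) * 1 ≤ 4 * r * M ^ 2 := mul_le_mul_of_nonneg_left h18 (by linarith)
    linarith
  have h21 : 512 * (r : ℝ) * (3 * M * (2 * M)) + 4 * r * M ^ 2 = 3076 * r * M ^ 2 := by ring
  have h22 : 3076 * (r : ℝ) * M ^ 2 ≤ 3076 * (2 * Real.log n) * M ^ 2 := by
    have : 0 ≤ M ^ 2 := by positivity
    nlinarith
  linarith

end NF44
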