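import Pool.Agent.Lib.NF44.Defs

/-!
MP_44a56e_nt, module Num1 (about 120 lines): elementary properties of the parameters.

PROOFS. `rn_spec`: `Nat.findGreatest_spec` with `1` (`choose 2 1 = 2 ≤ n`), so `(2r choose r) ≤ n`, `1 ≤ r`;
`2 ^ r ≤ (2r choose r)` (e.g. from `Nat.four_pow_le_two_mul_self_mul_centralBinom` or by induction; for
`r ≥ 1`, `centralBinom (r+1) ≥ 2 centralBinom r`), hence `r < n` and `r + 1 ≤ n`, and by maximality
(`Nat.findGreatest_is_greatest`) `n < (2(r+1) choose (r+1))`; `Nat.succ_mul_centralBinom_succ`: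
`(r+1) centralBinom (r+1) = 2 (2r+1) centralBinom r < 4 (r+1) centralBinom r`.
`tau_anti`: `bb` is monotone in `x`. `key_lt`: `L ≥ ⌊K n / b⌋ + 1`, so `L b > K n` (`Nat.lt_div_mul_add` /
`Nat.div_add_mod`). `FF_step`: for `y ≤ x`, `tau y ≥ tau x > L`, so the term `tau y + n - (L + f)` is
`(tau y + n - L) - f` without truncation; the sum over `Icc 1 x` changes by `x f`. `FF_mono`: subset.
-/

set_option autoImplicit false

open MvPolynomial Module NumberField

namespace NF44

theorem two_pow_le_central (r : ℕ) : 2 ^ r ≤ (2 * r).choose r := by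
  induction r with
  | zero => simp
  | succ r ih =>
    have h := Nat.succ_mul_centralBinom_succ r
    rw [Nat.centralBinom_eq_two_mul_choose, Nat.centralBinom_eq_two_mul_choose] at h
    have h2 : (r + 1) * (2 * (2 * r).choose r) ≤ (r + 1) * (2 * (r + 1)).choose (r + 1) := by
      rw [h]
      nlinarith [Nat.zero_le ((2 * r).choose r), Nat.zero_le (r * (2 * r).choose r)]
    have h3 := Nat.le_of_mul_le_mul_left h2 (Nat.succ_pos r)
    rw [pow_succ]
    omega

theorem rn_spec (n : ℕ) (hn : 2 ≤ n) :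
    1 ≤ rn n ∧ (2 * rn n).choose (rn n) ≤ n ∧ n < 4 * (2 * rn n).choose (rn n) ∧
      2 ^ rn n ≤ n := by
  have h1 : (2 * rn n).choose (rn n) ≤ n :=
    Nat.findGreatest_spec (P := fun r => (2 * r).choose r ≤ n) (m := 1) (by omega)
      (by simpa using hn)
  have h2 : 1 ≤ rn n :=
    Nat.le_findGreatest (P := fun r => (2 * r).choose r ≤ n) (by omega) (by simpa using hn)
  have h4 : 2 ^ rn n ≤ n := (two_pow_le_central _).trans h1
  refine ⟨h2, h1, ?_, h4⟩
  have h5 : rn n < n := lt_of_lt_of_le Nat.lt_two_pow_self h4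
  have h6 : n < (2 * (rn n + 1)).choose (rn n + 1) := by
    by_contra hcon
    have h7 := Nat.findGreatest_is_greatest (P := fun r => (2 * r).choose r ≤ n) (n := n)
      (k := rn n + 1) (Nat.lt_succ_self _) (by omega)
    exact h7 (not_lt.1 hcon)
  have h := Nat.succ_mul_centralBinom_succ (rn n)
  rw [Nat.centralBinom_eq_two_mul_choose, Nat.centralBinom_eq_two_mul_choose] at h
  have h8 : (rn n + 1) * n < (rn n + 1) * (4 * (2 * rn n).choose (rn n)) := by
    calc (rn n + 1) * n < (rn n + 1) * (2 * (rn n + 1)).choose (rn n + 1) :=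
          Nat.mul_lt_mul_of_pos_left h6 (Nat.succ_pos _)
      _ = 2 * (2 * rn n + 1) * (2 * rn n).choose (rn n) := h
      _ ≤ (rn n + 1) * (4 * (2 * rn n).choose (rn n)) := by
          nlinarith [Nat.zero_le ((2 * rn n).choose (rn n))]
  exact Nat.lt_of_mul_lt_mul_left h8

theorem bb_mono (r : ℕ) {x y : ℕ} (h : y ≤ x) : bb r y ≤ bb r x := by
  unfold bb
  exact Nat.add_le_add_right (Nat.div_le_div_right h) 1

theorem tau_anti (n r : ℕ) {x y : ℕ} (h : y ≤ x) : tau n r x ≤ tau n r y := by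
  unfold tau
  exact Nat.add_le_add_right (Nat.div_le_div_left (bb_mono r h) (Nat.succ_pos _)) 1

theorem key_lt (n r x L : ℕ) (h : tau n r x ≤ L) : KK r * n < L * bb r x := by
  have hb : 0 < bb r x := Nat.succ_pos _
  unfold tau at h
  have h1 : KK r * n / bb r x < L := by omega
  exact (Nat.div_lt_iff_lt_mul hb).1 h1

theorem FF_step (n r x L f : ℕ) (hL : L < tau n r x) (hf : f ≤ n) :
    FF n r x (L + f) + x * f = FF n r x L := by
  unfold FF
  have h1 : x * f = ∑ _y ∈ Finset.Icc 1 x, f := by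
    rw [Finset.sum_const, Nat.card_Icc, smul_eq_mul]
    simp
  rw [h1, ← Finset.sum_add_distrib]
  refine Finset.sum_congr rfl ?_
  intro y hy
  rw [Finset.mem_Icc] at hy
  have h2 := tau_anti n r hy.2
  omega

theorem FF_mono (n r L : ℕ) {x y : ℕ} (h : x ≤ y) : FF n r x L ≤ FF n r y L := by
  unfold FF
  exact Finset.sum_le_sum_of_subset (Finset.Icc_subset_Icc_right h)

end NF44
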