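import Pool.Agent.Lib.NF44.Pts

/-!
MP_44a56e_nt, module Tuple (about 250 lines): nondegenerate tuples.

PROOF of `tuple`. `N0 = (2r choose r) = card (mon r r) ≤ n` (`card_mon`), `e : Fin N0 ≃ mon r r`. Number the embeddings
`σ_t : K →ₐ[ℚ] ℂ`, `t : Fin n` (`Fintype.card = n`, `AlgHom.card`). Work in `MvPolynomial (Fin r × Fin n) ℂ`; put
`A t i = ∑_j σ_t(v_j) X_(i,j)`. `G = det (∏_i A t i ^ (e_I i))_{t, I < N0} * ∏_{s<t} (A s 0 - A t 0)` (`0 : Fin r`, `r ≥ 1`).
The degrees are at most `N1 = N0 r + n^2`-ish, independent of `K, v`: `N = N0 * r + n * n` bounds `degreeOf`/`totalDegree`.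
`G ≠ 0`: the matrix `(σ_t v_j)` is invertible (`v` is a basis of `K`: `Algebra.discr_not_zero_of_basis` or linear
independence of characters), so `c ↦ (A t i (c))` is onto `ℂ^(n x r)`; choose a preimage of the points of `exists_points`: the
first factor is `≠ 0` there; the factors `A s 0 - A t 0` are nonzero linear forms (rows `s ≠ t` of an invertible matrix differ).
So (`MvPolynomial.eq_zero_of_eval_zero_at_prod_finset` in Combinatorics/Nullstellensatz, with the grid `{0..N}`) there is
`c ∈ {0..N}` with `G(c) ≠ 0`. Put `a_i = ∑ c_ij v_j`. If `Q(a) = 0`, `deg Q ≤ r`, `Q` rational, then `∑_I q_I ∏ σ_t(a_i)^(I_i) = 0` for all `t`, so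
`q = 0` by the nonzero determinant. `σ_s(a_0) ≠ σ_t(a_0)` for `s ≠ t`: the minimal polynomial of `a_0` has `n` distinct
roots, so `ℚ(a_0) = K` (`Field.primitive_element_iff_algHom_eq_of_eval` or by degree); so the field generated by the `a_i` inside `ℂ` is `K`.
-/

set_option autoImplicit false

open MvPolynomial Module NumberField

namespace NF44

private theorem tp_det_deg {τ : Type*} {N d : ℕ}
    (M : Matrix (Fin N) (Fin N) (MvPolynomial τ ℂ)) (h : ∀ i j, (M i j).totalDegree ≤ d) :
    M.det.totalDegree ≤ N * d := by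
  classical
  rw [Matrix.det_apply']
  refine totalDegree_finsetSum_le fun p _ => ?_
  refine (totalDegree_mul _ _).trans ?_
  have h1 : ((((Equiv.Perm.sign p : ℤˣ) : ℤ) : MvPolynomial τ ℂ)).totalDegree = 0 := by
    have h2 : ((((Equiv.Perm.sign p : ℤˣ) : ℤ) : MvPolynomial τ ℂ)) =
        C (((Equiv.Perm.sign p : ℤˣ) : ℤ) : ℂ) := by
      rw [map_intCast]
    rw [h2, totalDegree_C]
  rw [h1, zero_add]
  refine (totalDegree_finsetProd _ _).trans ?_
  refine (Finset.sum_le_sum fun i _ => h (p i) i).trans ?_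
  rw [Finset.sum_const, Finset.card_univ, Fintype.card_fin, smul_eq_mul]

private theorem tp_grid {n r N0 : ℕ} (h0 : N0 ≤ n) (i0 : Fin r) (e : Fin N0 → (Fin r →₀ ℕ))
    (he : Function.Injective e) (hd : ∀ I, (e I).degree ≤ r) (V : Matrix (Fin n) (Fin n) ℂ)
    (hV : V.det ≠ 0) : ∃ c : Fin r → Fin n → ℕ, (∀ i j, c i j ≤ N0 * r + n * n) ∧
      (Matrix.of fun t I : Fin N0 =>
        ∏ i, (∑ j, V (Fin.castLE h0 t) j * (c i j : ℂ)) ^ e I i).det ≠ 0 ∧
      ∀ s t : Fin n, s ≠ t → ∑ j, V s j * (c i0 j : ℂ) ≠ ∑ j, V t j * (c i0 j : ℂ) := by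
  classical
  let A : Fin n → Fin r → MvPolynomial (Fin r × Fin n) ℂ :=
    fun t i => ∑ j, C (V t j) * X (i, j)
  have hA : ∀ (x : Fin r × Fin n → ℂ) t i, eval x (A t i) = ∑ j, V t j * x (i, j) := by
    intro x t i
    change eval x (∑ j, C (V t j) * X (i, j)) = _
    rw [map_sum]
    exact Finset.sum_congr rfl fun j _ => by rw [map_mul, eval_C, eval_X]
  have hAd : ∀ t i, (A t i).totalDegree ≤ 1 := by
    intro t i
    refine totalDegree_finsetSum_le fun j _ => ?_
    refine (totalDegree_mul _ _).trans ?_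
    rw [totalDegree_C, totalDegree_X]
  let G1 : MvPolynomial (Fin r × Fin n) ℂ :=
    (Matrix.of fun t I : Fin N0 => ∏ i, A (Fin.castLE h0 t) i ^ e I i).det
  let G2 : MvPolynomial (Fin r × Fin n) ℂ :=
    ∏ p ∈ (Finset.univ : Finset (Fin n × Fin n)).filter (fun p => p.1 ≠ p.2),
      (A p.1 i0 - A p.2 i0)
  have e1 : ∀ x : Fin r × Fin n → ℂ, eval x G1 = (Matrix.of fun t I : Fin N0 =>
      ∏ i, (∑ j, V (Fin.castLE h0 t) j * x (i, j)) ^ e I i).det := by
    intro x
    change eval x (Matrix.det _) = _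
    rw [RingHom.map_det]
    congr 1
    ext t I
    change eval x (∏ i, A (Fin.castLE h0 t) i ^ e I i) = _
    rw [map_prod]
    refine Finset.prod_congr rfl fun i _ => ?_
    rw [map_pow, hA]
  have hG1 : G1 ≠ 0 := by
    obtain ⟨P, hP⟩ := exists_points e he
    intro h
    apply hP
    let p : Fin r → Fin n → ℂ := fun i t => if h : t.val < N0 then P ⟨t, h⟩ i else 0
    have h1 := e1 (fun q => (V⁻¹.mulVec (p q.1)) q.2)
    rw [h, map_zero] at h1
    rw [h1]
    congr 1
    ext t I
    change ∏ i : Fin r, P t i ^ e I i = ∏ i : Fin r, _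
    refine Finset.prod_congr rfl fun i _ => ?_
    congr 1
    have h2 : V.mulVec (V⁻¹.mulVec (p i)) = p i := by
      rw [Matrix.mulVec_mulVec, Matrix.mul_nonsing_inv _ (isUnit_iff_ne_zero.2 hV),
        Matrix.one_mulVec]
    have h3 := congrFun h2 (Fin.castLE h0 t)
    have h4 : p i (Fin.castLE h0 t) = P t i := by
      change (if h : (Fin.castLE h0 t).val < N0 then P ⟨(Fin.castLE h0 t).val, h⟩ i else 0) = _
      rw [dif_pos (show (Fin.castLE h0 t).val < N0 from t.2)]
      rfl
    rw [← h4, ← h3]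
    rfl
  have hG2 : G2 ≠ 0 := by
    refine Finset.prod_ne_zero_iff.2 fun p hp h => ?_
    have hne : p.1 ≠ p.2 := (Finset.mem_filter.1 hp).2
    apply hV
    refine Matrix.det_zero_of_row_eq hne ?_
    funext j
    have h1 := congrArg (eval (Pi.single (i0, j) (1 : ℂ))) h
    rw [map_sub, hA, hA, map_zero, sub_eq_zero] at h1
    have h2 : ∀ t : Fin n, ∑ j', V t j' * (Pi.single (i0, j) (1 : ℂ) : Fin r × Fin n → ℂ) (i0, j') =
        V t j := by
      intro t
      rw [Finset.sum_eq_single j]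
      · rw [Pi.single_eq_same, mul_one]
      · intro j' _ hj'
        rw [Pi.single_eq_of_ne (fun h => hj' (congrArg Prod.snd h)), mul_zero]
      · intro h
        exact absurd (Finset.mem_univ j) h
    rw [h2, h2] at h1
    exact h1
  have hG : G1 * G2 ≠ 0 := mul_ne_zero hG1 hG2
  have hdeg : (G1 * G2).totalDegree ≤ N0 * r + n * n := by
    refine (totalDegree_mul _ _).trans (Nat.add_le_add ?_ ?_)
    · refine tp_det_deg _ fun t I => ?_
      change (∏ i, A (Fin.castLE h0 t) i ^ e I i).totalDegree ≤ r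
      refine (totalDegree_finsetProd _ _).trans ?_
      refine le_trans (Finset.sum_le_sum fun i _ => (totalDegree_pow _ _).trans
        (Nat.mul_le_mul_left _ (hAd _ _))) ?_
      refine le_trans (le_of_eq ?_) (hd I)
      rw [Finsupp.degree_eq_sum]
      exact Finset.sum_congr rfl fun i _ => mul_one _
    · refine (totalDegree_finsetProd _ _).trans ?_
      refine (Finset.sum_le_sum (g := fun _ => 1) fun p _ => ?_).trans ?_
      · exact (totalDegree_sub _ _).trans (max_le (hAd _ _) (hAd _ _))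
      · rw [Finset.sum_const, smul_eq_mul, mul_one]
        refine (Finset.card_filter_le _ _).trans ?_
        rw [Finset.card_univ, Fintype.card_prod, Fintype.card_fin]
  obtain ⟨x, hx, hxG⟩ : ∃ x : Fin r × Fin n → ℂ,
      (∀ q, x q ∈ (Finset.range (N0 * r + n * n + 1)).image (Nat.cast : ℕ → ℂ)) ∧
        eval x (G1 * G2) ≠ 0 := by
    by_contra hcon
    push Not at hcon
    apply hG
    refine eq_zero_of_eval_zero_at_prod_finset _
      (fun _ => (Finset.range (N0 * r + n * n + 1)).image (Nat.cast : ℕ → ℂ)) (fun q => ?_)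
      fun x hx => hcon x hx
    rw [Finset.card_image_of_injective _ Nat.cast_injective, Finset.card_range]
    exact Nat.lt_succ_of_le ((degreeOf_le_totalDegree _ _).trans hdeg)
  have hx' : ∀ q, ∃ m : ℕ, m ≤ N0 * r + n * n ∧ (m : ℂ) = x q := by
    intro q
    obtain ⟨m, hm, h⟩ := Finset.mem_image.1 (hx q)
    exact ⟨m, Nat.lt_succ_iff.1 (Finset.mem_range.1 hm), h⟩
  choose c hc1 hc2 using hx'
  rw [map_mul] at hxG
  refine ⟨fun i j => c (i, j), fun i j => hc1 _, ?_, ?_⟩
  · have h1 := left_ne_zero_of_mul hxG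
    rw [e1] at h1
    simp only [← hc2] at h1
    exact h1
  · intro s t hst h
    have h1 := right_ne_zero_of_mul hxG
    apply h1
    change eval x (∏ p ∈ _, _) = 0
    rw [map_prod]
    refine Finset.prod_eq_zero (Finset.mem_filter.2 ⟨Finset.mem_univ (s, t), hst⟩) ?_
    rw [map_sub, hA, hA, sub_eq_zero]
    simp only [← hc2]
    exact h

theorem tuple (n r : ℕ) (hr1 : 1 ≤ r) (hr : (2 * r).choose r ≤ n) : ∃ N : ℕ,
    ∀ K : SF, finrank ℚ K = n → ∀ v : Fin n → K, LinearIndependent ℚ v →
      ∃ c : Fin r → Fin n → ℕ, (∀ i j, c i j ≤ N) ∧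
        (∀ Q : PR r, Q.totalDegree ≤ r → aeval (fun i => ∑ j, (c i j : K) * v j) Q = 0 → Q = 0) ∧
        IntermediateField.adjoin ℚ (Set.range fun i : Fin r =>
          ((∑ j, (c i j : K) * v j : K) : ℂ)) = K := by
  classical
  have hcard : Fintype.card (mon r r) = (2 * r).choose r := by
    rw [Fintype.card_coe, card_mon, two_mul]
  let eqv : Fin ((2 * r).choose r) ≃ mon r r := (Fintype.equivFinOfCardEq hcard).symm
  refine ⟨(2 * r).choose r * r + n * n, fun K hK v hv => ?_⟩
  have hn : 0 < n := lt_of_lt_of_le (Nat.choose_pos (by omega)) hr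
  have hfd : FiniteDimensional ℚ K := FiniteDimensional.of_finrank_pos (by omega)
  have hne : Nonempty (Fin n) := ⟨⟨0, hn⟩⟩
  let b : Module.Basis (Fin n) ℚ K :=
    basisOfLinearIndependentOfCardEqFinrank hv (by rw [Fintype.card_fin, hK])
  have hb : ⇑b = v := coe_basisOfLinearIndependentOfCardEqFinrank hv _
  have hc : Fintype.card (Fin n) = Fintype.card (K →ₐ[ℚ] ℂ) := by
    rw [AlgHom.card, hK, Fintype.card_fin]
  let ε : Fin n ≃ (K →ₐ[ℚ] ℂ) := Fintype.equivOfCardEq hc
  let V : Matrix (Fin n) (Fin n) ℂ := Matrix.of fun t j => ε t (v j)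
  have hV : V.det ≠ 0 := by
    intro h0
    have h1 := Algebra.discr_eq_det_embeddingsMatrixReindex_pow_two ℚ ℂ v ε
    have h2 : Algebra.embeddingsMatrixReindex ℚ ℂ v ε = V.transpose := by
      ext i j
      rfl
    rw [h2, Matrix.det_transpose, h0, zero_pow two_ne_zero] at h1
    have h3 := Algebra.discr_not_zero_of_basis ℚ b
    rw [hb] at h3
    exact h3 ((map_eq_zero _).1 h1)
  let i0 : Fin r := ⟨0, hr1⟩
  obtain ⟨c, hc1, hc2, hc3⟩ := tp_grid hr i0 (fun I => ((eqv I : mon r r) : Fin r →₀ ℕ))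
    (fun I J h => eqv.injective (Subtype.ext h)) (fun I => mem_mon.1 (eqv I).2) V hV
  have hev : ∀ t i, ε t (∑ j, (c i j : K) * v j) = ∑ j, V t j * (c i j : ℂ) := by
    intro t i
    rw [map_sum]
    refine Finset.sum_congr rfl fun j _ => ?_
    rw [map_mul, map_natCast, mul_comm]
    rfl
  refine ⟨c, hc1, ?_, ?_⟩
  · intro Q hQ hQ0
    have hsup : ∀ d, d ∉ mon r r → coeff d Q = 0 := by
      intro d hd
      by_contra h
      apply hd
      rw [mem_mon]
      refine le_trans ?_ hQ
      exact le_totalDegree (mem_support_iff.2 h)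
    have hq : (fun I : Fin ((2 * r).choose r) => ((coeff (eqv I : Fin r →₀ ℕ) Q : ℚ) : ℂ)) = 0 := by
      refine Matrix.eq_zero_of_mulVec_eq_zero hc2 ?_
      funext t
      have h1 : ε (Fin.castLE hr t) (aeval (fun i => ∑ j, (c i j : K) * v j) Q) = 0 := by
        rw [hQ0, map_zero]
      rw [comp_aeval_apply, aeval_def, eval₂_eq'] at h1
      have h2 : ∑ d ∈ Q.support, algebraMap ℚ ℂ (coeff d Q) *
          ∏ i, ε (Fin.castLE hr t) (∑ j, (c i j : K) * v j) ^ d i =
          ∑ d ∈ mon r r, algebraMap ℚ ℂ (coeff d Q) *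
          ∏ i, ε (Fin.castLE hr t) (∑ j, (c i j : K) * v j) ^ d i := by
        refine Finset.sum_subset (fun d hd => ?_) fun d _ hd => ?_
        · by_contra h
          exact (mem_support_iff.1 hd) (hsup d h)
        · rw [notMem_support_iff.1 hd, map_zero, zero_mul]
      rw [h2, ← Finset.sum_coe_sort, ← Equiv.sum_comp eqv] at h1
      change ∑ I, (∏ i, (∑ j, V (Fin.castLE hr t) j * (c i j : ℂ)) ^
        ((eqv I : mon r r) : Fin r →₀ ℕ) i) * ((coeff (eqv I : Fin r →₀ ℕ) Q : ℚ) : ℂ) = 0
      rw [← h1]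
      refine Finset.sum_congr rfl fun I _ => ?_
      rw [mul_comm]
      congr 1
      exact Finset.prod_congr rfl fun i _ => by rw [hev]
    ext d
    rw [coeff_zero]
    by_cases hd : d ∈ mon r r
    · have h1 := congrFun hq (eqv.symm ⟨d, hd⟩)
      rw [Pi.zero_apply] at h1
      have h2 : ((eqv (eqv.symm ⟨d, hd⟩) : mon r r) : Fin r →₀ ℕ) = d := by
        rw [Equiv.apply_symm_apply]
      simp only [h2] at h1
      exact_mod_cast h1
    · exact hsup d hd
  · obtain ⟨a0, ha0⟩ : ∃ a0 : K, a0 = ∑ j, (c i0 j : K) * v j := ⟨_, rfl⟩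
    have htop : IntermediateField.adjoin ℚ {a0} = ⊤ := by
      rw [Field.primitive_element_iff_algHom_eq_of_eval' ℚ ℂ
        (fun x => IsAlgClosed.splits _)]
      intro φ ψ h
      obtain ⟨s, rfl⟩ := ε.surjective φ
      obtain ⟨t, rfl⟩ := ε.surjective ψ
      by_contra hst
      refine hc3 s t (fun h' => hst (by rw [h'])) ?_
      rw [← hev, ← hev, ← ha0]
      exact h
    refine le_antisymm ?_ ?_
    · rw [IntermediateField.adjoin_le_iff]
      rintro _ ⟨i, rfl⟩
      exact (∑ j, (c i j : K) * v j : K).2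
    · intro x hx
      have hmem : (⟨x, hx⟩ : K) ∈ IntermediateField.adjoin ℚ {a0} := by
        rw [htop]
        exact IntermediateField.mem_top
      have key : ∀ y : K, y ∈ IntermediateField.adjoin ℚ {a0} →
          (y : ℂ) ∈ IntermediateField.adjoin ℚ (Set.range fun i : Fin r =>
            ((∑ j, (c i j : K) * v j : K) : ℂ)) := by
        intro y hy
        induction hy using IntermediateField.adjoin_induction with
        | mem z hz =>
          rw [Set.mem_singleton_iff.1 hz, ha0]
          exact IntermediateField.subset_adjoin ℚ _ ⟨i0, rfl⟩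
        | algebraMap q =>
          have h1 : ((algebraMap ℚ K q : K) : ℂ) = algebraMap ℚ ℂ q := by
            rw [eq_ratCast, eq_ratCast]
            rfl
          rw [h1]
          exact IntermediateField.algebraMap_mem _ q
        | add y z _ _ hy hz => exact add_mem hy hz
        | inv y _ hy => exact inv_mem hy
        | mul y z _ _ hy hz => exact mul_mem hy hz
      exact key _ hmem

end NF44
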