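import Pool.Agent.Lib.NF44.BasisSq
import Pool.Agent.Lib.NF44.Tuple
import Pool.Agent.Lib.NF44.Num1

/-!
MP_44a56e_nt, module Prop1 (about 120 lines): every field comes from a tuple in `TS`.

PROOF of `prop1`. `r = rn n`. `C0` from `basis_sq n`, `N` from `tuple n r` (hypotheses by `rn_spec`), `C = n N C0 + 1` say. Given `K`: `v : Fin n → 𝓞 K`,
`c` from `tuple` applied to `fun i => (v i : K)`; `α i = ∑_j c_ij v_j ∈ 𝓞 K`, as an element of `Zb` via `oz K`. `Kf α = K` is the last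
statement of `tuple`. `finrank = n` then. Roots `w` of `minpoly ℚ (α i : ℂ)` = roots of `minpoly ℚ (a_i : K)` (`minpoly.algebraMap_eq` or
`IntermediateField.minpoly_eq`) are `φ (a_i)` for an embedding `φ : K →+* ℂ`
(`NumberField.Embeddings.range_eval_eq_rootSet_minpoly`), so `|w| ≤ ∑_j N |φ v_j| ≤ n N C0 D^(2/n) ≤ S`. Nondegeneracy: `Q ∈ Mi α`
means `aeval (α : ℂ) Q = 0`, i.e. `aeval a Q = 0` in `K`.
-/

set_option autoImplicit false

open MvPolynomial Module NumberField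

namespace NF44

theorem prop1 (n : ℕ) (hn : 2 ≤ n) : ∃ C : ℝ, 0 < C ∧ ∀ K : SF, finrank ℚ K = n →
    ∀ _ : NumberField K, ∀ S : ℕ, C * |(discr K : ℝ)| ^ ((2 : ℝ) / n) ≤ S →
      ∃ α ∈ TS n (rn n) S, Kf α = K := by
  sorry

end NF44
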