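import Pool.Agent.Lib.NF44.Main
import Pool.Agent.Lib.NF44.Prop1
import Pool.Agent.Lib.NF44.Num3

/-!
MP_44a56e_nt, module Final (about 150 lines): the theorem.

PROOF of `final`. `C` from `expo`. Given `n ≥ 2`: `C1` from `prop1 n`, `C2` from `prop2 n`. For `X ≥ 1` put `S = ⌈C1 X^(2/n)⌉₊ ≥ 1`, so `S ≤ (C1 + 1) X^(2/n)`. Every `K` in the set has `C1 |D|^(2/n) ≤ S`, so `K = Kf α` with `α ∈ TS n (rn n) S`
(`prop1`): the set is contained in the image of `TS n (rn n) S` under `Kf`, so it is finite with `ncard ≤ C2 S^F ≤ C2 (C1+1)^F X^((2/n) F)`, `F = FF n (rn n) (rn n) 0`, and `(2/n) F ≤ C log n (1 + log (1 + log n))^2` (`expo`), `X ≥ 1`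
(`Real.rpow_le_rpow_of_exponent_le`). `C_n = C2 (C1+1)^F + 1`.
`final_iso`: the isomorphism classes are a quotient of the finite set (`Nat.card` of a quotient `≤` `Nat.card` of the type, `Finite.card_le_of_surjective Quot.mk`).
-/

set_option autoImplicit false

open MvPolynomial Module NumberField

namespace NF44

theorem final : ∃ C : ℝ, 0 < C ∧ ∀ n : ℕ, 2 ≤ n → ∃ Cn : ℝ, 0 < Cn ∧ ∀ X : ℝ, 1 ≤ X →
    {K : IntermediateField ℚ ℂ | finrank ℚ K = n ∧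
      ∃ _ : NumberField K, |(discr K : ℝ)| ≤ X}.Finite ∧
    ({K : IntermediateField ℚ ℂ | finrank ℚ K = n ∧
      ∃ _ : NumberField K, |(discr K : ℝ)| ≤ X}.ncard : ℝ) ≤
      Cn * X ^ (C * Real.log n * (1 + Real.log (1 + Real.log n)) ^ 2) := by
  obtain ⟨C, hC, hexp⟩ := expo
  refine ⟨C, hC, fun n hn => ?_⟩
  obtain ⟨C1, hC1, h1⟩ := prop1 n hn
  obtain ⟨C2, h2⟩ := prop2 n hn
  set F := FF n (rn n) (rn n) 0 with hF
  refine ⟨C2 * (C1 + 1) ^ F + 1, by positivity, fun X hX => ?_⟩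
  have hn0 : (0 : ℝ) < n := by
    have : 0 < n := by omega
    exact_mod_cast this
  have hX0 : (0 : ℝ) ≤ X := by linarith
  have hXp : 1 ≤ X ^ ((2 : ℝ) / n) := Real.one_le_rpow hX (by positivity)
  obtain ⟨S, hS⟩ : ∃ S : ℕ, S = ⌈C1 * X ^ ((2 : ℝ) / n)⌉₊ := ⟨_, rfl⟩
  have hpos : 0 < C1 * X ^ ((2 : ℝ) / n) := by positivity
  have hS1 : 1 ≤ S := by
    rw [hS]
    exact Nat.one_le_ceil_iff.2 hpos
  have hS2 : C1 * X ^ ((2 : ℝ) / n) ≤ S := by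
    rw [hS]
    exact Nat.le_ceil _
  have hS3 : (S : ℝ) ≤ (C1 + 1) * X ^ ((2 : ℝ) / n) := by
    have h3 : (S : ℝ) < C1 * X ^ ((2 : ℝ) / n) + 1 := by
      rw [hS]
      exact Nat.ceil_lt_add_one hpos.le
    linarith
  obtain ⟨hfin, hcard⟩ := h2 S hS1
  have hsub : {K : IntermediateField ℚ ℂ | finrank ℚ K = n ∧
      ∃ _ : NumberField K, |(discr K : ℝ)| ≤ X} ⊆ Kf '' TS n (rn n) S := by
    rintro K ⟨hK, hnf, hd⟩
    obtain ⟨α, hα, hKα⟩ := h1 K hK hnf S (by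
      refine le_trans ?_ hS2
      exact mul_le_mul_of_nonneg_left
        (Real.rpow_le_rpow (abs_nonneg _) hd (by positivity)) hC1.le)
    exact ⟨α, hα, hKα⟩
  refine ⟨(hfin.image Kf).subset hsub, ?_⟩
  have hc1 : {K : IntermediateField ℚ ℂ | finrank ℚ K = n ∧
      ∃ _ : NumberField K, |(discr K : ℝ)| ≤ X}.ncard ≤ C2 * S ^ F :=
    (Set.ncard_le_ncard hsub (hfin.image Kf)).trans ((Set.ncard_image_le hfin).trans hcard)
  have hc2 : ({K : IntermediateField ℚ ℂ | finrank ℚ K = n ∧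
      ∃ _ : NumberField K, |(discr K : ℝ)| ≤ X}.ncard : ℝ) ≤ C2 * (S : ℝ) ^ F := by
    exact_mod_cast hc1
  refine hc2.trans ?_
  have hSF : (S : ℝ) ^ F ≤ (C1 + 1) ^ F *
      X ^ (C * Real.log n * (1 + Real.log (1 + Real.log n)) ^ 2) := by
    calc (S : ℝ) ^ F ≤ ((C1 + 1) * X ^ ((2 : ℝ) / n)) ^ F :=
          pow_le_pow_left₀ (Nat.cast_nonneg _) hS3 F
      _ = (C1 + 1) ^ F * X ^ ((2 : ℝ) / n * F) := by
          rw [mul_pow, Real.rpow_mul hX0, Real.rpow_natCast]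
      _ ≤ _ := by
          refine mul_le_mul_of_nonneg_left ?_ (by positivity)
          exact Real.rpow_le_rpow_of_exponent_le hX (hexp n hn)
  have hXn : 0 ≤ X ^ (C * Real.log n * (1 + Real.log (1 + Real.log n)) ^ 2) :=
    Real.rpow_nonneg hX0 _
  calc (C2 : ℝ) * (S : ℝ) ^ F ≤ C2 * ((C1 + 1) ^ F *
        X ^ (C * Real.log n * (1 + Real.log (1 + Real.log n)) ^ 2)) :=
        mul_le_mul_of_nonneg_left hSF (Nat.cast_nonneg _)
    _ ≤ _ := by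
        rw [add_mul, one_mul, ← mul_assoc]
        linarith

theorem final_iso : ∃ C : ℝ, 0 < C ∧ ∀ n : ℕ, 2 ≤ n → ∃ Cn : ℝ, 0 < Cn ∧ ∀ X : ℝ, 1 ≤ X →
    (Nat.card (Quot fun K L : {K : IntermediateField ℚ ℂ // finrank ℚ K = n ∧
      ∃ _ : NumberField K, |(discr K : ℝ)| ≤ X} => Nonempty (K.1 ≃ₐ[ℚ] L.1)) : ℝ) ≤
      Cn * X ^ (C * Real.log n * (1 + Real.log (1 + Real.log n)) ^ 2) := by
  obtain ⟨C, hC, h⟩ := final
  refine ⟨C, hC, fun n hn => ?_⟩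
  obtain ⟨Cn, hCn, h1⟩ := h n hn
  refine ⟨Cn, hCn, fun X hX => ?_⟩
  obtain ⟨hfin, hcard⟩ := h1 X hX
  have hf : Finite {K : IntermediateField ℚ ℂ // finrank ℚ K = n ∧
      ∃ _ : NumberField K, |(discr K : ℝ)| ≤ X} := hfin.to_subtype
  have h2 : Nat.card (Quot fun K L : {K : IntermediateField ℚ ℂ // finrank ℚ K = n ∧
      ∃ _ : NumberField K, |(discr K : ℝ)| ≤ X} => Nonempty (K.1 ≃ₐ[ℚ] L.1)) ≤
      Nat.card {K : IntermediateField ℚ ℂ // finrank ℚ K = n ∧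
      ∃ _ : NumberField K, |(discr K : ℝ)| ≤ X} :=
    Nat.card_le_card_of_surjective _ Quot.mk_surjective
  refine le_trans ?_ hcard
  exact_mod_cast h2

end NF44
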