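import Pool.Agent.Lib.NF44.Defs

/-!
MP_44a56e_nt, module Layer: multiplicities (layer cake formula for finite sets).
-/

set_option autoImplicit false

open scoped Pointwise

namespace NF44

/-- `∑_{a∈A} m a = ∑_{t<M} #{a ∈ A : t < m a}` if `m ≤ M` on `A`. -/
private lemma sum_layer {Γ : Type} (A : Finset Γ) (m : Γ → ℕ) (M : ℕ) (hM : ∀ a ∈ A, m a ≤ M) :
    ∑ a ∈ A, m a = ∑ t ∈ Finset.range M, (A.filter (fun a => t < m a)).card := by
  classical
  simp_rw [Finset.card_filter]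
  rw [Finset.sum_comm]
  refine Finset.sum_congr rfl (fun a ha => ?_)
  rw [← Finset.card_filter]
  have : (Finset.range M).filter (fun t => t < m a) = Finset.range (m a) := by
    ext t
    simp only [Finset.mem_filter, Finset.mem_range]
    have := hM a ha
    omega
  rw [this, Finset.card_range]

theorem layer {Γ : Type} [CommGroup Γ] [DecidableEq Γ] (x : ℕ) (E : Finset Γ)
    (hE : ∀ B : Finset Γ, 2 ^ x * B.card ≤ (B * B * E).card) (A C : Finset Γ) (m m' : Γ → ℕ)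
    (h : ∀ a ∈ A, ∀ b ∈ A, ∀ e ∈ E, a * b * e ∈ C ∧ m a ≤ m' (a * b * e)) :
    2 ^ x * ∑ a ∈ A, m a ≤ ∑ c ∈ C, m' c := by
  classical
  set M := ∑ a ∈ A, m a + ∑ c ∈ C, m' c with hMdef
  have hA : ∀ a ∈ A, m a ≤ M := fun a ha =>
    (Finset.single_le_sum (fun i _ => Nat.zero_le (m i)) ha).trans (Nat.le_add_right _ _)
  have hC : ∀ c ∈ C, m' c ≤ M := fun c hc =>
    (Finset.single_le_sum (fun i _ => Nat.zero_le (m' i)) hc).trans (Nat.le_add_left _ _)
  rw [sum_layer A m M hA, sum_layer C m' M hC, Finset.mul_sum]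
  refine Finset.sum_le_sum (fun t _ => ?_)
  refine (hE _).trans (Finset.card_le_card ?_)
  intro c hc
  rw [Finset.mem_mul] at hc
  obtain ⟨ab, hab, e, he, rfl⟩ := hc
  rw [Finset.mem_mul] at hab
  obtain ⟨a, ha, b, hb, rfl⟩ := hab
  rw [Finset.mem_filter] at ha hb ⊢
  obtain ⟨h1, h2⟩ := h a ha.1 b hb.1 e he
  exact ⟨h1, ha.2.trans_le h2⟩

end NF44
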