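import Pool.Agent.Lib.NF44.Defs

/-!
MP_44a56e_nt, module Val: a valuation with independent values.
-/

set_option autoImplicit false

open Module

namespace NF44

private theorem linInd {L : Type} [Field L] [Algebra ℚ L] {x : ℕ} (y : Fin x → L)
    (hy : AlgebraicIndependent ℚ y) :
    LinearIndependent ℚ (fun c : Fin x → ℤ => ∏ i, y i ^ c i) := by
  classical
  have hy0 : ∀ i, y i ≠ 0 := fun i => hy.ne_zero i
  rw [linearIndependent_iff']
  intro s g hg c hc
  obtain ⟨N, hN⟩ : ∃ N : ℕ, ∀ c ∈ s, ∀ i, 0 ≤ c i + N := by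
    refine ⟨∑ c ∈ s, ∑ i, (c i).natAbs, fun c hc i => ?_⟩
    have h1 : (c i).natAbs ≤ ∑ i, (c i).natAbs :=
      Finset.single_le_sum (f := fun i => (c i).natAbs) (fun _ _ => Nat.zero_le _)
        (Finset.mem_univ i)
    have h2 : ∑ i, (c i).natAbs ≤ ∑ c ∈ s, ∑ i, (c i).natAbs :=
      Finset.single_le_sum (f := fun c : Fin x → ℤ => ∑ i, (c i).natAbs)
        (fun _ _ => Nat.zero_le _) hc
    omega
  let e : (Fin x → ℤ) → (Fin x →₀ ℕ) :=
    fun c => Finsupp.equivFunOnFinite.symm (fun i => (c i + N).toNat)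
  have he : ∀ c ∈ s, ∀ i, ((e c i : ℕ) : ℤ) = c i + N :=
    fun c hc i => Int.toNat_of_nonneg (hN c hc i)
  let P : MvPolynomial (Fin x) ℚ := ∑ c ∈ s, MvPolynomial.monomial (e c) (g c)
  have hP : MvPolynomial.aeval y P = 0 := by
    have h3 : ∀ c ∈ s, MvPolynomial.aeval y (MvPolynomial.monomial (e c) (g c)) =
        (∏ i, y i ^ (N : ℤ)) * (g c • ∏ i, y i ^ c i) := by
      intro c hc
      rw [MvPolynomial.aeval_monomial, Finsupp.prod_fintype _ _ (by simp), Algebra.smul_def,
        mul_left_comm, ← Finset.prod_mul_distrib]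
      congr 1
      refine Finset.prod_congr rfl fun i _ => ?_
      rw [← zpow_natCast, he c hc i, ← zpow_add₀ (hy0 i), add_comm]
    rw [map_sum, Finset.sum_congr rfl h3, ← Finset.mul_sum, hg, mul_zero]
  have hP0 : P = 0 := hy (by rw [hP, map_zero])
  have hcoef := congrArg (MvPolynomial.coeff (e c)) hP0
  rw [MvPolynomial.coeff_sum, MvPolynomial.coeff_zero, Finset.sum_eq_single c] at hcoef
  · rwa [MvPolynomial.coeff_monomial, if_pos rfl] at hcoef
  · intro d hd hdc
    rw [MvPolynomial.coeff_monomial, if_neg]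
    intro h
    apply hdc
    funext i
    have h4 : ((e d i : ℕ) : ℤ) = ((e c i : ℕ) : ℤ) := by rw [h]
    rw [he d hd i, he c hc i] at h4
    linarith
  · intro h
    exact absurd hc h

theorem exists_val {L : Type} [Field L] [Algebra ℚ L] {x : ℕ} (y : Fin x → L)
    (hy : AlgebraicIndependent ℚ y) :
    ∃ V : ValuationSubring L, (∀ q : ℚ, algebraMap ℚ L q ∈ V) ∧
      ∀ c : Fin x → ℤ, V.valuation (∏ i, y i ^ c i) = 1 → c = 0 := by
  classical
  have hy0 : ∀ i, y i ≠ 0 := fun i => hy.ne_zero i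
  let pos : (Fin x → ℤ) → Prop := fun c => 0 < toLex c
  have hadd : ∀ c d, pos c → pos d → pos (c + d) := by
    intro c d hc hd
    show 0 < toLex (c + d)
    rw [toLex_add]
    exact add_pos hc hd
  have hneg : ∀ c, c ≠ 0 → pos c ∨ pos (-c) := by
    intro c hc
    rcases lt_trichotomy (toLex c) 0 with h | h | h
    · right
      show 0 < toLex (-c)
      rw [toLex_neg]
      exact neg_pos.2 h
    · exact absurd (toLex.injective h) hc
    · left; exact h
  let mo : (Fin x → ℤ) → L := fun c => ∏ i, y i ^ c i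
  have hmo : ∀ c d, mo (c + d) = mo c * mo d := by
    intro c d
    show ∏ i, y i ^ (c + d) i = (∏ i, y i ^ c i) * ∏ i, y i ^ d i
    rw [← Finset.prod_mul_distrib]
    exact Finset.prod_congr rfl fun i _ => zpow_add₀ (hy0 i) _ _
  have hmo0 : mo 0 = 1 := by simp [mo]
  let M : Submodule ℚ L := Submodule.span ℚ (mo '' {c | pos c})
  have hMM : ∀ a ∈ M, ∀ b ∈ M, a * b ∈ M := by
    intro a ha b hb
    have h1 : a * b ∈ M * M := Submodule.mul_mem_mul ha hb
    rw [Submodule.span_mul_span] at h1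
    refine Submodule.span_mono ?_ h1
    rintro z ⟨_, ⟨c, hc, rfl⟩, _, ⟨d, hd, rfl⟩, rfl⟩
    exact ⟨c + d, hadd c d hc hd, hmo c d⟩
  have h1M : (1 : L) ∉ M := by
    have h2 : mo 0 ∉ Submodule.span ℚ (mo '' {c | pos c}) :=
      (linInd y hy).notMem_span_image (fun h => lt_irrefl (0 : Lex (Fin x → ℤ)) h)
    rw [hmo0] at h2
    exact h2
  let A : Subring L :=
    { carrier := {z | ∃ q : ℚ, z - algebraMap ℚ L q ∈ M}
      mul_mem' := by
        rintro a b ⟨q, hq⟩ ⟨q', hq'⟩
        refine ⟨q * q', ?_⟩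
        have h3 : a * b - algebraMap ℚ L (q * q') =
            (a - algebraMap ℚ L q) * (b - algebraMap ℚ L q') +
              (q • (b - algebraMap ℚ L q') + q' • (a - algebraMap ℚ L q)) := by
          rw [Algebra.smul_def, Algebra.smul_def, map_mul]
          ring
        rw [h3]
        exact M.add_mem (hMM _ hq _ hq') (M.add_mem (M.smul_mem _ hq') (M.smul_mem _ hq))
      one_mem' := ⟨1, by simp⟩
      add_mem' := by
        rintro a b ⟨q, hq⟩ ⟨q', hq'⟩
        refine ⟨q + q', ?_⟩
        have h3 : a + b - algebraMap ℚ L (q + q') =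
            (a - algebraMap ℚ L q) + (b - algebraMap ℚ L q') := by
          rw [map_add]
          ring
        rw [h3]
        exact M.add_mem hq hq'
      zero_mem' := ⟨0, by simp⟩
      neg_mem' := by
        rintro a ⟨q, hq⟩
        refine ⟨-q, ?_⟩
        have h3 : -a - algebraMap ℚ L (-q) = -(a - algebraMap ℚ L q) := by
          rw [map_neg]
          ring
        rw [h3]
        exact M.neg_mem hq }
  let I : Ideal A :=
    { carrier := {z | (z : L) ∈ M}
      add_mem' := by
        intro a b ha hb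
        exact M.add_mem ha hb
      zero_mem' := M.zero_mem
      smul_mem' := by
        rintro ⟨c, q, hq⟩ ⟨z, hz'⟩ hz
        have hz0 : z ∈ M := hz
        show c * z ∈ M
        have h3 : c * z = (c - algebraMap ℚ L q) * z + q • z := by
          rw [Algebra.smul_def]
          ring
        rw [h3]
        exact M.add_mem (hMM _ hq _ hz0) (M.smul_mem _ hz0) }
  have hI : I ≠ ⊤ := by
    intro h
    have h4 : (1 : A) ∈ I := by rw [h]; trivial
    exact h1M h4
  obtain ⟨V, hAV, hIV⟩ := Ideal.image_subset_nonunits_valuationSubring I hI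
  have hpos : ∀ c, pos c → V.valuation (mo c) < 1 := by
    intro c hc
    have h5 : mo c ∈ M := Submodule.subset_span ⟨c, hc, rfl⟩
    have h6 : mo c ∈ A := ⟨0, by rw [map_zero, sub_zero]; exact h5⟩
    have h7 : mo c ∈ V.nonunits := hIV ⟨⟨mo c, h6⟩, h5, rfl⟩
    exact (ValuationSubring.mem_nonunits_iff V).1 h7
  refine ⟨V, fun q => hAV ⟨q, by rw [sub_self]; exact M.zero_mem⟩, fun c hc => ?_⟩
  by_contra hne
  rcases hneg c hne with h | h
  · exact absurd hc (hpos c h).ne
  · have h8 := hpos (-c) h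
    have h9 : V.valuation (mo c) * V.valuation (mo (-c)) = 1 := by
      rw [← map_mul, ← hmo, add_neg_cancel, hmo0, map_one]
    have hc' : V.valuation (mo c) = 1 := hc
    rw [hc', one_mul] at h9
    exact absurd h9 h8.ne

end NF44
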