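import Pool.Agent.Lib.NF44.Gr
import Pool.Agent.Lib.NF44.Val
import Pool.Agent.Lib.NF44.Coset
import Pool.Agent.Lib.NF44.Layer

/-!
MP_44a56e_nt, module GField (about 100 lines): growth of products of subspaces of a field.

PROOF of `growth_field`. `V` from `exists_val`; `Γ = V.ValueGroupˣ` (a commutative group; `Classical.decEq`). `ι c = Units.mk0 (v (∏ y_i^c_i))`, additive to multiplicative, injective (if `ι a = ι b` then
`v (y^(a-b)) = 1`, `a = b`). `E = ι({0,1}^x)`; `ι` of the indicator of `s` is `v (∏_{i∈s} y_i)`. `coset_growth` gives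
`2^x |B| ≤ |B * B * E|` for all `B`. `A` from `gr_exists V W`; `C = A * A * E`. For `a, b ∈ A`, `e = ι(ε) ∈ E`: `b = v w0`, `w0 ∈ W`; `u = w0 ∏_{i∈s} y_i` has value
`b e` and `u w ∈ W'` for `w ∈ W` (by `h`), so `gr_mul`: `grd V W a ≤ grd V W' (a * (b * e))`. `layer` with `m = grd V W`, `m' = grd V W'`, then
`gr_exists` (sum `= finrank W`) and `gr_le` (sum over `C` `≤ finrank W'`).
-/

set_option autoImplicit false

open Module

namespace NF44

open scoped Pointwise in
theorem growth_field {L : Type} [Field L] [Algebra ℚ L] {x : ℕ} (y : Fin x → L)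
    (hy : AlgebraicIndependent ℚ y) (W W' : Submodule ℚ L) (hW : FiniteDimensional ℚ W)
    (hW' : FiniteDimensional ℚ W')
    (h : ∀ u ∈ W, ∀ w ∈ W, ∀ s : Finset (Fin x), u * w * ∏ i ∈ s, y i ∈ W') :
    2 ^ x * finrank ℚ W ≤ finrank ℚ W' := by
  classical
  obtain ⟨V, hV, hval⟩ := exists_val y hy
  have hy0 : ∀ i, y i ≠ 0 := fun i => hy.ne_zero i
  let mo : (Fin x → ℤ) → L := fun c => ∏ i, y i ^ c i
  have hmo : ∀ c d, mo (c + d) = mo c * mo d := by
    intro c d
    show ∏ i, y i ^ (c + d) i = (∏ i, y i ^ c i) * ∏ i, y i ^ d i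
    rw [← Finset.prod_mul_distrib]
    exact Finset.prod_congr rfl fun i _ => zpow_add₀ (hy0 i) _ _
  have hmo0 : ∀ c, mo c ≠ 0 := fun c =>
    Finset.prod_ne_zero_iff.mpr fun i _ => zpow_ne_zero _ (hy0 i)
  have hv0 : ∀ c, V.valuation (mo c) ≠ 0 := fun c => (Valuation.ne_zero_iff _).mpr (hmo0 c)
  let ι : (Fin x → ℤ) → V.ValueGroupˣ := fun c => Units.mk0 (V.valuation (mo c)) (hv0 c)
  have hadd : ∀ a b, ι (a + b) = ι a * ι b := by
    intro a b
    apply Units.ext
    show V.valuation (mo (a + b)) = V.valuation (mo a) * V.valuation (mo b)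
    rw [hmo, map_mul]
  have hι : Function.Injective ι := by
    intro a b hab
    have h1 : ι (a - b) = 1 := by
      have h2 : ι (a - b) * ι b = 1 * ι b := by rw [← hadd, sub_add_cancel, hab, one_mul]
      exact mul_right_cancel h2
    have h2 : V.valuation (mo (a - b)) = 1 := congrArg Units.val h1
    exact sub_eq_zero.mp (hval (a - b) h2)
  obtain ⟨A, hA, hAsum⟩ := gr_exists V hV W hW
  have hkey : ∀ a ∈ A, ∀ b ∈ A, ∀ e ∈ (Fintype.piFinset (fun _ : Fin x => ({0, 1} : Finset ℤ))).image ι,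
      a * b * e ∈ A * A * (Fintype.piFinset (fun _ : Fin x => ({0, 1} : Finset ℤ))).image ι ∧
        grd V W a ≤ grd V W' (a * b * e : V.ValueGroupˣ) := by
    intro a ha b hb e he
    refine ⟨Finset.mul_mem_mul (Finset.mul_mem_mul ha hb) he, ?_⟩
    obtain ⟨ε, hε, rfl⟩ := Finset.mem_image.mp he
    obtain ⟨w0, hw0, hb0⟩ := hA b hb
    have hε' : ∀ i, ε i = 0 ∨ ε i = 1 := by
      intro i
      have := Fintype.mem_piFinset.mp hε i
      simpa using this
    have hprod : mo ε = ∏ i ∈ Finset.univ.filter (fun i => ε i = 1), y i := by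
      show ∏ i, y i ^ ε i = _
      rw [Finset.prod_filter]
      refine Finset.prod_congr rfl fun i _ => ?_
      rcases hε' i with h0 | h1
      · rw [h0, if_neg (by norm_num), zpow_zero]
      · rw [h1, if_pos rfl, zpow_one]
    have hu : V.valuation (w0 * mo ε) = ((b * ι ε : V.ValueGroupˣ) : V.ValueGroup) := by
      rw [map_mul, hb0]
      rfl
    have hw : ∀ w ∈ W, (w0 * mo ε) * w ∈ W' := by
      intro w hw
      have h3 := h w0 hw0 w hw (Finset.univ.filter (fun i => ε i = 1))
      rw [← hprod] at h3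
      have e3 : w0 * mo ε * w = w0 * w * mo ε := by ring
      rw [e3]
      exact h3
    have h4 := gr_mul V hV W W' hW' (w0 * mo ε) a (b * ι ε) hu hw
    rw [← mul_assoc] at h4
    exact h4
  have hl := layer x ((Fintype.piFinset (fun _ : Fin x => ({0, 1} : Finset ℤ))).image ι)
    (fun B => coset_growth ι hι hadd B) A
    (A * A * (Fintype.piFinset (fun _ : Fin x => ({0, 1} : Finset ℤ))).image ι)
    (fun a => grd V W a) (fun a => grd V W' a) hkey
  calc 2 ^ x * finrank ℚ W = 2 ^ x * ∑ a ∈ A, grd V W a := by rw [hAsum]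
    _ ≤ ∑ c ∈ A * A * (Fintype.piFinset (fun _ : Fin x => ({0, 1} : Finset ℤ))).image ι,
        grd V W' c := hl
    _ ≤ finrank ℚ W' := gr_le V hV W' hW' _

end NF44
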