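import Pool.Agent.Lib.NF44.ResF

/-!
MP_44a56e_nt, module Gen (about 120 lines): a generator of the residue field.

PROOF of `exists_gen`. `rr K p` is a finite field with `q = p^f` elements, `f = fd K p` (`rr_facts`). Take a generator `ρ` of its group of
units (`IsCyclic`) or any primitive element over the prime field; `g0` = minimal polynomial of `ρ` over `ZMod p` (give `kap p`
the algebra structure `ZMod.algebra` with `CharP (kap p) p`, `CharP` from `red_p`), monic irreducible of degree `f`
(the degree of `ZMod p [ρ] = rr K p` over `ZMod p`, a vector space with `p^f` elements), separable, so `g0'(ρ) ≠ 0`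
(`minpoly` of an element of a finite field is separable: perfect field `ZMod p`). Lift `g0` to a monic `g : ℤ[X]` of the same degree
(`Polynomial.lifts_and_natDegree_eq_and_monic`, `ZMod.intCast_surjective`); `g(ρ) = g0(ρ)`. Every element of `rr K p` is a polynomial in `ρ` with
coefficients in `ZMod p`; lift the coefficients.
-/

set_option autoImplicit false

open MvPolynomial Module NumberField

namespace NF44

private theorem gen_aux (p : ℕ) [Fact p.Prime] (F : Type) [Field F] [Algebra (ZMod p) F]
    [Finite F] (f : ℕ) (hcard : Nat.card F = p ^ f) :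
    ∃ (ρ : F) (g : Polynomial ℤ), g.Monic ∧ g.natDegree = f ∧
      Polynomial.aeval ρ g = 0 ∧ Polynomial.aeval ρ g.derivative ≠ 0 ∧
      ∀ z : F, ∃ a : Polynomial ℤ, Polynomial.aeval ρ a = z := by
  classical
  obtain ⟨α, hα⟩ := Field.exists_primitive_element (ZMod p) F
  have hint : IsIntegral (ZMod p) α := Algebra.IsIntegral.isIntegral α
  have hmonic := minpoly.monic hint
  have hlift : minpoly (ZMod p) α ∈ Polynomial.lifts (Int.castRingHom (ZMod p)) := by
    obtain ⟨b, hb⟩ := Polynomial.map_surjective (Int.castRingHom (ZMod p))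
      (ZMod.intCast_surjective) (minpoly (ZMod p) α)
    exact ⟨b, hb⟩
  obtain ⟨g, hg, hdeg, hgm⟩ := Polynomial.lifts_and_natDegree_eq_and_monic hlift hmonic
  have hev : ∀ b : Polynomial ℤ, Polynomial.aeval α b =
      Polynomial.aeval α (b.map (Int.castRingHom (ZMod p))) := by
    intro b
    rw [← algebraMap_int_eq, Polynomial.aeval_map_algebraMap]
  have hfr : (minpoly (ZMod p) α).natDegree = f := by
    have h1 : Module.finrank (ZMod p) F = (minpoly (ZMod p) α).natDegree := by
      rw [← IntermediateField.adjoin.finrank hint, hα, IntermediateField.finrank_top']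
    have h2 : Nat.card F = p ^ Module.finrank (ZMod p) F := by
      have := Module.natCard_eq_pow_finrank (K := ZMod p) (V := F)
      rw [Nat.card_zmod] at this
      exact this
    rw [h2] at hcard
    rw [← h1]
    exact Nat.pow_right_injective (Fact.out : p.Prime).two_le hcard
  refine ⟨α, g, hgm, hdeg.trans hfr, ?_, ?_, ?_⟩
  · rw [hev, hg, minpoly.aeval]
  · rw [hev, ← Polynomial.derivative_map, hg]
    have hsep : (minpoly (ZMod p) α).Separable := PerfectField.separable_of_irreducible (minpoly.irreducible hint)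
    exact hsep.aeval_derivative_ne_zero (minpoly.aeval _ _)
  · intro z
    have hz : z ∈ (IntermediateField.adjoin (ZMod p) {α}).toSubalgebra := by
      rw [hα]; trivial
    rw [IntermediateField.adjoin_simple_toSubalgebra_of_isAlgebraic hint.isAlgebraic,
      Algebra.adjoin_singleton_eq_range_aeval] at hz
    obtain ⟨b, hb⟩ := hz
    obtain ⟨a, ha⟩ := Polynomial.map_surjective (Int.castRingHom (ZMod p))
      (ZMod.intCast_surjective) b
    refine ⟨a, ?_⟩
    rw [hev, ha]
    exact hb

theorem exists_gen (K : SF) [NumberField K] (p : ℕ) (hp : p.Prime) :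
    ∃ (ρ : kap p) (g : Polynomial ℤ), ρ ∈ rr K p ∧ g.Monic ∧ g.natDegree = fd K p ∧
      Polynomial.aeval ρ g = 0 ∧ Polynomial.aeval ρ g.derivative ≠ 0 ∧
      ∀ z ∈ rr K p, ∃ a : Polynomial ℤ, Polynomial.aeval ρ a = z := by
  classical
  have : Fact p.Prime := ⟨hp⟩
  obtain ⟨hcard, hf1, -, hmem, -, -, -, -⟩ := rr_facts K _ rfl p hp
  have hq2 : 2 ≤ p ^ fd K p := by
    calc 2 ≤ p := hp.two_le
      _ = p ^ 1 := (pow_one p).symm
      _ ≤ p ^ fd K p := Nat.pow_le_pow_right hp.pos hf1
  have hfin : Finite (rr K p) := by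
    apply Nat.finite_of_card_ne_zero
    rw [hcard]
    positivity
  let F : Subfield (kap p) :=
    { rr K p with
      inv_mem' := by
        intro z hz
        by_cases h0 : z = 0
        · subst h0
          rw [inv_zero]
          exact (rr K p).zero_mem
        · have h1 : z ^ (p ^ fd K p) = z := (hmem z).1 hz
          have h2 : z ^ (p ^ fd K p - 2) * z = 1 := by
            have h3 : z ^ (p ^ fd K p - 2) * z * z = 1 * z := by
              rw [mul_assoc, ← sq, ← pow_add, Nat.sub_add_cancel hq2, h1, one_mul]
            exact mul_right_cancel₀ h0 h3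
          have h4 : z⁻¹ = z ^ (p ^ fd K p - 2) := (eq_inv_of_mul_eq_one_left h2).symm
          rw [h4]
          exact (rr K p).pow_mem hz _ }
  have hFmem : ∀ z, z ∈ F ↔ z ∈ rr K p := fun z => Iff.rfl
  have hFfin : Finite F := hfin
  have : CharP F p := by
    have h0 : ((p : ℕ) : F) = 0 := by
      apply Subtype.ext
      have := red_p hp
      simpa using this
    exact (CharP.charP_iff_prime_eq_zero hp).2 h0
  let _ : Algebra (ZMod p) F := ZMod.algebra F p
  have hFcard : Nat.card F = p ^ fd K p := hcard
  obtain ⟨ρ, g, hgm, hgd, h0, h1, h2⟩ := gen_aux p F (fd K p) hFcard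
  have hsub : ∀ b : Polynomial ℤ, Polynomial.aeval (ρ : kap p) b =
      ((Polynomial.aeval ρ b : F) : kap p) := by
    intro b
    have := Polynomial.aeval_algHom_apply (F.subtype.toIntAlgHom) ρ b
    exact this
  refine ⟨ρ, g, ρ.2, hgm, hgd, ?_, ?_, ?_⟩
  · rw [hsub, h0]; rfl
  · rw [hsub]
    intro h
    exact h1 (Subtype.ext h)
  · intro z hz
    obtain ⟨a, ha⟩ := h2 ⟨z, hz⟩
    exact ⟨a, by rw [hsub, ha]⟩

end NF44
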