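import Pool.Agent.Lib.NF44.Defs2

/-!
MP_44a56e_nt, module Gr: graded pieces of finite-dimensional spaces.
-/

set_option autoImplicit false

open Module

namespace NF44

variable {L : Type} [Field L] [Algebra ℚ L]

private theorem val_smul_le (V : ValuationSubring L) (hV : ∀ q : ℚ, algebraMap ℚ L q ∈ V)
    (q : ℚ) (w : L) : V.valuation (q • w) ≤ V.valuation w := by
  rw [Algebra.smul_def, map_mul]
  have h : V.valuation (algebraMap ℚ L q) ≤ 1 := (V.valuation_le_one_iff _).2 (hV q)
  calc V.valuation (algebraMap ℚ L q) * V.valuation w ≤ 1 * V.valuation w :=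
        mul_le_mul_left h _
    _ = V.valuation w := one_mul _

/-- The subspace of elements of value at most `γ`. -/
private def leS (V : ValuationSubring L) (hV : ∀ q : ℚ, algebraMap ℚ L q ∈ V)
    (W : Submodule ℚ L) (γ : V.ValueGroup) : Submodule ℚ L where
  carrier := {w : L | w ∈ W ∧ V.valuation w ≤ γ}
  add_mem' := by
    rintro a b ⟨ha, ha'⟩ ⟨hb, hb'⟩
    exact ⟨W.add_mem ha hb, (V.valuation.map_add a b).trans (max_le ha' hb')⟩
  zero_mem' := ⟨W.zero_mem, by rw [map_zero]; exact zero_le'⟩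
  smul_mem' := by
    rintro q w ⟨hw, hw'⟩
    exact ⟨W.smul_mem q hw, (val_smul_le V hV q w).trans hw'⟩

/-- The subspace of elements of value smaller than `γ`. -/
private def ltS (V : ValuationSubring L) (hV : ∀ q : ℚ, algebraMap ℚ L q ∈ V)
    (W : Submodule ℚ L) (γ : V.ValueGroupˣ) : Submodule ℚ L where
  carrier := {w : L | w ∈ W ∧ V.valuation w < γ}
  add_mem' := by
    rintro a b ⟨ha, ha'⟩ ⟨hb, hb'⟩
    exact ⟨W.add_mem ha hb, lt_of_le_of_lt (V.valuation.map_add a b) (max_lt ha' hb')⟩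
  zero_mem' := ⟨W.zero_mem, by rw [map_zero]; exact zero_lt_iff.2 γ.ne_zero⟩
  smul_mem' := by
    rintro q w ⟨hw, hw'⟩
    exact ⟨W.smul_mem q hw, lt_of_le_of_lt (val_smul_le V hV q w) hw'⟩

private theorem grd_eq (V : ValuationSubring L) (hV : ∀ q : ℚ, algebraMap ℚ L q ∈ V)
    (W : Submodule ℚ L) (γ : V.ValueGroupˣ) :
    grd V W γ = finrank ℚ (leS V hV W γ) - finrank ℚ (ltS V hV W γ) := by
  have h1 : Submodule.span ℚ {w : L | w ∈ W ∧ V.valuation w ≤ (γ : V.ValueGroup)} =
      leS V hV W γ := Submodule.span_eq (leS V hV W γ)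
  have h2 : Submodule.span ℚ {w : L | w ∈ W ∧ V.valuation w < (γ : V.ValueGroup)} =
      ltS V hV W γ := Submodule.span_eq (ltS V hV W γ)
  rw [grd, h1, h2]

private theorem lt_le_le (V : ValuationSubring L) (hV : ∀ q : ℚ, algebraMap ℚ L q ∈ V)
    (W : Submodule ℚ L) (γ : V.ValueGroupˣ) : ltS V hV W γ ≤ leS V hV W γ :=
  fun _ h => ⟨h.1, h.2.le⟩

private theorem leS_le (V : ValuationSubring L) (hV : ∀ q : ℚ, algebraMap ℚ L q ∈ V)
    (W : Submodule ℚ L) (γ : V.ValueGroup) : leS V hV W γ ≤ W := fun _ h => h.1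

private theorem ltS_le (V : ValuationSubring L) (hV : ∀ q : ℚ, algebraMap ℚ L q ∈ V)
    (W : Submodule ℚ L) (γ : V.ValueGroupˣ) : ltS V hV W γ ≤ W := fun _ h => h.1

private theorem finrank_le_of_le {A B : Submodule ℚ L} (h : A ≤ B)
    (hB : FiniteDimensional ℚ B) : finrank ℚ A ≤ finrank ℚ B := by
  haveI := hB
  exact Submodule.finrank_mono h

private theorem gr_le_aux (V : ValuationSubring L) (hV : ∀ q : ℚ, algebraMap ℚ L q ∈ V)
    (W : Submodule ℚ L) (hW : FiniteDimensional ℚ W) (C : Finset V.ValueGroupˣ) :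
    ∀ W' : Submodule ℚ L, W' ≤ W → (∀ c ∈ C, leS V hV W c ≤ W') →
      ∑ c ∈ C, grd V W c ≤ finrank ℚ W' := by
  classical
  induction C using Finset.induction_on_max with
  | empty => intro W' _ _; simp
  | insert m s hm ih =>
    intro W' hW' h
    rw [Finset.sum_insert (fun hmem => lt_irrefl _ (hm m hmem))]
    have h1 : ∑ c ∈ s, grd V W c ≤ finrank ℚ (ltS V hV W m) := by
      apply ih _ (ltS_le V hV W m)
      intro c hc w hw
      refine ⟨hw.1, lt_of_le_of_lt hw.2 ?_⟩
      exact_mod_cast hm c hc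
    have hfd : FiniteDimensional ℚ (leS V hV W m) :=
      Submodule.finiteDimensional_of_le (leS_le V hV W m)
    have hfd' : FiniteDimensional ℚ W' := Submodule.finiteDimensional_of_le hW'
    have h2 := finrank_le_of_le (lt_le_le V hV W m) hfd
    have h3 := finrank_le_of_le (h m (Finset.mem_insert_self _ _)) hfd'
    rw [grd_eq V hV]
    omega

theorem gr_le (V : ValuationSubring L) (hV : ∀ q : ℚ, algebraMap ℚ L q ∈ V)
    (W : Submodule ℚ L) (hW : FiniteDimensional ℚ W) (C : Finset V.ValueGroupˣ) :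
    ∑ c ∈ C, grd V W c ≤ finrank ℚ W :=
  gr_le_aux V hV W hW C W le_rfl fun c _ => leS_le V hV W c

private theorem one_le_grd (V : ValuationSubring L) (hV : ∀ q : ℚ, algebraMap ℚ L q ∈ V)
    (W : Submodule ℚ L) (hW : FiniteDimensional ℚ W) (c : V.ValueGroupˣ) (w : L) (hw : w ∈ W)
    (hc : V.valuation w = c) : 1 ≤ grd V W c := by
  rw [grd_eq V hV]
  have hfd : FiniteDimensional ℚ (leS V hV W c) :=
    Submodule.finiteDimensional_of_le (leS_le V hV W c)
  have hlt : ltS V hV W c < leS V hV W c := by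
    refine lt_of_le_of_ne (lt_le_le V hV W c) fun h => ?_
    have h1 : w ∈ leS V hV W c := ⟨hw, hc.le⟩
    rw [← h] at h1
    exact absurd h1.2 (by rw [hc]; exact lt_irrefl _)
  have := Submodule.finrank_lt_finrank_of_lt hlt
  omega

private theorem finite_values (V : ValuationSubring L) (hV : ∀ q : ℚ, algebraMap ℚ L q ∈ V)
    (W : Submodule ℚ L) (hW : FiniteDimensional ℚ W) :
    {c : V.ValueGroupˣ | ∃ w ∈ W, V.valuation w = c}.Finite := by
  by_contra hinf
  obtain ⟨C, hC, hcard⟩ := Set.Infinite.exists_subset_card_eq hinf (finrank ℚ W + 1)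
  have h1 := gr_le V hV W hW C
  have h2 : C.card • 1 ≤ ∑ c ∈ C, grd V W c := by
    apply Finset.card_nsmul_le_sum
    intro c hc
    obtain ⟨w, hw, hwc⟩ := hC hc
    exact one_le_grd V hV W hW c w hw hwc
  rw [smul_eq_mul, mul_one, hcard] at h2
  omega

theorem gr_exists (V : ValuationSubring L) (hV : ∀ q : ℚ, algebraMap ℚ L q ∈ V)
    (W : Submodule ℚ L) (hW : FiniteDimensional ℚ W) :
    ∃ A : Finset V.ValueGroupˣ, (∀ a ∈ A, ∃ w ∈ W, V.valuation w = a) ∧
      ∑ a ∈ A, grd V W a = finrank ℚ W := by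
  classical
  obtain ⟨d, hd⟩ : ∃ d, finrank ℚ W = d := ⟨_, rfl⟩
  induction d using Nat.strong_induction_on generalizing W with
  | _ d ih =>
    by_cases h0 : W = ⊥
    · refine ⟨∅, by simp, ?_⟩
      subst h0
      simp
    · obtain ⟨w0, hw0, hne⟩ := Submodule.exists_mem_ne_zero_of_ne_bot h0
      set U : Set V.ValueGroupˣ := {c | ∃ w ∈ W, V.valuation w = c} with hU
      have hfin : U.Finite := finite_values V hV W hW
      have hval : ∀ w ∈ W, w ≠ 0 → ∃ c ∈ U, V.valuation w = c := by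
        intro w hw hw0
        have : V.valuation w ≠ 0 := (Valuation.ne_zero_iff _).2 hw0
        exact ⟨Units.mk0 _ this, ⟨w, hw, rfl⟩, rfl⟩
      obtain ⟨c0, hc0, -⟩ := hval w0 hw0 hne
      obtain ⟨γ, hγU, hγ⟩ := Set.exists_max_image U id hfin ⟨c0, hc0⟩
      obtain ⟨w1, hw1, hw1γ⟩ := hγU
      have hall : leS V hV W γ = W := by
        refine le_antisymm (leS_le V hV W γ) fun w hw => ⟨hw, ?_⟩
        by_cases hw0 : w = 0
        · rw [hw0, map_zero]; exact zero_le'
        · obtain ⟨c, hcU, hc⟩ := hval w hw hw0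
          rw [hc]
          exact_mod_cast hγ c hcU
      have hfd : FiniteDimensional ℚ (ltS V hV W γ) :=
        Submodule.finiteDimensional_of_le (ltS_le V hV W γ)
      have hlt : ltS V hV W γ < W := by
        refine lt_of_le_of_ne (ltS_le V hV W γ) fun h => ?_
        have h1 : w1 ∈ ltS V hV W γ := by rw [h]; exact hw1
        exact absurd h1.2 (by rw [hw1γ]; exact lt_irrefl _)
      have hlt' := Submodule.finrank_lt_finrank_of_lt hlt
      obtain ⟨A1, hA1, hsum⟩ := ih _ (by omega) (ltS V hV W γ) hfd rfl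
      have hA1γ : ∀ a ∈ A1, a < γ := by
        intro a ha
        obtain ⟨w, hw, hwa⟩ := hA1 a ha
        have := hw.2
        rw [hwa] at this
        exact_mod_cast this
      refine ⟨insert γ A1, ?_, ?_⟩
      · intro a ha
        rcases Finset.mem_insert.1 ha with rfl | ha
        · exact ⟨w1, hw1, hw1γ⟩
        · obtain ⟨w, hw, hwa⟩ := hA1 a ha
          exact ⟨w, hw.1, hwa⟩
      · rw [Finset.sum_insert (fun hmem => lt_irrefl _ (hA1γ γ hmem))]
        have hsame : ∑ a ∈ A1, grd V W a = ∑ a ∈ A1, grd V (ltS V hV W γ) a := by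
          apply Finset.sum_congr rfl
          intro a ha
          have haγ : (a : V.ValueGroup) < γ := by exact_mod_cast hA1γ a ha
          rw [grd_eq V hV, grd_eq V hV]
          have e1 : leS V hV (ltS V hV W γ) a = leS V hV W a := by
            ext w
            constructor
            · rintro ⟨h1, h2⟩
              exact ⟨h1.1, h2⟩
            · rintro ⟨h1, h2⟩
              exact ⟨⟨h1, lt_of_le_of_lt h2 haγ⟩, h2⟩
          have e2 : ltS V hV (ltS V hV W γ) a = ltS V hV W a := by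
            ext w
            constructor
            · rintro ⟨h1, h2⟩
              exact ⟨h1.1, h2⟩
            · rintro ⟨h1, h2⟩
              exact ⟨⟨h1, h2.trans haγ⟩, h2⟩
          rw [e1, e2]
        rw [hsame, hsum, grd_eq V hV, hall]
        omega

theorem gr_mul (V : ValuationSubring L) (hV : ∀ q : ℚ, algebraMap ℚ L q ∈ V)
    (W W' : Submodule ℚ L) (hW' : FiniteDimensional ℚ W') (u : L) (a b : V.ValueGroupˣ)
    (hu : V.valuation u = b) (h : ∀ w ∈ W, u * w ∈ W') :
    grd V W a ≤ grd V W' (a * b : V.ValueGroupˣ) := by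
  have hu0 : u ≠ 0 := by
    intro h0
    rw [h0, map_zero] at hu
    exact b.ne_zero hu.symm
  rw [grd_eq V hV, grd_eq V hV]
  set f : L →ₗ[ℚ] L := LinearMap.mulLeft ℚ u with hf
  have hinj : Function.Injective f := by
    intro x y hxy
    exact mul_left_cancel₀ hu0 hxy
  have hfd : FiniteDimensional ℚ (leS V hV W' (a * b : V.ValueGroupˣ)) :=
    Submodule.finiteDimensional_of_le (leS_le V hV W' _)
  have hfd' : FiniteDimensional ℚ (ltS V hV W' (a * b : V.ValueGroupˣ)) :=
    Submodule.finiteDimensional_of_le (ltS_le V hV W' _)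
  have hbpos : (0 : V.ValueGroup) < b := zero_lt_iff.2 b.ne_zero
  have hmap : (leS V hV W a).map f ≤ leS V hV W' (a * b : V.ValueGroupˣ) := by
    rintro _ ⟨w, hw, rfl⟩
    refine ⟨h w hw.1, ?_⟩
    change V.valuation (u * w) ≤ _
    rw [map_mul, hu, mul_comm, Units.val_mul]
    exact mul_le_mul_left hw.2 _
  have hinf : (leS V hV W a).map f ⊓ ltS V hV W' (a * b : V.ValueGroupˣ) ≤
      (ltS V hV W a).map f := by
    rintro _ ⟨⟨w, hw, rfl⟩, hlt⟩
    refine ⟨w, ⟨hw.1, ?_⟩, rfl⟩
    have h1 : V.valuation (u * w) < ((a * b : V.ValueGroupˣ) : V.ValueGroup) := hlt.2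
    rw [map_mul, hu, mul_comm, Units.val_mul] at h1
    exact lt_of_mul_lt_mul_right' h1
  haveI : FiniteDimensional ℚ ((leS V hV W a).map f) :=
    Submodule.finiteDimensional_of_le hmap
  have h1 := Submodule.finrank_sup_add_finrank_inf_eq ((leS V hV W a).map f)
    (ltS V hV W' (a * b : V.ValueGroupˣ))
  have h2 : finrank ℚ ((leS V hV W a).map f ⊔ ltS V hV W' (a * b : V.ValueGroupˣ) :
      Submodule ℚ L) ≤ finrank ℚ (leS V hV W' (a * b : V.ValueGroupˣ)) :=
    finrank_le_of_le (sup_le hmap (lt_le_le V hV W' _)) hfd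
  have hfd2 : FiniteDimensional ℚ ((ltS V hV W a).map f) :=
    Submodule.finiteDimensional_of_le
      ((Submodule.map_mono (lt_le_le V hV W a)).trans hmap)
  have h3 := finrank_le_of_le hinf hfd2
  have h4 : finrank ℚ ((leS V hV W a).map f) = finrank ℚ (leS V hV W a) :=
    (LinearEquiv.finrank_eq (Submodule.equivMapOfInjective f hinj _)).symm
  have h5 : finrank ℚ ((ltS V hV W a).map f) = finrank ℚ (ltS V hV W a) :=
    (LinearEquiv.finrank_eq (Submodule.equivMapOfInjective f hinj _)).symm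
  omega

end NF44
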