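import Pool.Agent.Lib.NF44.Mon

/-!
MP_44a56e_nt, module HilB: basic properties of the Hilbert function.
-/

set_option autoImplicit false

open MvPolynomial Module NumberField

namespace NF44

private lemma finite_dle (r j : ℕ) : Module.Finite ℚ (restrictTotalDegree (Fin r) ℚ j) := by
  rw [dle_eq]
  exact Module.Finite.of_basis
    (basisRestrictSupport ℚ ((mon r j : Finset (Fin r →₀ ℕ)) : Set (Fin r →₀ ℕ)))

private lemma finite_map {r : ℕ} (P : Ideal (PR r)) (j : ℕ) :
    Module.Finite ℚ ((restrictTotalDegree (Fin r) ℚ j).map (Ideal.Quotient.mkₐ ℚ P).toLinearMap) := by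
  have := finite_dle r j
  infer_instance

theorem hil_mono {r : ℕ} (P : Ideal (PR r)) : Monotone (hil P) := by
  intro i j hij
  have := finite_map P j
  unfold hil
  refine Submodule.finrank_mono (Submodule.map_mono ?_)
  intro p hp
  rw [mem_restrictTotalDegree] at hp ⊢
  exact hp.trans hij

theorem hil_ge {r : ℕ} (P : Ideal (PR r)) (Z : Finset (Fin r)) (j : ℕ)
    (h : ∀ G ∈ supported ℚ (Z : Set (Fin r)), G.totalDegree ≤ j → G ∈ P → G = 0) :
    (Z.card + j).choose Z.card ≤ hil P j := by
  have := finite_map P j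
  rw [← finrank_sup r j Z]
  set W : Submodule ℚ (PR r) := restrictTotalDegree (Fin r) ℚ j ⊓
      Subalgebra.toSubmodule (supported ℚ (Z : Set (Fin r))) with hW
  set φ := (Ideal.Quotient.mkₐ ℚ P).toLinearMap with hφ
  have hinj : Function.Injective (φ.domRestrict W) := by
    rw [← LinearMap.ker_eq_bot, LinearMap.ker_eq_bot']
    rintro ⟨G, hG⟩ hG0
    have h1 : G ∈ P := by
      have : Ideal.Quotient.mk P G = 0 := hG0
      exact Ideal.Quotient.eq_zero_iff_mem.1 this
    have h2 := h G hG.2 ((mem_restrictTotalDegree _ _ _).1 hG.1) h1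
    exact Subtype.ext h2
  have h3 : finrank ℚ W = finrank ℚ (W.map φ) := by
    rw [← LinearMap.finrank_range_of_inj hinj, LinearMap.range_domRestrict]
  rw [h3]
  unfold hil
  exact Submodule.finrank_mono (Submodule.map_mono inf_le_left)

theorem hil_low {n r S : ℕ} (P : Ideal (PR r)) (α : Fin r → Zb) (hα : α ∈ TS n r S)
    (h : P ≤ Mi α) : (2 * r).choose r ≤ hil P r := by
  have h1 := hil_ge P (Finset.univ : Finset (Fin r)) r
    (fun G _ hG hP => hα.2.2 G hG (h hP))
  rw [Finset.card_univ, Fintype.card_fin] at h1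
  rw [two_mul]
  exact h1

end NF44
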