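import Pool.Agent.Lib.NF44.GField
import Pool.Agent.Lib.NF44.HilB

/-!
MP_44a56e_nt, module Growth: growth of the Hilbert function of a prime ideal.
-/

set_option autoImplicit false

open MvPolynomial Module NumberField

namespace NF44

theorem growth {r : ℕ} (P : Ideal (PR r)) (hP : P.IsPrime) (Y : Finset (Fin r))
    (hY : Ind P Y) (j : ℕ) : 2 ^ Y.card * hil P j ≤ hil P (2 * j + Y.card) := by
  classical
  let ψ : (PR r ⧸ P) →ₐ[ℚ] FractionRing (PR r ⧸ P) :=
    IsScalarTower.toAlgHom ℚ (PR r ⧸ P) (FractionRing (PR r ⧸ P))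
  have hψ : Function.Injective ψ := IsFractionRing.injective (PR r ⧸ P) (FractionRing (PR r ⧸ P))
  let φ : PR r →ₐ[ℚ] FractionRing (PR r ⧸ P) := ψ.comp (Ideal.Quotient.mkₐ ℚ P)
  have hφ : ∀ G : PR r, φ G = 0 → G ∈ P := by
    intro G hG
    have h1 : ψ (Ideal.Quotient.mkₐ ℚ P G) = ψ 0 := by
      rw [map_zero]
      exact hG
    exact Ideal.Quotient.eq_zero_iff_mem.1 (hψ h1)
  have hfin : ∀ k, FiniteDimensional ℚ (restrictTotalDegree (Fin r) ℚ k) := by
    intro k
    apply Module.finite_of_finrank_pos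
    rw [finrank_dle]
    exact Nat.choose_pos (Nat.le_add_right _ _)
  let W : ℕ → Submodule ℚ (FractionRing (PR r ⧸ P)) := fun k =>
    (restrictTotalDegree (Fin r) ℚ k).map φ.toLinearMap
  have hWfin : ∀ k, FiniteDimensional ℚ (W k) := by
    intro k
    have := hfin k
    infer_instance
  have hWr : ∀ k, finrank ℚ (W k) = hil P k := by
    intro k
    have h2 : W k = ((restrictTotalDegree (Fin r) ℚ k).map
        (Ideal.Quotient.mkₐ ℚ P).toLinearMap).map ψ.toLinearMap := by
      rw [← Submodule.map_comp]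
      rfl
    rw [h2]
    exact (LinearEquiv.finrank_eq (Submodule.equivMapOfInjective ψ.toLinearMap hψ _)).symm
  let e := Y.equivFin.symm
  let f : Fin Y.card → Fin r := fun i => (e i : Fin r)
  have hf : Function.Injective f := Subtype.val_injective.comp e.injective
  let y : Fin Y.card → FractionRing (PR r ⧸ P) := fun i => φ (X (f i))
  have hy : AlgebraicIndependent ℚ y := by
    rw [algebraicIndependent_iff]
    intro p hp
    have h3 : aeval y p = φ (rename f p) := by
      have h4 : (aeval y : MvPolynomial (Fin Y.card) ℚ →ₐ[ℚ] _) = φ.comp (rename f) := by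
        apply MvPolynomial.algHom_ext
        intro i
        simp [y]
      rw [h4]
      rfl
    have h5 : rename f p ∈ P := hφ _ (by rw [← h3]; exact hp)
    have h6 : rename f p ∈ supported ℚ (Y : Set (Fin r)) := by
      rw [mem_supported]
      intro i hi
      have h7 := vars_rename f p hi
      rw [Finset.mem_image] at h7
      obtain ⟨k, -, rfl⟩ := h7
      exact (e k).2
    exact rename_injective f hf (by rw [hY _ h6 h5, map_zero])
  rw [← hWr, ← hWr]
  refine growth_field y hy (W j) (W (2 * j + Y.card)) (hWfin _) (hWfin _) ?_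
  rintro _ ⟨a, ha, rfl⟩ _ ⟨b, hb, rfl⟩ s
  refine ⟨a * b * ∏ i ∈ s, X (f i), ?_, ?_⟩
  · have ha' : a.totalDegree ≤ j := (mem_restrictTotalDegree _ _ _).1 ha
    have hb' : b.totalDegree ≤ j := (mem_restrictTotalDegree _ _ _).1 hb
    refine (mem_restrictTotalDegree _ _ _).2 ?_
    have h8 : (∏ i ∈ s, (X (f i) : PR r)).totalDegree ≤ s.card := by
      refine (totalDegree_finsetProd _ _).trans ?_
      simp
    have h9 : s.card ≤ Y.card := by
      simpa using Finset.card_le_univ s
    calc (a * b * ∏ i ∈ s, (X (f i) : PR r)).totalDegree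
        ≤ (a * b).totalDegree + (∏ i ∈ s, (X (f i) : PR r)).totalDegree := totalDegree_mul _ _
      _ ≤ (a.totalDegree + b.totalDegree) + s.card :=
          Nat.add_le_add (totalDegree_mul _ _) h8
      _ ≤ 2 * j + Y.card := by omega
  · show φ (a * b * ∏ i ∈ s, X (f i)) = _
    rw [map_mul, map_mul, map_prod]
    rfl

end NF44
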