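import Pool.Agent.Lib.NF44.HilB

/-!
MP_44a56e_nt, module HilUp (about 220 lines): an upper bound for the Hilbert function.

PROOF of `hil_up`. For `z ∉ Y` let `F_z ∈ P` be the relation in the variables `Y ∪ {z}`, `deg ≤ D`, `F_z ≠ 0`; write `F_z = ∑_{i ≤ d_z} c_i(Y) z^i` with `a_z = c_(d_z) ≠ 0` in `ℚ[Y]`, `d_z ≤ D`; `d_z ≥ 1` because `Y` is independent mod `P`.
All `c_i` have degree `≤ D`. In `R = PR r ⧸ P` (a domain): (*) for every `e` the element `a_z^e z^e` is a combination `∑_{i<d_z} g_i(Y) z^i` with `g_i ∈ ℚ[Y]` of degree `≤ D e`. Induction on `e`: `e = 0` clear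
(`1`, `d_z ≥ 1`); `a_z^(e+1) z^(e+1) = ∑_i a_z g_i z^(i+1)`, and for `i + 1 = d_z` use `a_z z^(d_z) = - ∑_{i<d_z} c_i z^i`. So for a monomial `Y^u ∏_{z∉Y} z^(e_z)` of degree `≤ j` and `a = ∏_{z ∉ Y} a_z`:
`a^j Y^u ∏ z^(e_z) = Y^u ∏_z a_z^(j - e_z) (a_z^(e_z) z^(e_z))` is in the span of the `Y^c ∏_z z^(i_z)`, `|c| ≤ j + r D j`, `i_z ≤ D` [degree in `Y`: `|u| + ∑_z (D (j-e_z) + D e_z) ≤ j + r D j`]. These
elements number at most `choose (|Y| + j + rDj) |Y| * (D+1)^r` (`card_monZ` of Mon). Multiplication by `a^j` is injective on the domain `R` (`a ∉ P`: `P` prime, `a_z ∉ P` as `Y` is independent), so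
`hil P j` = dimension of the image of `a^j R_j` is at most that number (`finrank_span_le_card`).
HINT: to avoid choosing coefficients one can prove the following: let `M k E` = the `ℚ`-span in `R` of the `g(Y) ∏_z z^(i_z)`, `deg g ≤ k`, `i_z ≤ D` for `z ∈ E`, and treat the variables `z` one at a time.
-/

set_option autoImplicit false

open MvPolynomial Module NumberField

namespace NF44

variable {r : ℕ}

/-- Exponents of degree at most `k` in `Y`, at most `D` in each variable of `E`, without other
variables. -/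
private def Sx (Y E : Finset (Fin r)) (D k : ℕ) : Set (Fin r →₀ ℕ) :=
  {I | ∑ y ∈ Y, I y ≤ k ∧ (∀ z ∈ E, I z ≤ D) ∧ ∀ z, z ∉ Y → z ∉ E → I z = 0}

/-- Exponents of degree at most `k` in `Y`, less than `d` in `z`, without other variables. -/
private def Tx (Y : Finset (Fin r)) (z : Fin r) (k d : ℕ) : Set (Fin r →₀ ℕ) :=
  {I | ∑ y ∈ Y, I y ≤ k ∧ I z < d ∧ ∀ w, w ∉ Y → w ≠ z → I w = 0}

open scoped Pointwise in
private theorem rs_mul {s t u : Set (Fin r →₀ ℕ)} {p q : PR r}
    (hp : p ∈ restrictSupport ℚ s) (hq : q ∈ restrictSupport ℚ t)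
    (h : ∀ I ∈ s, ∀ J ∈ t, I + J ∈ u) : p * q ∈ restrictSupport ℚ u := by
  have h1 : p * q ∈ restrictSupport ℚ (s + t) := by
    rw [restrictSupport_add]
    exact Submodule.mul_mem_mul hp hq
  refine restrictSupport_mono ℚ ?_ h1
  rintro _ ⟨I, hI, J, hJ, rfl⟩
  exact h I hI J hJ

private theorem rsP_mul {P : Ideal (PR r)} {s t u : Set (Fin r →₀ ℕ)} {p q : PR r}
    (hp : p ∈ restrictSupport ℚ s ⊔ P.restrictScalars ℚ)
    (hq : q ∈ restrictSupport ℚ t ⊔ P.restrictScalars ℚ)
    (h : ∀ I ∈ s, ∀ J ∈ t, I + J ∈ u) :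
    p * q ∈ restrictSupport ℚ u ⊔ P.restrictScalars ℚ := by
  obtain ⟨p1, hp1, p2, hp2, rfl⟩ := Submodule.mem_sup.1 hp
  obtain ⟨q1, hq1, q2, hq2, rfl⟩ := Submodule.mem_sup.1 hq
  refine Submodule.mem_sup.2 ⟨p1 * q1, rs_mul hp1 hq1 h, p1 * q2 + p2 * (q1 + q2), ?_, by ring⟩
  exact P.add_mem (P.mul_mem_left _ hq2) (P.mul_mem_right _ hp2)

/-- Leading coefficient of the relation. -/
private theorem lead (D : ℕ) (P : Ideal (PR r)) (Y : Finset (Fin r)) (hY : Ind P Y) (z : Fin r)
    (hzY : z ∉ Y) (hz : Dep P (insert z Y) D) :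
    ∃ (d : ℕ) (a G : PR r), 1 ≤ d ∧ d ≤ D ∧ a ∈ restrictSupport ℚ (Tx Y z D 1) ∧ a ∉ P ∧
      G ∈ restrictSupport ℚ (Tx Y z D d) ∧ a * X z ^ d + G ∈ P := by
  classical
  obtain ⟨F, hF1, hF0, hFP, hFD⟩ := hz
  -- the exponents of `F`
  have hsupp : ∀ I ∈ F.support, ∀ w, w ∉ Y → w ≠ z → I w = 0 := by
    intro I hI w hw hwz
    by_contra hne
    have h1 : w ∈ F.vars := (mem_vars_iff_mem_support w).2 ⟨I, hI, Finsupp.mem_support_iff.2 hne⟩
    have h2 := mem_supported.1 hF1 h1
    rw [Finset.mem_coe, Finset.mem_insert] at h2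
    rcases h2 with h2 | h2
    · exact hwz h2
    · exact hw h2
  have hdeg : ∀ I ∈ F.support, I.degree ≤ D := by
    intro I hI
    have h1 := le_totalDegree hI
    rw [Finsupp.degree_apply]
    exact h1.trans hFD
  have hYz : ∀ I : Fin r →₀ ℕ, ∑ y ∈ Y, I y + I z ≤ I.degree := by
    intro I
    rw [Finsupp.degree_eq_sum]
    calc ∑ y ∈ Y, I y + I z = ∑ y ∈ insert z Y, I y := by
          rw [Finset.sum_insert hzY, add_comm]
      _ ≤ ∑ y, I y := Finset.sum_le_sum_of_subset (Finset.subset_univ _)
  have hne : F.support.Nonempty := support_nonempty.2 hF0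
  obtain ⟨I0, hI0, hmax⟩ := Finset.exists_max_image F.support (fun I => I z) hne
  set d := I0 z with hd
  set a : PR r := ∑ I ∈ F.support.filter (fun I => I z = d),
    monomial (I.erase z) (coeff I F) with ha
  set G : PR r := ∑ I ∈ F.support.filter (fun I => ¬ I z = d),
    monomial I (coeff I F) with hG
  have haX : a * X z ^ d = ∑ I ∈ F.support.filter (fun I => I z = d),
      monomial I (coeff I F) := by
    rw [ha, Finset.sum_mul]
    refine Finset.sum_congr rfl fun I hI => ?_
    rw [Finset.mem_filter] at hI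
    rw [X_pow_eq_monomial, monomial_mul, mul_one,
      show I.erase z + Finsupp.single z d = I by
        rw [← hI.2]
        exact Finsupp.erase_add_single z I]
  have hsum : a * X z ^ d + G = F := by
    rw [haX, hG, Finset.sum_filter_add_sum_filter_not]
    exact support_sum_monomial_coeff F
  have herY : ∀ I : Fin r →₀ ℕ, ∑ y ∈ Y, (I.erase z) y = ∑ y ∈ Y, I y := by
    intro I
    refine Finset.sum_congr rfl fun y hy => ?_
    rw [Finsupp.erase_ne]
    rintro rfl
    exact hzY hy
  have haT : a ∈ restrictSupport ℚ (Tx Y z D 1) := by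
    rw [ha]
    refine Submodule.sum_mem _ fun I hI => ?_
    rw [Finset.mem_filter] at hI
    rw [monomial_mem_restrictSupport]
    left
    refine ⟨?_, ?_, ?_⟩
    · rw [herY]
      have := hdeg I hI.1
      have := hYz I
      omega
    · rw [Finsupp.erase_same]
      exact Nat.one_pos
    · intro w hw hwz
      rw [Finsupp.erase_ne hwz]
      exact hsupp I hI.1 w hw hwz
  have hGT : G ∈ restrictSupport ℚ (Tx Y z D d) := by
    rw [hG]
    refine Submodule.sum_mem _ fun I hI => ?_
    rw [Finset.mem_filter] at hI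
    rw [monomial_mem_restrictSupport]
    left
    refine ⟨?_, ?_, ?_⟩
    · have := hdeg I hI.1
      have := hYz I
      omega
    · exact lt_of_le_of_ne (hmax I hI.1) hI.2
    · exact hsupp I hI.1
  have ha0 : a ≠ 0 := by
    intro h0
    have h1 : coeff I0 (a * X z ^ d) = coeff I0 F := by
      rw [haX, coeff_sum, Finset.sum_eq_single I0]
      · rw [coeff_monomial, if_pos rfl]
      · intro I _ hne
        rw [coeff_monomial, if_neg hne]
      · intro h
        exact absurd (Finset.mem_filter.2 ⟨hI0, hd.symm⟩ :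
          I0 ∈ F.support.filter (fun I => I z = d)) h
    rw [h0, zero_mul, coeff_zero] at h1
    exact (mem_support_iff.1 hI0) h1.symm
  have haY : a ∈ supported ℚ (Y : Set (Fin r)) := by
    rw [mem_supported]
    intro w hw
    obtain ⟨J, hJ, hwJ⟩ := (mem_vars_iff_mem_support w).1 hw
    have h1 := ((mem_restrictSupport_iff ℚ).1 haT) hJ
    obtain ⟨_, h2, h3⟩ := h1
    by_contra hwY
    rw [Finsupp.mem_support_iff] at hwJ
    by_cases hwz : w = z
    · subst hwz
      omega
    · exact hwJ (h3 w hwY hwz)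
  have haP : a ∉ P := fun h => ha0 (hY a haY h)
  refine ⟨d, a, G, ?_, ?_, haT, haP, hGT, ?_⟩
  · by_contra hd0
    have hd1 : d = 0 := by omega
    have h1 : G = 0 := by
      rw [hd1] at hGT
      have h2 : Tx Y z D 0 = ∅ := by
        ext I
        simp [Tx]
      rw [h2, mem_restrictSupport_iff] at hGT
      exact support_eq_empty.1 (Finset.coe_eq_empty.1 (Set.subset_empty_iff.1 hGT))
    rw [h1, hd1, pow_zero, mul_one, add_zero] at hsum
    exact haP (hsum ▸ hFP)
  · have := hdeg I0 hI0
    have := hYz I0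
    omega
  · rw [hsum]
    exact hFP

/-- The powers of one variable. -/
private theorem powz (D : ℕ) (P : Ideal (PR r)) (Y : Finset (Fin r)) (hY : Ind P Y) (z : Fin r)
    (hzY : z ∉ Y) (hz : Dep P (insert z Y) D) :
    ∃ a : PR r, a ∉ P ∧ ∀ j e : ℕ, e ≤ j →
      a ^ j * X z ^ e ∈ restrictSupport ℚ (Sx Y {z} D (D * j)) ⊔ P.restrictScalars ℚ := by
  classical
  obtain ⟨d, a, G, hd1, hdD, haT, haP, hGT, hrel⟩ := lead D P Y hY z hzY hz
  refine ⟨a, haP, ?_⟩
  have step : ∀ (k : ℕ) (h : PR r), h ∈ restrictSupport ℚ (Tx Y z k d) ⊔ P.restrictScalars ℚ →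
      a * X z * h ∈ restrictSupport ℚ (Tx Y z (k + D) d) ⊔ P.restrictScalars ℚ := by
    intro k h hh
    have h1 : restrictSupport ℚ (Tx Y z k d) ⊔ P.restrictScalars ℚ ≤
        (restrictSupport ℚ (Tx Y z (k + D) d) ⊔ P.restrictScalars ℚ).comap
          (LinearMap.mulLeft ℚ (a * X z)) := by
      refine sup_le ?_ ?_
      · rw [restrictSupport_eq_span, Submodule.span_le]
        rintro _ ⟨I, hI, rfl⟩
        rw [SetLike.mem_coe, Submodule.mem_comap, LinearMap.mulLeft_apply]
        obtain ⟨hI1, hI2, hI3⟩ := hI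
        by_cases hlt : I z + 1 < d
        · refine Submodule.mem_sup_left ?_
          have e1 : a * X z * monomial I (1 : ℚ) = a * monomial (I + Finsupp.single z 1) 1 := by
            rw [mul_assoc]
            congr 1
            rw [X, monomial_mul, one_mul, add_comm]
          rw [e1]
          refine rs_mul (t := {I + Finsupp.single z 1}) haT ?_ ?_
          · rw [monomial_mem_restrictSupport]
            left
            rfl
          · rintro J ⟨hJ1, hJ2, hJ3⟩ _ rfl
            refine ⟨?_, ?_, ?_⟩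
            · have e2 : ∑ y ∈ Y, (J + (I + Finsupp.single z 1) : Fin r →₀ ℕ) y =
                  ∑ y ∈ Y, J y + ∑ y ∈ Y, I y := by
                rw [← Finset.sum_add_distrib]
                refine Finset.sum_congr rfl fun y hy => ?_
                have h6 : z ≠ y := by
                  rintro rfl
                  exact hzY hy
                rw [Finsupp.add_apply, Finsupp.add_apply, Finsupp.single_apply, if_neg h6,
                  add_zero]
              rw [e2]
              omega
            · rw [Finsupp.add_apply, Finsupp.add_apply, Finsupp.single_eq_same]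
              omega
            · intro w hw hwz
              have h7 : (Finsupp.single z 1 : Fin r →₀ ℕ) w = 0 := by
                rw [Finsupp.single_apply, if_neg (fun h => hwz h.symm)]
              simp [Finsupp.add_apply, hJ3 w hw hwz, hI3 w hw hwz, h7]
        · have hIz : I z + 1 = d := by omega
          have e1 : a * X z * monomial I (1 : ℚ) =
              (-G) * monomial (I.erase z) 1 + (a * X z ^ d + G) * monomial (I.erase z) 1 := by
            have e2 : X z * monomial I (1 : ℚ) = X z ^ d * monomial (I.erase z) (1 : ℚ) := by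
              rw [X_pow_eq_monomial, X, monomial_mul, monomial_mul]
              congr 1
              rw [← hIz]
              conv_lhs => rw [← Finsupp.erase_add_single z I]
              rw [add_comm (I z) 1, Finsupp.single_add]
              abel
            rw [mul_assoc, e2]
            ring
          rw [e1]
          refine Submodule.mem_sup.2 ⟨_, ?_, _, P.mul_mem_right _ hrel, rfl⟩
          refine rs_mul (t := {I.erase z}) (Submodule.neg_mem _ hGT) ?_ ?_
          · rw [monomial_mem_restrictSupport]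
            left
            rfl
          · rintro J ⟨hJ1, hJ2, hJ3⟩ _ rfl
            refine ⟨?_, ?_, ?_⟩
            · have e2 : ∑ y ∈ Y, (J + I.erase z : Fin r →₀ ℕ) y = ∑ y ∈ Y, J y + ∑ y ∈ Y, I y := by
                rw [← Finset.sum_add_distrib]
                refine Finset.sum_congr rfl fun y hy => ?_
                have : y ≠ z := by
                  rintro rfl
                  exact hzY hy
                rw [Finsupp.add_apply, Finsupp.erase_ne this]
              rw [e2]
              omega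
            · rw [Finsupp.add_apply, Finsupp.erase_same]
              omega
            · intro w hw hwz
              rw [Finsupp.add_apply, Finsupp.erase_ne hwz, hJ3 w hw hwz, hI3 w hw hwz]
      · intro x hx
        rw [Submodule.mem_comap, LinearMap.mulLeft_apply]
        exact Submodule.mem_sup_right (P.mul_mem_left _ hx)
    exact h1 hh
  have hpow : ∀ e : ℕ, a ^ e * X z ^ e ∈
      restrictSupport ℚ (Tx Y z (D * e) d) ⊔ P.restrictScalars ℚ := by
    intro e
    induction e with
    | zero =>
      refine Submodule.mem_sup_left ?_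
      rw [pow_zero, pow_zero, mul_one, ← C_1, ← monomial_zero', monomial_mem_restrictSupport]
      left
      refine ⟨by simp, ?_, by simp⟩
      rw [Finsupp.zero_apply]
      omega
    | succ e ih =>
      have e1 : a ^ (e + 1) * X z ^ (e + 1) = a * X z * (a ^ e * X z ^ e) := by ring
      rw [e1]
      exact step _ _ ih
  have hSz : ∀ (k : ℕ) (I : Fin r →₀ ℕ), ∑ y ∈ Y, I y ≤ k → I z ≤ D →
      (∀ w, w ∉ Y → w ≠ z → I w = 0) → I ∈ Sx Y {z} D k := by
    intro k I h1 h2 h3
    refine ⟨h1, ?_, ?_⟩
    · intro w hw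
      rw [Finset.mem_singleton] at hw
      rw [hw]
      exact h2
    · intro w hw hwz
      exact h3 w hw (fun h => hwz (Finset.mem_singleton.2 h))
  have hapow : ∀ m : ℕ, a ^ m ∈ restrictSupport ℚ (Tx Y z (D * m) 1) := by
    intro m
    induction m with
    | zero =>
      rw [pow_zero, ← C_1, ← monomial_zero', monomial_mem_restrictSupport]
      left
      refine ⟨by simp, by simp, by simp⟩
    | succ m ih =>
      rw [pow_succ]
      refine rs_mul ih haT ?_
      rintro I ⟨hI1, hI2, hI3⟩ J ⟨hJ1, hJ2, hJ3⟩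
      refine ⟨?_, ?_, ?_⟩
      · simp only [Finsupp.add_apply, Finset.sum_add_distrib]
        rw [mul_add, mul_one]
        omega
      · rw [Finsupp.add_apply]
        omega
      · intro w hw hwz
        rw [Finsupp.add_apply, hI3 w hw hwz, hJ3 w hw hwz]
  intro j e hej
  have e1 : a ^ j * X z ^ e = a ^ (j - e) * (a ^ e * X z ^ e) := by
    rw [← mul_assoc, ← pow_add]
    congr 2
    omega
  rw [e1]
  refine rsP_mul (Submodule.mem_sup_left (hapow (j - e))) (hpow e) ?_
  rintro I ⟨hI1, hI2, hI3⟩ J ⟨hJ1, hJ2, hJ3⟩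
  refine hSz _ _ ?_ ?_ ?_
  · simp only [Finsupp.add_apply, Finset.sum_add_distrib]
    have h5 : D * (j - e) + D * e = D * j := by
      rw [← mul_add]
      congr 1
      omega
    omega
  · rw [Finsupp.add_apply]
    omega
  · intro w hw hwz
    rw [Finsupp.add_apply, hI3 w hw hwz, hJ3 w hw hwz]

private theorem prodz (D k : ℕ) (P : Ideal (PR r)) (Y : Finset (Fin r)) (q : Fin r → PR r)
    (E : Finset (Fin r)) (hE : ∀ z ∈ E, z ∉ Y)
    (hq : ∀ z ∈ E, q z ∈ restrictSupport ℚ (Sx Y {z} D k) ⊔ P.restrictScalars ℚ) :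
    ∏ z ∈ E, q z ∈ restrictSupport ℚ (Sx Y E D (E.card * k)) ⊔ P.restrictScalars ℚ := by
  classical
  induction E using Finset.induction_on with
  | empty =>
    refine Submodule.mem_sup_left ?_
    rw [Finset.prod_empty, ← C_1, ← monomial_zero', monomial_mem_restrictSupport]
    left
    refine ⟨by simp, by simp, by simp⟩
  | insert z E hzE ih =>
    rw [Finset.prod_insert hzE]
    refine rsP_mul (hq z (Finset.mem_insert_self z E))
      (ih (fun w hw => hE w (Finset.mem_insert_of_mem hw))
        (fun w hw => hq w (Finset.mem_insert_of_mem hw))) ?_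
    rintro I ⟨hI1, hI2, hI3⟩ J ⟨hJ1, hJ2, hJ3⟩
    have hzY := hE z (Finset.mem_insert_self z E)
    refine ⟨?_, ?_, ?_⟩
    · simp only [Finsupp.add_apply, Finset.sum_add_distrib]
      rw [Finset.card_insert_of_notMem hzE, add_mul, one_mul]
      omega
    · intro w hw
      rw [Finsupp.add_apply]
      rcases Finset.mem_insert.1 hw with hwz | hwE
      · rw [hwz, hJ3 z hzY hzE, add_zero]
        exact hI2 z (Finset.mem_singleton_self z)
      · have h1 : w ≠ z := fun h => hzE (h ▸ hwE)
        rw [hI3 w (hE w hw) (fun h => h1 (Finset.mem_singleton.1 h)), zero_add]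
        exact hJ2 w hwE
    · intro w hw hwE
      rw [Finsupp.add_apply, hI3 w hw (fun h => hwE (by
        rw [Finset.mem_singleton.1 h]
        exact Finset.mem_insert_self _ _)), hJ3 w hw (fun h => hwE (Finset.mem_insert_of_mem h))]

private theorem countx (Y : Finset (Fin r)) (D k : ℕ) :
    ∃ F : Finset (Fin r →₀ ℕ), Sx Y Yᶜ D k ⊆ (F : Set (Fin r →₀ ℕ)) ∧
      F.card ≤ (D + 1) ^ r * (Y.card + k).choose Y.card := by
  classical
  let A : Finset (Fin r →₀ ℕ) := (mon r k).filter (fun I => I.support ⊆ Y)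
  let B : Finset (Fin r → ℕ) := Fintype.piFinset fun _ : Fin r => Finset.range (D + 1)
  let f : (Fin r →₀ ℕ) × (Fin r → ℕ) → (Fin r →₀ ℕ) := fun x =>
    Finsupp.equivFunOnFinite.symm fun i => if i ∈ Y then x.1 i else x.2 i
  refine ⟨(A ×ˢ B).image f, ?_, ?_⟩
  · rintro I ⟨hI1, hI2, hI3⟩
    rw [Finset.mem_coe, Finset.mem_image]
    refine ⟨(Finsupp.equivFunOnFinite.symm fun i => if i ∈ Y then I i else 0,
      fun i => if i ∈ Y then 0 else I i), ?_, ?_⟩
    · rw [Finset.mem_product]
      refine ⟨?_, ?_⟩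
      · simp only [A]
        rw [Finset.mem_filter, mem_mon, Finsupp.degree_eq_sum]
        constructor
        · simp only [Finsupp.equivFunOnFinite_symm_apply_apply]
          rw [Finset.sum_ite_mem, Finset.univ_inter]
          exact hI1
        · intro i hi
          rw [Finsupp.mem_support_iff] at hi
          by_contra h
          apply hi
          simp [h]
      · simp only [B]
        rw [Fintype.mem_piFinset]
        intro i
        rw [Finset.mem_range]
        split_ifs with h
        · omega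
        · have := hI2 i (Finset.mem_compl.2 h)
          omega
    · ext i
      simp only [f, Finsupp.equivFunOnFinite_symm_apply_apply]
      split_ifs <;> rfl
  · refine Finset.card_image_le.trans ?_
    rw [Finset.card_product]
    have h1 : A.card = (Y.card + k).choose Y.card := card_monZ r k Y
    have h2 : B.card = (D + 1) ^ r := by
      simp only [B]
      rw [Fintype.card_piFinset]
      simp
    rw [h1, h2, mul_comm]

theorem hil_up (r D : ℕ) (P : Ideal (PR r)) (hP : P.IsPrime) (Y : Finset (Fin r))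
    (hY : Ind P Y) (hz : ∀ z ∉ Y, Dep P (insert z Y) D) (j : ℕ) :
    hil P j ≤ (D + 1) ^ r * (Y.card + (j + r * D * j)).choose Y.card := by
  classical
  have hpz : ∀ z : Fin r, ∃ a : PR r, z ∉ Y → (a ∉ P ∧ ∀ j e : ℕ, e ≤ j →
      a ^ j * X z ^ e ∈ restrictSupport ℚ (Sx Y {z} D (D * j)) ⊔ P.restrictScalars ℚ) := by
    intro z
    by_cases h : z ∈ Y
    · exact ⟨1, fun h' => absurd h h'⟩
    · obtain ⟨a, ha⟩ := powz D P Y hY z h (hz z h)
      exact ⟨a, fun _ => ha⟩
  choose a ha using hpz
  set A : PR r := (∏ z ∈ Yᶜ, a z) ^ j with hA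
  have hAP : A ∉ P := by
    intro h
    have h1 := hP.mem_of_pow_mem _ h
    obtain ⟨z, hz1, hz2⟩ := (Ideal.IsPrime.prod_mem_iff (hp := hP)).1 h1
    exact (ha z (Finset.mem_compl.1 hz1)).1 hz2
  set k : ℕ := j + r * D * j with hk
  -- the main inclusion
  have hmain : ∀ Q ∈ restrictTotalDegree (Fin r) ℚ j,
      A * Q ∈ restrictSupport ℚ (Sx Y Yᶜ D k) ⊔ P.restrictScalars ℚ := by
    have h1 : restrictTotalDegree (Fin r) ℚ j ≤
        (restrictSupport ℚ (Sx Y Yᶜ D k) ⊔ P.restrictScalars ℚ).comap
          (LinearMap.mulLeft ℚ A) := by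
      rw [dle_eq, restrictSupport_eq_span, Submodule.span_le]
      rintro _ ⟨I, hI, rfl⟩
      rw [Finset.mem_coe, mem_mon] at hI
      rw [SetLike.mem_coe, Submodule.mem_comap, LinearMap.mulLeft_apply]
      have e1 : A * monomial I (1 : ℚ) =
          (∏ z ∈ Yᶜ, (a z ^ j * X z ^ (I z))) * ∏ y ∈ Y, X y ^ (I y) := by
        rw [monomial_eq, C_1, one_mul, Finsupp.prod_fintype _ _ (fun i => pow_zero _),
          Finset.prod_mul_distrib, hA, ← Finset.prod_pow, mul_assoc]
        congr 1
        rw [mul_comm, Finset.prod_mul_prod_compl]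
      rw [e1]
      have hIj : ∀ i, I i ≤ j := by
        intro i
        rw [Finsupp.degree_eq_sum] at hI
        exact (Finset.single_le_sum (fun _ _ => Nat.zero_le _) (Finset.mem_univ i)).trans hI
      have h2 := prodz D (D * j) P Y (fun z => a z ^ j * X z ^ (I z)) Yᶜ
        (fun z hz => Finset.mem_compl.1 hz)
        (fun z hz => (ha z (Finset.mem_compl.1 hz)).2 j (I z) (hIj z))
      have h3 : ∏ y ∈ Y, X y ^ (I y) ∈ restrictSupport ℚ
          {J : Fin r →₀ ℕ | ∑ y ∈ Y, J y ≤ j ∧ ∀ w, w ∉ Y → J w = 0} := by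
        have e2 : (∏ y ∈ Y, X y ^ (I y) : PR r) =
            monomial (Finsupp.equivFunOnFinite.symm fun i => if i ∈ Y then I i else 0) 1 := by
          rw [monomial_eq, C_1, one_mul, Finsupp.prod_fintype _ _ (fun i => pow_zero _)]
          simp only [Finsupp.equivFunOnFinite_symm_apply_apply]
          rw [← Finset.prod_subset (Finset.subset_univ Y)]
          · refine Finset.prod_congr rfl fun y hy => ?_
            rw [if_pos hy]
          · intro w _ hw
            rw [if_neg hw, pow_zero]
        rw [e2, monomial_mem_restrictSupport]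
        left
        constructor
        · calc ∑ y ∈ Y, (Finsupp.equivFunOnFinite.symm fun i => if i ∈ Y then I i else 0) y
              = ∑ y ∈ Y, I y := by
                refine Finset.sum_congr rfl fun y hy => ?_
                rw [Finsupp.equivFunOnFinite_symm_apply_apply, if_pos hy]
            _ ≤ ∑ y, I y := Finset.sum_le_sum_of_subset (Finset.subset_univ _)
            _ ≤ j := by
                rw [← Finsupp.degree_eq_sum]
                exact hI
        · intro w hw
          rw [Finsupp.equivFunOnFinite_symm_apply_apply, if_neg hw]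
      refine rsP_mul h2 (Submodule.mem_sup_left h3) ?_
      rintro I' ⟨hI1, hI2, hI3⟩ J ⟨hJ1, hJ2⟩
      refine ⟨?_, ?_, ?_⟩
      · simp only [Finsupp.add_apply, Finset.sum_add_distrib]
        have h4 : (Yᶜ).card ≤ r := by
          have := Finset.card_le_univ (Yᶜ : Finset (Fin r))
          rwa [Fintype.card_fin] at this
        have h5 : (Yᶜ).card * (D * j) ≤ r * (D * j) := Nat.mul_le_mul_right _ h4
        rw [hk, mul_assoc]
        omega
      · intro w hw
        rw [Finsupp.add_apply, hJ2 w (Finset.mem_compl.1 hw), add_zero]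
        exact hI2 w hw
      · intro w hw hwE
        exact absurd (Finset.mem_compl.2 hw) hwE
    intro Q hQ
    exact h1 hQ
  obtain ⟨F, hF1, hF2⟩ := countx Y D k
  have hF3 : ∀ Q ∈ restrictTotalDegree (Fin r) ℚ j,
      A * Q ∈ restrictSupport ℚ (F : Set (Fin r →₀ ℕ)) ⊔ P.restrictScalars ℚ := fun Q hQ =>
    sup_le_sup_right (restrictSupport_mono ℚ hF1) _ (hmain Q hQ)
  -- the dimension count
  have : Module.Finite ℚ (restrictSupport ℚ (F : Set (Fin r →₀ ℕ))) :=
    Module.Finite.of_basis (basisRestrictSupport ℚ (F : Set (Fin r →₀ ℕ)))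
  let φ : PR r →ₗ[ℚ] PR r ⧸ P := (Ideal.Quotient.mkₐ ℚ P).toLinearMap
  let ψ : (PR r ⧸ P) →ₗ[ℚ] PR r ⧸ P := LinearMap.mulLeft ℚ (φ A)
  have hφA : φ A ≠ 0 := by
    intro h
    exact hAP (Ideal.Quotient.eq_zero_iff_mem.1 h)
  have : IsDomain (PR r ⧸ P) := Ideal.Quotient.isDomain P
  have hψ : Function.Injective ψ := by
    intro x y hxy
    exact mul_left_cancel₀ hφA hxy
  have hle : ((restrictTotalDegree (Fin r) ℚ j).map φ).map ψ ≤
      (restrictSupport ℚ (F : Set (Fin r →₀ ℕ))).map φ := by
    rintro _ ⟨_, ⟨Q, hQ, rfl⟩, rfl⟩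
    obtain ⟨x, hx, y, hy, hxy⟩ := Submodule.mem_sup.1 (hF3 Q hQ)
    refine ⟨x, hx, ?_⟩
    have h1 : φ y = 0 := Ideal.Quotient.eq_zero_iff_mem.2 hy
    have h2 : ψ (φ Q) = φ (A * Q) := ((Ideal.Quotient.mkₐ ℚ P).map_mul A Q).symm
    rw [h2, ← hxy, map_add, h1, add_zero]
  calc hil P j = finrank ℚ ((restrictTotalDegree (Fin r) ℚ j).map φ) := rfl
    _ = finrank ℚ (((restrictTotalDegree (Fin r) ℚ j).map φ).map ψ) :=
        LinearEquiv.finrank_eq (Submodule.equivMapOfInjective ψ hψ _)
    _ ≤ finrank ℚ ((restrictSupport ℚ (F : Set (Fin r →₀ ℕ))).map φ) :=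
        Submodule.finrank_mono hle
    _ ≤ finrank ℚ (restrictSupport ℚ (F : Set (Fin r →₀ ℕ))) := Submodule.finrank_map_le _ _
    _ = F.card := finrank_restrictSupport r F
    _ ≤ _ := hF2

end NF44
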