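import Pool.Agent.Lib.NF44.Mon

/-!
MP_44a56e_nt, module House (about 100 lines): the size of the conjugates of a value.

PROOF of `house_le`. `K = Kf α`; for an embedding `φ : K →+* ℂ`, `φ (aO α i)` is a root of `minpoly ℚ (α i : ℂ)` (apply `φ` to the minimal
polynomial of `(aO α i : K)`, equal to that of `α i`: `minpoly.algebraMap_eq`), so `|φ (aO α i)| ≤ S` by the definition of `TS`. Then
`φ (Q(aO α)) = ∑_{I∈B} q_I ∏ φ(aO α i)^(I_i)` of absolute value `≤ ∑ S^(K-|I|) S^|I| = card B * S^K`. (`|I| = ∑ I_i`, `|I| ≤ K`;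
`aeval (aO α) (monomial I q) = q ∏ (aO α i)^(I i)`.)
-/

set_option autoImplicit false

open MvPolynomial Module NumberField

namespace NF44

theorem house_le {n r S K : ℕ} (α : Fin r → Zb) (hα : α ∈ TS n r S)
    (B : Finset (Fin r →₀ ℕ)) (hB : ∀ I ∈ B, I.degree < K) (q : (Fin r →₀ ℕ) → ℤ)
    (hq : ∀ I ∈ B, |q I| ≤ (S : ℤ) ^ (K - I.degree)) (φ : Kf α →+* ℂ) :
    ‖φ ((aeval (aO α) (∑ I ∈ B, monomial I (q I)) : 𝓞 (Kf α)) : Kf α)‖ ≤
      B.card * (S : ℝ) ^ K := by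
  sorry

end NF44
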