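import Pool.Agent.Lib.NF44.Defs

/-!
MP_44a56e_nt, module Num2 (about 150 lines): the numerical inequality of the p-adic Siegel lemma.

PROOF of `key_sum`. Write `N0 = (2r choose r)`, `b = bb r x = x / l + 1`, `l = ll r ≥ 1`, `2 ^ l ≥ r + 1`
(`Nat.le_pow_clog`), `K = 256 r`. Induction on `i`: `h (2^i (r+x) - x) ≥ 2^(x i) N0` (as
`2 (2^i (r+x) - x) + x = 2^(i+1) (r+x) - x`; better: prove `∀ i, 2^(x*i) * N0 ≤ h (2^i*(r+x) - x)` with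
`x ≤ 2^i * (r+x)`). `i = 6`: `64 (r+x) - x ≤ 128 r`, so `h j ≥ 2^(6x) N0` for `128 r ≤ j`. Hence
`∑_{j<256r} h j ≥ ∑_{128r ≤ j < 256r} h j ≥ 128 r 2^(6x) N0 ≥ 32 r n 2^(6x) ` (as `4 N0 > n`).
Other side: `(b+r choose r+1) (r+1) = b (b+r choose b)` [`Nat.succ_mul_choose_eq`, `Nat.choose_symm_add`],
and `(b+r choose b) ≤ (r+1)^b` (induction on `b`: `(b+1+r choose b+1) (b+1) = (b+r+1) (b+r choose b)` and
`b+1+r ≤ (b+1)(r+1)`), `(r+1)^b = (r+1) (r+1)^(x/l) ≤ (r+1) 2^(l (x/l)) ≤ (r+1) 2^x`. So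
`(b+r choose r+1) ≤ b 2^x`. `L ≤ K n / b + n` so `L b ≤ K n + n b`, `b ≤ x + 1 ≤ r + 1 ≤ 2 r`:
`L (b+r choose r+1) ≤ L b 2^x ≤ (256 r n + 2 r n) 2^x = 258 r n 2^x`, and
`1 + 258 r n 2^x ≤ 32 r n 2^(6x)` as `2^(6x) ≥ 32 * 2^x` for `x ≥ 1`, `r n 2^x ≥ 1`.
-/

set_option autoImplicit false

open MvPolynomial Module NumberField

namespace NF44

theorem key_sum (n r x L : ℕ) (hn : 2 ≤ n) (hr : 1 ≤ r) (hx : 1 ≤ x) (hxr : x ≤ r)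
    (hN : n < 4 * (2 * r).choose r) (hL : L < tau n r x + n) (h : ℕ → ℕ) (hmono : Monotone h)
    (h0 : (2 * r).choose r ≤ h r) (hg : ∀ j, 2 ^ x * h j ≤ h (2 * j + x)) :
    1 + L * (bb r x + r).choose (r + 1) ≤ ∑ j ∈ Finset.range (KK r), h j := by
  sorry

end NF44
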