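import Pool.Agent.Lib.NF44.Roots

/-!
MP_44a56e_nt, module Split (about 150 lines): decomposition into boundedly many primes of bounded complexity.

PROOF of `split`. Show by induction on `k`: for all `D` there are `N, D'` such that for all `I` with `Dep I Z D` for all `Z` with `|Z| = s` and with at most `k` sets `Y` (finsets of `Fin r`) with `¬ Dep I Y D`, the conclusion holds. Then take `k = 2^r`.
(Note `Dep` is monotone in the ideal, in `D` and in the set: `supported_mono`.) If there is no `Y` with `¬ Dep I Y D` (in particular `k = 0`): `Dep I ∅ D` gives a nonzero constant in `I`, `I = ⊤`, no `α`: `Ps = ∅`. Otherwise let `Y` be maximal (for inclusion)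
with `¬ Dep I Y D`; `|Y| < s` (if `|Y| ≥ s` a subset `Z` of size `s` is dependent, hence `Y`). `split_main r D` gives `a, Ps1` with
`Good P |Y| D1'`. `I' = I ⊔ (a)`, `D2 = max D (r D)`: all sets dependent mod `I` at level `D` are dependent mod `I'` at level `D2`, and also `Y` (`a`), so the number of independent ones drops to `≤ k - 1`; the hypothesis for `s`-sets persists. Induction for `I', D2`: `Ps2`.
`Ps = Ps1 ∪ Ps2`; constants `N1 + N2`, `max D1' D2'` (`Good` is monotone in `D`). For `α` with `I ≤ Mi α`: either some `P ∈ Ps1` or `a ∈ Mi α`, `I' ≤ Mi α`.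
-/

set_option autoImplicit false

open MvPolynomial Module NumberField

namespace NF44

private theorem dep_mono {r : ℕ} {I J : Ideal (PR r)} {Y Z : Finset (Fin r)} {D E : ℕ}
    (hIJ : I ≤ J) (hYZ : Y ⊆ Z) (hDE : D ≤ E) (h : Dep I Y D) : Dep J Z E := by
  obtain ⟨G, h1, h2, h3, h4⟩ := h
  exact ⟨G, supported_mono (Finset.coe_subset.2 hYZ) h1, h2, hIJ h3, h4.trans hDE⟩

private theorem good_mono {r : ℕ} {P : Ideal (PR r)} {x D E : ℕ} (hDE : D ≤ E)
    (h : Good P x D) : Good P x E :=
  ⟨h.1, fun Z hZ => dep_mono le_rfl (Finset.Subset.refl _) hDE (h.2 Z hZ)⟩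

private theorem no_pt {r D : ℕ} {I : Ideal (PR r)} (h : Dep I ∅ D) (α : Fin r → Zb) :
    ¬ I ≤ Mi α := by
  intro hI
  obtain ⟨G, h1, h2, h3, -⟩ := h
  rw [Finset.coe_empty, supported_empty] at h1
  obtain ⟨c, rfl⟩ := Algebra.mem_bot.1 h1
  have h5 := (mem_Mi α _).1 (hI h3)
  rw [AlgHom.commutes] at h5
  have h6 : c = 0 := (algebraMap ℚ ℂ).injective (by rw [h5, map_zero])
  exact h2 (by rw [h6, map_zero])

open scoped Classical in
private theorem split_aux (r s k : ℕ) : ∀ D : ℕ, ∃ N D' : ℕ, ∀ I : Ideal (PR r),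
    (∀ Z : Finset (Fin r), Z.card = s → Dep I Z D) →
    (Finset.univ.filter (fun Y : Finset (Fin r) => ¬ Dep I Y D)).card ≤ k →
    ∃ Ps : Finset (Ideal (PR r)), Ps.card ≤ N ∧
      (∀ P ∈ Ps, P.IsPrime ∧ ∃ x < s, Good P x D') ∧
      ∀ α : Fin r → Zb, I ≤ Mi α → ∃ P ∈ Ps, P ≤ Mi α := by
  induction k with
  | zero =>
    intro D
    refine ⟨0, 0, fun I _ h => ⟨∅, by simp, by simp, fun α hα => ?_⟩⟩
    exfalso
    have h1 : (Finset.univ.filter (fun Y : Finset (Fin r) => ¬ Dep I Y D)) = ∅ :=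
      Finset.card_eq_zero.1 (Nat.le_zero.1 h)
    have h2 : ¬ ¬ Dep I ∅ D := by
      have := Finset.filter_eq_empty_iff.1 h1 (Finset.mem_univ ∅)
      exact this
    exact no_pt (not_not.1 h2) α hα
  | succ k ih =>
    intro D
    obtain ⟨N1, D1, H1⟩ := split_main r D
    obtain ⟨N2, D2, H2⟩ := ih (max D (r * D))
    refine ⟨N1 + N2, max D1 D2, fun I hI hcard => ?_⟩
    by_cases hne : (Finset.univ.filter (fun Y : Finset (Fin r) => ¬ Dep I Y D)).Nonempty
    · obtain ⟨Y, hY, hmax⟩ := Finset.exists_max_image _ Finset.card hne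
      have hY1 : ¬ Dep I Y D := (Finset.mem_filter.1 hY).2
      have hY2 : ∀ z ∉ Y, Dep I (insert z Y) D := by
        intro z hz
        by_contra hcon
        have := hmax (insert z Y) (Finset.mem_filter.2 ⟨Finset.mem_univ _, hcon⟩)
        rw [Finset.card_insert_of_notMem hz] at this
        omega
      have hYs : Y.card < s := by
        by_contra hcon
        obtain ⟨Z, hZ, hZs⟩ := Finset.exists_subset_card_eq (not_lt.1 hcon)
        exact hY1 (dep_mono le_rfl hZ le_rfl (hI Z hZs))
      obtain ⟨a, Ps1, ha1, ha2, ha3, hP1, hP2, hP3⟩ := H1 I Y hY1 hY2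
      have hle : I ≤ I ⊔ Ideal.span {a} := le_sup_left
      have haI : a ∈ I ⊔ Ideal.span {a} :=
        (le_sup_right : Ideal.span {a} ≤ I ⊔ Ideal.span {a}) (Ideal.mem_span_singleton_self a)
      obtain ⟨Ps2, hQ1, hQ2, hQ3⟩ := H2 (I ⊔ Ideal.span {a})
        (fun Z hZ => dep_mono hle (Finset.Subset.refl _) (le_max_left _ _) (hI Z hZ)) (by
          have hss : (Finset.univ.filter (fun Y : Finset (Fin r) =>
              ¬ Dep (I ⊔ Ideal.span {a}) Y (max D (r * D)))) ⊂
              (Finset.univ.filter (fun Y : Finset (Fin r) => ¬ Dep I Y D)) := by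
            rw [Finset.ssubset_iff_of_subset]
            · refine ⟨Y, hY, fun hcon => (Finset.mem_filter.1 hcon).2 ?_⟩
              exact ⟨a, ha1, ha2, haI, ha3.trans (le_max_right _ _)⟩
            · intro Y' hY'
              rw [Finset.mem_filter] at hY' ⊢
              exact ⟨hY'.1, fun h => hY'.2
                (dep_mono hle (Finset.Subset.refl _) (le_max_left _ _) h)⟩
          have := Finset.card_lt_card hss
          omega)
      refine ⟨Ps1 ∪ Ps2, (Finset.card_union_le _ _).trans (add_le_add hP1 hQ1), ?_, ?_⟩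
      · intro P hP
        rcases Finset.mem_union.1 hP with h | h
        · exact ⟨(hP2 P h).1, Y.card, hYs, good_mono (le_max_left _ _) (hP2 P h).2⟩
        · obtain ⟨g1, x, hx, g2⟩ := hQ2 P h
          exact ⟨g1, x, hx, good_mono (le_max_right _ _) g2⟩
      · intro α hα
        rcases hP3 α hα with h | ⟨P, hP, hPα⟩
        · obtain ⟨P, hP, hPα⟩ := hQ3 α (sup_le hα ((Ideal.span_singleton_le_iff_mem _).2 h))
          exact ⟨P, Finset.mem_union_right _ hP, hPα⟩
        · exact ⟨P, Finset.mem_union_left _ hP, hPα⟩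
    · rw [Finset.not_nonempty_iff_eq_empty] at hne
      refine ⟨∅, by simp, by simp, fun α hα => ?_⟩
      exfalso
      have h2 : ¬ ¬ Dep I ∅ D := by
        have := Finset.filter_eq_empty_iff.1 hne (Finset.mem_univ ∅)
        exact this
      exact no_pt (not_not.1 h2) α hα

theorem split (r s D : ℕ) : ∃ N D' : ℕ, ∀ I : Ideal (PR r),
    (∀ Z : Finset (Fin r), Z.card = s → Dep I Z D) →
    ∃ Ps : Finset (Ideal (PR r)), Ps.card ≤ N ∧
      (∀ P ∈ Ps, P.IsPrime ∧ ∃ x < s, Good P x D') ∧
      ∀ α : Fin r → Zb, I ≤ Mi α → ∃ P ∈ Ps, P ≤ Mi α := by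
  classical
  obtain ⟨N, D', H⟩ := split_aux r s (2 ^ r) D
  refine ⟨N, D', fun I hI => H I hI ?_⟩
  refine (Finset.card_le_univ _).trans ?_
  simp

end NF44
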