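import Pool.Agent.Lib.NF44.Siegel
import Pool.Agent.Lib.NF44.Num1
import Pool.Agent.Lib.NF44.Num2
import Pool.Agent.Lib.NF44.Growth
import Pool.Agent.Lib.NF44.Split

/-!
MP_44a56e_nt, module Low: the dimension drops.
-/

set_option autoImplicit false

open MvPolynomial Module NumberField

namespace NF44

private theorem low_cut (m n t : ℕ) (f : ℕ → ℕ) (ht : 1 ≤ t) (h1 : ∀ i < m, 1 ≤ f i)
    (h2 : ∀ i < m, f i ≤ n) (h : t ≤ ∑ i ∈ Finset.range m, f i) :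
    ∃ m' ≤ m, m' ≤ t ∧ t ≤ ∑ i ∈ Finset.range m', f i ∧
      ∑ i ∈ Finset.range m', f i < t + n := by
  classical
  have hex : ∃ m', t ≤ ∑ i ∈ Finset.range m', f i := ⟨m, h⟩
  obtain ⟨m', hm', hmin⟩ : ∃ m', t ≤ ∑ i ∈ Finset.range m', f i ∧
      ∀ k < m', ∑ i ∈ Finset.range k, f i < t :=
    ⟨Nat.find hex, Nat.find_spec hex, fun k hk => not_le.1 (Nat.find_min hex hk)⟩
  have hle : m' ≤ m := by
    by_contra hcon
    exact absurd h (not_le.2 (hmin m (not_le.1 hcon)))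
  cases m' with
  | zero => simp at hm'; omega
  | succ k =>
    have hk := hmin k (Nat.lt_succ_self k)
    have hk1 : k ≤ ∑ i ∈ Finset.range k, f i := by
      have h3 : ∑ _i ∈ Finset.range k, 1 ≤ ∑ i ∈ Finset.range k, f i :=
        Finset.sum_le_sum fun i hi => h1 i (by have := Finset.mem_range.1 hi; omega)
      simpa using h3
    refine ⟨k + 1, hle, by omega, hm', ?_⟩
    rw [Finset.sum_range_succ]
    have := h2 k (by omega)
    omega

private theorem low_fd {n r S : ℕ} (hn : 1 ≤ n) (α : Fin r → Zb) (hα : α ∈ TS n r S) (p : ℕ)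
    (hp : p.Prime) : 1 ≤ (cls p α).1 ∧ (cls p α).1 ≤ n := by
  have hfr : finrank ℚ (Kf α) = n := hα.1
  have hfd : FiniteDimensional ℚ (Kf α) := Module.finite_of_finrank_pos (by rw [hfr]; exact hn)
  have hnf : NumberField (Kf α) := { to_charZero := inferInstance, to_finiteDimensional := hfd }
  have h := rr_facts (Kf α) n hfr p hp
  exact ⟨h.2.1, h.2.2.1⟩

theorem bd_low (n : ℕ) (hn : 2 ≤ n) (x D : ℕ) (hx : 1 ≤ x) (hxr : x ≤ rn n)
    (ih : ∀ x' < x, ∀ D' d, Bd n (rn n) x' D' d) : Bd n (rn n) x D 0 := by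
  classical
  obtain ⟨hr1, -, hr3, -⟩ := rn_spec n hn
  generalize hrdef : rn n = r at *
  have hsie : ∀ m' L' : ℕ, ∃ S0 : ℕ, tau n r x ≤ L' → ∀ S : ℕ, S0 ≤ S → ∀ P : Ideal (PR r),
      1 + L' * (bb r x + r).choose (r + 1) ≤ ∑ j ∈ Finset.range (KK r), hil P j →
      ∀ p : ℕ → ℕ, (∀ i, (p i).Prime) → Function.Injective p →
      (∀ i, S ≤ p i ∧ p i ≤ 2 ^ (i + 1) * S) →
      ∀ c : (i : ℕ) → ℕ × (Fin r → kap (p i)), ∑ i ∈ Finset.range m', (c i).1 = L' →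
      ∀ T ⊆ TS n r S, (∀ α ∈ T, ∀ i < m', cls (p i) α = c i) →
      ∃ Q : PR r, Q ∉ P ∧ Q.totalDegree ≤ KK r ∧ ∀ α ∈ T, Q ∈ Mi α := by
    intro m' L'
    by_cases h : tau n r x ≤ L'
    · obtain ⟨S0, hS0⟩ := siegel n r (KK r) (bb r x) m' L' (by omega) (key_lt n r x L' h)
      exact ⟨S0, fun _ => hS0⟩
    · exact ⟨0, fun h' => absurd h' h⟩
  choose Ssie hSsie using hsie
  obtain ⟨D1, hD1⟩ := dep_add r x D (KK r)
  obtain ⟨N, D2, hsplit⟩ := split r x D1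
  have hih : ∀ x' : ℕ, ∃ C S0 : ℕ, x' < x → ∀ S : ℕ, S0 ≤ S → ∀ p : ℕ → ℕ, (∀ i, (p i).Prime) →
      Function.Injective p → (∀ i, S ≤ p i ∧ p i ≤ 2 ^ (i + 1) * S) →
      ∀ P : Ideal (PR r), P.IsPrime → Good P x' D2 → ∀ m L : ℕ,
      ∀ c : (i : ℕ) → ℕ × (Fin r → kap (p i)), ∑ i ∈ Finset.range m, (c i).1 = L →
      tau n r x' ≤ L + tau n r x' → ∀ T ⊆ TS n r S,
      (∀ α ∈ T, P ≤ Mi α ∧ ∀ i < m, cls (p i) α = c i) →
      T.Finite ∧ T.ncard ≤ C * S ^ FF n r x' L := by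
    intro x'
    by_cases h : x' < x
    · obtain ⟨C, S0, -, h0⟩ := ih x' h D2 (tau n r x')
      exact ⟨C, S0, fun _ => h0⟩
    · exact ⟨0, 0, fun h' => absurd h' h⟩
  choose Cih Sih hih' using hih
  refine ⟨N * ∑ x' ∈ Finset.range x, Cih x',
    1 + (∑ m' ∈ Finset.range (tau n r x + 1), ∑ L' ∈ Finset.range (tau n r x + n), Ssie m' L') +
      ∑ x' ∈ Finset.range x, Sih x', by omega, ?_⟩
  intro S hS p hp hpi hpS P hP hG m L c hcL htL T hT hTc
  rcases T.eq_empty_or_nonempty with rfl | ⟨α0, hα0⟩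
  · simp
  have hc : ∀ i < m, 1 ≤ (c i).1 ∧ (c i).1 ≤ n := by
    intro i hi
    have h := low_fd (by omega) α0 (hT hα0) (p i) (hp i)
    rwa [(hTc α0 hα0).2 i hi] at h
  obtain ⟨m', hm'm, hm't, ht, htn⟩ := low_cut m n (tau n r x) (fun i => (c i).1)
    (by unfold tau; exact Nat.le_add_left 1 _) (fun i hi => (hc i hi).1) (fun i hi => (hc i hi).2)
    (by rw [hcL]; simpa using htL)
  have hSs : Ssie m' (∑ i ∈ Finset.range m', (c i).1) ≤ S := by
    have h1 : Ssie m' (∑ i ∈ Finset.range m', (c i).1) ≤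
        ∑ L' ∈ Finset.range (tau n r x + n), Ssie m' L' :=
      Finset.single_le_sum (f := fun L' => Ssie m' L') (fun _ _ => Nat.zero_le _)
        (Finset.mem_range.2 htn)
    have h2 : ∑ L' ∈ Finset.range (tau n r x + n), Ssie m' L' ≤
        ∑ m' ∈ Finset.range (tau n r x + 1), ∑ L' ∈ Finset.range (tau n r x + n), Ssie m' L' :=
      Finset.single_le_sum (f := fun m' => ∑ L' ∈ Finset.range (tau n r x + n), Ssie m' L')
        (fun _ _ => Nat.zero_le _) (Finset.mem_range.2 (by omega))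
    omega
  have hSi : ∀ x' < x, Sih x' ≤ S := by
    intro x' hx'
    have h1 : Sih x' ≤ ∑ x' ∈ Finset.range x, Sih x' :=
      Finset.single_le_sum (f := fun x' => Sih x') (fun _ _ => Nat.zero_le _)
        (Finset.mem_range.2 hx')
    omega
  obtain ⟨Y, hYc, hYi⟩ := hG.1
  have hkey := key_sum n r x _ hn hr1 hx hxr hr3 htn (hil P) (hil_mono P)
    (hil_low P α0 (hT hα0) (hTc α0 hα0).1) (by
      intro j
      have h := growth P hP Y hYi j
      rwa [hYc] at h)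
  obtain ⟨Q, hQP, hQd, hQα⟩ := hSsie m' _ ht S hSs P hkey p hp hpi hpS c rfl T hT
    (fun α hα i hi => (hTc α hα).2 i (lt_of_lt_of_le hi hm'm))
  obtain ⟨Ps, hPsN, hPs, hPsα⟩ := hsplit (P ⊔ Ideal.span {Q}) (hD1 P hP hG Q hQP hQd)
  have hS1 : 1 ≤ S := by omega
  have hpiece : ∀ P' ∈ Ps, ({α ∈ T | P' ≤ Mi α}).Finite ∧
      ({α ∈ T | P' ≤ Mi α}).ncard ≤ (∑ x' ∈ Finset.range x, Cih x') * S ^ FF n r x L := by
    intro P' hP'
    obtain ⟨hP'1, x', hx', hgood⟩ := hPs P' hP'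
    obtain ⟨hf, hnc⟩ := hih' x' hx' S (hSi x' hx') p hp hpi hpS P' hP'1 hgood m L c hcL
      (by omega) {α ∈ T | P' ≤ Mi α} (fun α hα => hT hα.1)
      (fun α hα => ⟨hα.2, (hTc α hα.1).2⟩)
    refine ⟨hf, hnc.trans ?_⟩
    refine Nat.mul_le_mul ?_ (Nat.pow_le_pow_right hS1 (FF_mono n r L hx'.le))
    exact Finset.single_le_sum (f := fun x' => Cih x') (fun _ _ => Nat.zero_le _)
      (Finset.mem_range.2 hx')
  have hcov : T ⊆ ⋃ P' ∈ Ps, {α ∈ T | P' ≤ Mi α} := by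
    intro α hα
    have hI : P ⊔ Ideal.span {Q} ≤ Mi α := by
      refine sup_le (hTc α hα).1 ?_
      rw [Ideal.span_le, Set.singleton_subset_iff]
      exact hQα α hα
    obtain ⟨P', hP', hle⟩ := hPsα α hI
    exact Set.mem_iUnion₂.2 ⟨P', hP', hα, hle⟩
  have hfin : (⋃ P' ∈ Ps, {α ∈ T | P' ≤ Mi α}).Finite :=
    Set.Finite.biUnion Ps.finite_toSet fun P' hP' => (hpiece P' hP').1
  refine ⟨hfin.subset hcov, ?_⟩
  calc T.ncard ≤ (⋃ P' ∈ Ps, {α ∈ T | P' ≤ Mi α}).ncard := Set.ncard_le_ncard hcov hfin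
    _ ≤ ∑ P' ∈ Ps, ({α ∈ T | P' ≤ Mi α}).ncard := Finset.set_ncard_biUnion_le _ _
    _ ≤ ∑ _P' ∈ Ps, (∑ x' ∈ Finset.range x, Cih x') * S ^ FF n r x L :=
        Finset.sum_le_sum fun P' hP' => (hpiece P' hP').2
    _ = Ps.card * ((∑ x' ∈ Finset.range x, Cih x') * S ^ FF n r x L) := by
        rw [Finset.sum_const, smul_eq_mul]
    _ ≤ N * ((∑ x' ∈ Finset.range x, Cih x') * S ^ FF n r x L) :=
        Nat.mul_le_mul_right _ hPsN
    _ = N * (∑ x' ∈ Finset.range x, Cih x') * S ^ FF n r x L := by rw [mul_assoc]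

end NF44
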