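import Pool.Agent.Lib.NF44.ClassCount
import Pool.Agent.Lib.NF44.Num1
import Pool.Agent.Lib.NF44.Defs2

/-!
MP_44a56e_nt, module Step: one more prime.
-/

set_option autoImplicit false

open MvPolynomial Module NumberField

namespace NF44

private theorem step_fd {n r S : ℕ} (hn : 1 ≤ n) (α : Fin r → Zb) (hα : α ∈ TS n r S) (p : ℕ)
    (hp : p.Prime) : 1 ≤ (cls p α).1 ∧ (cls p α).1 ≤ n := by
  have hfr : finrank ℚ (Kf α) = n := hα.1
  have hfd : FiniteDimensional ℚ (Kf α) := Module.finite_of_finrank_pos (by rw [hfr]; exact hn)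
  have hnf : NumberField (Kf α) := { to_charZero := inferInstance, to_finiteDimensional := hfd }
  have h := rr_facts (Kf α) n hfr p hp
  exact ⟨h.2.1, h.2.2.1⟩

/-- The numerical inequality. -/
private theorem step_num {c0 C0 q f x t n S F F' : ℕ} (hq : q ≤ 2 ^ t * S) (hf : f ≤ n)
    (hF : F' + x * f = F) :
    c0 * (q ^ f) ^ x * (C0 * S ^ F') ≤ c0 * 2 ^ (t * n * x) * C0 * S ^ F := by
  have h1 : (q ^ f) ^ x ≤ 2 ^ (t * n * x) * S ^ (x * f) := by
    calc (q ^ f) ^ x = q ^ (f * x) := by rw [← pow_mul]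
      _ ≤ (2 ^ t * S) ^ (f * x) := Nat.pow_le_pow_left hq _
      _ = 2 ^ (t * f * x) * S ^ (x * f) := by
          rw [mul_pow, ← pow_mul, mul_comm x f, mul_assoc t f x]
      _ ≤ 2 ^ (t * n * x) * S ^ (x * f) := by
          refine Nat.mul_le_mul_right _ (Nat.pow_le_pow_right (by norm_num) ?_)
          exact Nat.mul_le_mul_right _ (Nat.mul_le_mul_left _ hf)
  calc c0 * (q ^ f) ^ x * (C0 * S ^ F')
      ≤ c0 * (2 ^ (t * n * x) * S ^ (x * f)) * (C0 * S ^ F') :=
        Nat.mul_le_mul_right _ (Nat.mul_le_mul_left _ h1)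
    _ = c0 * 2 ^ (t * n * x) * C0 * S ^ F := by rw [← hF, pow_add]; ring

/-- Union over a finite set with a uniform bound. -/
private theorem step_union {α ι : Type} (T : Set α) (A : Set ι) (hA : A.Finite) (U : ι → Set α)
    (B N : ℕ) (hN : A.ncard ≤ N) (hU : ∀ a ∈ A, (U a).Finite ∧ (U a).ncard ≤ B)
    (hT : T ⊆ ⋃ a ∈ A, U a) : T.Finite ∧ T.ncard ≤ N * B := by
  classical
  have hfin : (⋃ a ∈ A, U a).Finite := Set.Finite.biUnion hA fun a ha => (hU a ha).1
  refine ⟨hfin.subset hT, ?_⟩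
  have hE : (⋃ a ∈ A, U a) = ⋃ a ∈ hA.toFinset, U a := by
    ext z; simp
  calc T.ncard ≤ (⋃ a ∈ A, U a).ncard := Set.ncard_le_ncard hT hfin
    _ = (⋃ a ∈ hA.toFinset, U a).ncard := by rw [hE]
    _ ≤ ∑ a ∈ hA.toFinset, (U a).ncard := Finset.set_ncard_biUnion_le _ _
    _ ≤ ∑ _a ∈ hA.toFinset, B :=
        Finset.sum_le_sum fun a ha => (hU a (hA.mem_toFinset.1 ha)).2
    _ = A.ncard * B := by
        rw [Finset.sum_const, smul_eq_mul, Set.ncard_eq_toFinset_card A hA]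
    _ ≤ N * B := Nat.mul_le_mul_right _ hN

theorem bd_step (n r x D d : ℕ) (hn : 1 ≤ n) (h : Bd n r x D d) : Bd n r x D (d + 1) := by
  classical
  obtain ⟨C0, S0, hS0, h⟩ := h
  obtain ⟨c0, hc0⟩ := class_count n r x D hn
  refine ⟨C0 + n * (c0 * 2 ^ (tau n r x * n * x) * C0), S0, hS0, ?_⟩
  intro S hS p hp hpi hpS P hP hG m L c hcL htL T hT hTc
  rcases T.eq_empty_or_nonempty with rfl | ⟨α0, hα0⟩
  · simp
  by_cases h1 : tau n r x ≤ L + d
  · obtain ⟨hf, hb⟩ := h S hS p hp hpi hpS P hP hG m L c hcL h1 T hT hTc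
    exact ⟨hf, hb.trans (Nat.mul_le_mul_right _ (Nat.le_add_right _ _))⟩
  have hLt : L < tau n r x := by omega
  have hc : ∀ i < m, 1 ≤ (c i).1 := by
    intro i hi
    have h := step_fd hn α0 (hT hα0) (p i) (hp i)
    rw [(hTc α0 hα0).2 i hi] at h
    exact h.1
  have hmL : m ≤ L := by
    have h3 : ∑ _i ∈ Finset.range m, 1 ≤ ∑ i ∈ Finset.range m, (c i).1 :=
      Finset.sum_le_sum fun i hi => hc i (Finset.mem_range.1 hi)
    rw [hcL] at h3
    simpa using h3
  have hq : p m ≤ 2 ^ tau n r x * S :=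
    (hpS m).2.trans (Nat.mul_le_mul_right _ (Nat.pow_le_pow_right (by norm_num) (by omega)))
  -- one class
  have hcls : ∀ f : ℕ, 1 ≤ f → ∀ a : Fin r → kap (p m),
      ({α ∈ T | cls (p m) α = (f, a)}).Finite ∧
      ({α ∈ T | cls (p m) α = (f, a)}).ncard ≤ C0 * S ^ FF n r x (L + f) := by
    intro f hf a
    refine h S hS p hp hpi hpS P hP hG (m + 1) (L + f) (Function.update c m (f, a)) ?_
      (by omega) _ (fun α hα => hT hα.1) ?_
    · rw [Finset.sum_range_succ, Function.update_self]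
      have h2 : ∑ i ∈ Finset.range m, (Function.update c m (f, a) i).1 = L := by
        rw [← hcL]
        refine Finset.sum_congr rfl fun i hi => ?_
        rw [Function.update_of_ne (Finset.mem_range.1 hi).ne]
      rw [h2]
    · intro α hα
      refine ⟨(hTc α hα.1).1, fun i hi => ?_⟩
      rcases Nat.lt_succ_iff_lt_or_eq.1 hi with hi | rfl
      · rw [Function.update_of_ne hi.ne]
        exact (hTc α hα.1).2 i hi
      · rw [Function.update_self]
        exact hα.2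
  -- one residue degree
  have hdeg : ∀ f ∈ Set.Icc 1 n, ({α ∈ T | (cls (p m) α).1 = f}).Finite ∧
      ({α ∈ T | (cls (p m) α).1 = f}).ncard ≤
        c0 * 2 ^ (tau n r x * n * x) * C0 * S ^ FF n r x L := by
    intro f hf
    obtain ⟨hA1, hA2⟩ := hc0 P hG S (p m) f (hp m)
    have hu := step_union {α ∈ T | (cls (p m) α).1 = f} _ hA1
      (fun a => {α ∈ T | cls (p m) α = (f, a)}) _ _ hA2 (fun a _ => hcls f hf.1 a) (by
        intro α hα
        have hα2 : (cls (p m) α).1 = f := hα.2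
        have hα3 : cls (p m) α = (f, (cls (p m) α).2) := Prod.ext hα2 rfl
        exact Set.mem_iUnion₂.2 ⟨(cls (p m) α).2, ⟨α, hT hα.1, (hTc α hα.1).1, hα3⟩,
          hα.1, hα3⟩)
    exact ⟨hu.1, hu.2.trans (step_num hq hf.2 (FF_step n r x L f hLt hf.2))⟩
  have hfinal := step_union T (Set.Icc 1 n) (Set.finite_Icc 1 n)
    (fun f => {α ∈ T | (cls (p m) α).1 = f}) _ n (by
      rw [← Finset.coe_Icc, Set.ncard_coe_finset, Nat.card_Icc]; omega) hdeg (by
      intro α hα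
      have h := step_fd hn α (hT hα) (p m) (hp m)
      exact Set.mem_iUnion₂.2 ⟨(cls (p m) α).1, h, hα, rfl⟩)
  refine ⟨hfinal.1, hfinal.2.trans ?_⟩
  rw [← mul_assoc]
  exact Nat.mul_le_mul_right _ (Nat.le_add_left _ _)

end NF44
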