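import Pool.Agent.Lib.NF44.Low
import Pool.Agent.Lib.NF44.Step
import Pool.Agent.Lib.NF44.Base

/-!
MP_44a56e_nt, module Main: the recursion.
-/

set_option autoImplicit false

open MvPolynomial Module NumberField

namespace NF44

theorem bd_all (n : ℕ) (hn : 2 ≤ n) (x : ℕ) (hx : x ≤ rn n) (D d : ℕ) :
    Bd n (rn n) x D d := by
  induction x using Nat.strong_induction_on generalizing D d with
  | _ x ih =>
    rcases Nat.eq_zero_or_pos x with rfl | hx0
    · refine ⟨n, 1, le_rfl, ?_⟩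
      intro S _ p _ _ _ P hP hG m L c _ _ T hT hPT
      obtain ⟨h1, h2⟩ := base n (rn n) D S (by omega) P hP hG T hT (fun α hα => (hPT α hα).1)
      refine ⟨h1, h2.trans ?_⟩
      have : FF n (rn n) 0 L = 0 := by
        unfold FF
        simp
      rw [this]
      simp
    · induction d with
      | zero => exact bd_low n hn x D hx0 hx (fun x' hx' D' d' => ih x' hx' (by omega) D' d')
      | succ d ihd => exact bd_step n (rn n) x D d (by omega) ihd

theorem exists_primes (S : ℕ) (hS : 1 ≤ S) : ∃ p : ℕ → ℕ, (∀ i, (p i).Prime) ∧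
    Function.Injective p ∧ ∀ i, S ≤ p i ∧ p i ≤ 2 ^ (i + 1) * S := by
  have h : ∀ i : ℕ, ∃ p : ℕ, p.Prime ∧ 2 ^ i * S < p ∧ p ≤ 2 * (2 ^ i * S) := fun i =>
    Nat.exists_prime_lt_and_le_two_mul (2 ^ i * S) (by positivity)
  choose p hp1 hp2 hp3 using h
  refine ⟨p, hp1, ?_, ?_⟩
  · refine StrictMono.injective (strictMono_nat_of_lt_succ (fun i => ?_))
    have h1 := hp2 (i + 1)
    have h2 := hp3 i
    rw [pow_succ] at h1
    linarith
  · intro i
    have h1 := hp2 i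
    have h2 := hp3 i
    have h3 : 1 ≤ 2 ^ i := Nat.one_le_two_pow
    refine ⟨?_, ?_⟩
    · nlinarith
    · rw [pow_succ]
      linarith

theorem prop2 (n : ℕ) (hn : 2 ≤ n) : ∃ C : ℕ, ∀ S : ℕ, 1 ≤ S →
    (TS n (rn n) S).Finite ∧ (TS n (rn n) S).ncard ≤ C * S ^ FF n (rn n) (rn n) 0 := by
  obtain ⟨C, S0, hS0, h⟩ := bd_all n hn (rn n) le_rfl 0 (tau n (rn n) (rn n))
  refine ⟨C * S0 ^ FF n (rn n) (rn n) 0, fun S hS => ?_⟩
  have hS' : S0 ≤ S0 * S := Nat.le_mul_of_pos_right _ hS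
  have hSS' : S ≤ S0 * S := Nat.le_mul_of_pos_left _ hS0
  obtain ⟨p, hp1, hp2, hp3⟩ := exists_primes (S0 * S) (hS0.trans hS')
  have hbot : (⊥ : Ideal (PR (rn n))).IsPrime := Ideal.isPrime_bot
  have hgood : Good (⊥ : Ideal (PR (rn n))) (rn n) 0 := by
    refine ⟨⟨Finset.univ, by simp, fun G _ hG => by simpa using hG⟩, fun Z hZ => ?_⟩
    have := Finset.card_le_univ Z
    rw [Fintype.card_fin] at this
    omega
  have hsub : TS n (rn n) S ⊆ TS n (rn n) (S0 * S) := by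
    rintro α ⟨h1, h2, h3⟩
    refine ⟨h1, fun i w hw => (h2 i w hw).trans ?_, h3⟩
    exact_mod_cast hSS'
  obtain ⟨h1, h2⟩ := h (S0 * S) hS' p hp1 hp2 hp3 ⊥ hbot hgood 0 0 (fun i => (0, fun _ => 0))
    (by simp) (by omega) (TS n (rn n) (S0 * S)) le_rfl
    (fun α _ => ⟨bot_le, fun i hi => absurd hi (Nat.not_lt_zero i)⟩)
  refine ⟨h1.subset hsub, (Set.ncard_le_ncard hsub h1).trans (h2.trans ?_)⟩
  rw [mul_pow, mul_assoc]

end NF44
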