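import Pool.Agent.Lib.NF44.Defs

/-!
MP_44a56e_nt, module Mon (about 150 lines): counting monomials.

PROOFS. `card_mon`: `mon r j` is the disjoint union of `Finset.univ.finsuppAntidiag d`, `d ≤ j`, and
`Finset.card_finsuppAntidiag_nat_eq_choose` (file Algebra/Order/Antidiag/FinsuppEquiv) gives each
cardinality; hockey stick (`Nat.sum_range_choose_...` or induction on `j`). Case `r = 0` apart.
`card_monZ`: the same with `Z.finsuppAntidiag d`. `sum_mon`: `b - |J| = #{j < b : |J| ≤ j}`, so the sum is
`∑_{j<b} card (mon r j) = ∑_{j<b} choose (r+j) r = choose (b+r) (r+1)` (induction on `b`).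
`finrank_dle`, `finrank_sup`: `restrictTotalDegree` is `Finsupp.supported` on the exponents of degree `≤ j`
(basis of monomials, `MvPolynomial.basisMonomials`; the submodule is spanned by the linearly independent
monomials `x^I`, `I ∈ mon r j`, `I.support ⊆ Z`), so `finrank_span_finset_eq_card` or
`finrank_eq_card_basis`. Membership in `supported ℚ Z`: `MvPolynomial.mem_supported` (vars ⊆ Z).
-/

set_option autoImplicit false

open MvPolynomial Module NumberField

namespace NF44

theorem mon_aux_disj (r : ℕ) (Z : Finset (Fin r)) (s : Finset ℕ) :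
    (s : Set ℕ).PairwiseDisjoint fun d => Z.finsuppAntidiag d := by
  intro a _ b _ hab
  rw [Function.onFun, Finset.disjoint_left]
  intro I h1 h2
  rw [Finset.mem_finsuppAntidiag] at h1 h2
  exact hab (h1.1.symm.trans h2.1)

theorem card_mon (r j : ℕ) : (mon r j).card = (r + j).choose r := by
  unfold mon
  rw [Finset.card_biUnion (fun a ha b hb hab => mon_aux_disj r Finset.univ _ ha hb hab)]
  simp only [Finset.card_finsuppAntidiag_nat_eq_multichoose, Finset.card_univ, Fintype.card_fin]
  rw [Nat.sum_range_multichoose, Nat.add_comm]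

theorem card_monZ (r j : ℕ) (Z : Finset (Fin r)) :
    ((mon r j).filter (fun I => I.support ⊆ Z)).card = (Z.card + j).choose Z.card := by
  have h : (mon r j).filter (fun I => I.support ⊆ Z) =
      (Finset.range (j + 1)).biUnion fun d => Z.finsuppAntidiag d := by
    ext I
    rw [Finset.mem_filter, mem_mon, Finset.mem_biUnion]
    constructor
    · rintro ⟨h1, h2⟩
      refine ⟨I.degree, Finset.mem_range.2 (Nat.lt_succ_of_le h1), ?_⟩
      rw [Finset.mem_finsuppAntidiag]
      refine ⟨?_, h2⟩
      rw [Finsupp.degree_apply]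
      refine (Finset.sum_subset h2 ?_).symm
      intro x _ hx
      exact Finsupp.notMem_support_iff.1 hx
    · rintro ⟨d, hd, hI⟩
      rw [Finset.mem_finsuppAntidiag] at hI
      rw [Finset.mem_range] at hd
      refine ⟨?_, hI.2⟩
      have h3 : I.degree = d := by
        rw [← hI.1, Finsupp.degree_apply]
        refine Finset.sum_subset hI.2 ?_
        intro x _ hx
        exact Finsupp.notMem_support_iff.1 hx
      omega
  rw [h, Finset.card_biUnion (fun a ha b hb hab => mon_aux_disj r Z _ ha hb hab)]
  simp only [Finset.card_finsuppAntidiag_nat_eq_multichoose]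
  rw [Nat.sum_range_multichoose, Nat.add_comm]

theorem sum_mon (r b : ℕ) : ∑ J ∈ mon r b, (b - J.degree) = (b + r).choose (r + 1) := by
  have h1 : ∀ J ∈ mon r b, b - J.degree = ∑ j ∈ Finset.range b, if J.degree ≤ j then 1 else 0 := by
    intro J _
    rw [← Finset.card_filter]
    have h2 : (Finset.range b).filter (fun j => J.degree ≤ j) = Finset.Ico J.degree b := by
      ext j
      simp only [Finset.mem_filter, Finset.mem_range, Finset.mem_Ico]
      tauto
    rw [h2, Nat.card_Ico]
  rw [Finset.sum_congr rfl h1, Finset.sum_comm]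
  have h3 : ∀ j ∈ Finset.range b, (∑ J ∈ mon r b, if J.degree ≤ j then 1 else 0) =
      (j + r).choose r := by
    intro j hj
    rw [Finset.mem_range] at hj
    rw [← Finset.card_filter]
    have h4 : (mon r b).filter (fun J => J.degree ≤ j) = mon r j := by
      ext J
      rw [Finset.mem_filter, mem_mon, mem_mon]
      omega
    rw [h4, card_mon, Nat.add_comm]
  rw [Finset.sum_congr rfl h3]
  cases b with
  | zero => simp
  | succ b => rw [Nat.sum_range_add_choose]; congr 1; omega

theorem finrank_restrictSupport (r : ℕ) (F : Finset (Fin r →₀ ℕ)) :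
    finrank ℚ (restrictSupport ℚ (F : Set (Fin r →₀ ℕ))) = F.card := by
  rw [finrank_eq_card_basis (basisRestrictSupport ℚ (F : Set (Fin r →₀ ℕ)))]
  simp

theorem dle_eq (r j : ℕ) : restrictTotalDegree (Fin r) ℚ j =
    restrictSupport ℚ ((mon r j : Finset (Fin r →₀ ℕ)) : Set (Fin r →₀ ℕ)) := by
  unfold restrictTotalDegree
  congr 1
  ext I
  rw [Finset.mem_coe, mem_mon]
  rfl

theorem finrank_dle (r j : ℕ) :
    finrank ℚ (restrictTotalDegree (Fin r) ℚ j) = (r + j).choose r := by
  rw [dle_eq, finrank_restrictSupport, card_mon]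

theorem sup_eq (r j : ℕ) (Z : Finset (Fin r)) :
    (restrictTotalDegree (Fin r) ℚ j ⊓
      Subalgebra.toSubmodule (supported ℚ (Z : Set (Fin r))) : Submodule ℚ (PR r)) =
    restrictSupport ℚ
      (((mon r j).filter (fun I => I.support ⊆ Z) : Finset (Fin r →₀ ℕ)) : Set (Fin r →₀ ℕ)) := by
  ext p
  rw [Submodule.mem_inf, dle_eq, Subalgebra.mem_toSubmodule, mem_supported,
    mem_restrictSupport_iff, mem_restrictSupport_iff]
  constructor
  · rintro ⟨h1, h2⟩ I hI
    rw [Finset.coe_filter, Set.mem_ofPred_eq]
    refine ⟨h1 hI, ?_⟩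
    intro i hi
    have h3 : i ∈ p.vars := (mem_vars_iff_mem_support i).2 ⟨I, hI, hi⟩
    exact h2 h3
  · intro h
    constructor
    · intro I hI
      have := h hI
      rw [Finset.coe_filter, Set.mem_ofPred_eq] at this
      exact this.1
    · intro i hi
      obtain ⟨I, hI, hi'⟩ := (mem_vars_iff_mem_support i).1 hi
      have := h hI
      rw [Finset.coe_filter, Set.mem_ofPred_eq] at this
      exact this.2 hi'

theorem finrank_sup (r j : ℕ) (Z : Finset (Fin r)) :
    finrank ℚ (restrictTotalDegree (Fin r) ℚ j ⊓
      Subalgebra.toSubmodule (supported ℚ (Z : Set (Fin r))) : Submodule ℚ (PR r)) =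
      (Z.card + j).choose Z.card := by
  rw [sup_eq, finrank_restrictSupport, card_monZ]

end NF44
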