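import Pool.Agent.Lib.NF44.ResF

/-!
MP_44a56e_nt, module NormP: an integer that is small and divisible by many prime powers is zero.
-/

set_option autoImplicit false

open MvPolynomial Module NumberField

namespace NF44

private theorem norm_le_pow (K : SF) [NumberField K] (n : ℕ) (hn : finrank ℚ K = n)
    (β : 𝓞 K) (R : ℝ) (hR : ∀ φ : K →+* ℂ, ‖φ (β : K)‖ ≤ R) :
    ((Algebra.norm ℤ β).natAbs : ℝ) ≤ R ^ n := by
  have h1 : ((Algebra.norm ℤ β : ℤ) : ℚ) = Algebra.norm ℚ (β : K) := Algebra.coe_norm_int β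
  have h2 := Algebra.norm_eq_prod_embeddings ℚ ℂ (β : K)
  have h3 : ((Algebra.norm ℤ β).natAbs : ℝ) = ‖algebraMap ℚ ℂ (Algebra.norm ℚ (β : K))‖ := by
    rw [← h1]
    simp only [eq_ratCast, Rat.cast_intCast]
    rw [Complex.norm_intCast, Nat.cast_natAbs, Int.cast_abs]
  rw [h3, h2, norm_prod]
  calc ∏ σ : K →ₐ[ℚ] ℂ, ‖σ (β : K)‖ ≤ ∏ _σ : K →ₐ[ℚ] ℂ, R := by
        apply Finset.prod_le_prod
        · intro σ _
          exact norm_nonneg _
        · intro σ _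
          exact hR (σ : K →+* ℂ)
    _ = R ^ n := by
        rw [Finset.prod_const, Finset.card_univ, AlgHom.card ℚ K ℂ, hn]

theorem zero_of_small (K : SF) [NumberField K] (n : ℕ) (hn : finrank ℚ K = n) (b m S : ℕ)
    (p : ℕ → ℕ) (hp : ∀ i, (p i).Prime) (hinj : Function.Injective p) (hS : ∀ i, S ≤ p i)
    (β : 𝓞 K) (hβ : ∀ i < m, β ∈ PP K (p i) ^ b) (R : ℝ)
    (hR : ∀ φ : K →+* ℂ, ‖φ (β : K)‖ ≤ R)
    (hlt : R ^ n < (S : ℝ) ^ (b * ∑ i ∈ Finset.range m, fd K (p i))) : β = 0 := by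
  by_contra hβ0
  have hdvd : (∏ i ∈ Finset.range m, PP K (p i) ^ b) ∣ Ideal.span {β} := by
    apply Finset.prod_dvd_of_coprime
    · intro i _ j _ hij
      apply IsCoprime.pow
      have hi := rr_facts K n hn (p i) (hp i)
      have hj := rr_facts K n hn (p j) (hp j)
      have hne : p i ≠ p j := fun h => hij (hinj h)
      have hc : IsCoprime ((p i : ℤ)) (p j : ℤ) := by
        rw [Nat.isCoprime_iff_coprime]
        exact (Nat.coprime_primes (hp i) (hp j)).2 hne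
      obtain ⟨u, v, huv⟩ := hc
      rw [Ideal.isCoprime_iff_exists]
      refine ⟨(u : 𝓞 K) * (p i : 𝓞 K), Ideal.mul_mem_left _ _ hi.2.2.2.2.2.2.1,
        (v : 𝓞 K) * (p j : 𝓞 K), Ideal.mul_mem_left _ _ hj.2.2.2.2.2.2.1, ?_⟩
      exact_mod_cast congrArg (fun z : ℤ => (z : 𝓞 K)) huv
    · intro i hi
      rw [Ideal.dvd_span_singleton]
      exact hβ i (Finset.mem_range.1 hi)
  have h1 := map_dvd Ideal.absNorm hdvd
  rw [Ideal.absNorm_span_singleton, map_prod] at h1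
  have hN0 : (Algebra.norm ℤ β).natAbs ≠ 0 := by
    rw [Ne, Int.natAbs_eq_zero, Algebra.norm_eq_zero_iff]
    exact hβ0
  have h2 := Nat.le_of_dvd (Nat.pos_of_ne_zero hN0) h1
  have h3 : S ^ (b * ∑ i ∈ Finset.range m, fd K (p i)) ≤
      ∏ i ∈ Finset.range m, Ideal.absNorm (PP K (p i) ^ b) := by
    rw [Finset.mul_sum, ← Finset.prod_pow_eq_pow_sum]
    apply Finset.prod_le_prod'
    intro i _
    rw [map_pow, (rr_facts K n hn (p i) (hp i)).2.2.2.2.2.2.2, ← pow_mul, mul_comm b]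
    exact Nat.pow_le_pow_left (hS i) _
  have h4 : ((S : ℝ) ^ (b * ∑ i ∈ Finset.range m, fd K (p i))) ≤
      ((Algebra.norm ℤ β).natAbs : ℝ) := by
    exact_mod_cast h3.trans h2
  have h5 := norm_le_pow K n hn β R hR
  exact absurd (h4.trans h5) (not_le.2 hlt)

end NF44
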