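import Pool.Agent.Lib.NF44.Defs

/-!
MP_44a56e_nt, module Pigeon: the pigeonhole principle for polynomials.
-/

set_option autoImplicit false

open MvPolynomial Module NumberField

namespace NF44

theorem pigeon {r : ℕ} (K S : ℕ) (B : Finset (Fin r →₀ ℕ)) {H : Type} [AddCommGroup H]
    (hH : Finite H) (Θ : MvPolynomial (Fin r) ℤ →+ H)
    (hcard : Nat.card H < S ^ ∑ I ∈ B, (K - I.degree)) :
    ∃ q : (Fin r →₀ ℕ) → ℤ, (∃ I ∈ B, q I ≠ 0) ∧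
      (∀ I ∈ B, |q I| ≤ (S : ℤ) ^ (K - I.degree)) ∧ Θ (∑ I ∈ B, monomial I (q I)) = 0 := by
  classical
  have := Fintype.ofFinite H
  have hF : Fintype.card (∀ I : B, Fin (S ^ (K - I.1.degree) + 1))
      = ∏ I ∈ B, (S ^ (K - I.degree) + 1) := by
    rw [Fintype.card_pi]
    simp only [Fintype.card_fin]
    exact Finset.prod_coe_sort B (fun I : Fin r →₀ ℕ => S ^ (K - I.degree) + 1)
  have hlt : Fintype.card H < Fintype.card (∀ I : B, Fin (S ^ (K - I.1.degree) + 1)) := by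
    rw [hF, ← Nat.card_eq_fintype_card]
    refine hcard.trans_le ?_
    rw [← Finset.prod_pow_eq_pow_sum]
    exact Finset.prod_le_prod' fun I _ => Nat.le_succ _
  obtain ⟨q1, q2, hne, heq⟩ := Fintype.exists_ne_map_eq_of_card_lt
    (fun q : (∀ I : B, Fin (S ^ (K - I.1.degree) + 1)) =>
      Θ (∑ I : B, monomial I.1 (((q I : ℕ)) : ℤ))) hlt
  have key : ∀ q : (∀ I : B, Fin (S ^ (K - I.1.degree) + 1)),
      (∑ I : B, monomial I.1 (((q I : ℕ)) : ℤ) : MvPolynomial (Fin r) ℤ)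
        = ∑ I ∈ B, monomial I (if h : I ∈ B then (((q ⟨I, h⟩ : ℕ)) : ℤ) else 0) := by
    intro q
    rw [← Finset.sum_coe_sort B]
    refine Finset.sum_congr rfl fun I _ => ?_
    rw [dif_pos I.2]
  refine ⟨fun I => (if h : I ∈ B then (((q1 ⟨I, h⟩ : ℕ)) : ℤ) else 0)
    - (if h : I ∈ B then (((q2 ⟨I, h⟩ : ℕ)) : ℤ) else 0), ?_, ?_, ?_⟩
  · by_contra hcon
    push Not at hcon
    apply hne
    funext I
    have h1 := hcon I.1 I.2
    simp only [dif_pos I.2] at h1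
    have h2 : ((q1 I : ℕ) : ℤ) = ((q2 I : ℕ) : ℤ) := by linarith
    exact Fin.ext (by exact_mod_cast h2)
  · intro I hI
    simp only [dif_pos hI]
    have h1 : (q1 ⟨I, hI⟩ : ℕ) ≤ S ^ (K - I.degree) := Nat.lt_succ_iff.1 (q1 ⟨I, hI⟩).2
    have h2 : (q2 ⟨I, hI⟩ : ℕ) ≤ S ^ (K - I.degree) := Nat.lt_succ_iff.1 (q2 ⟨I, hI⟩).2
    have h1' : ((q1 ⟨I, hI⟩ : ℕ) : ℤ) ≤ (S : ℤ) ^ (K - I.degree) := by exact_mod_cast h1
    have h2' : ((q2 ⟨I, hI⟩ : ℕ) : ℤ) ≤ (S : ℤ) ^ (K - I.degree) := by exact_mod_cast h2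
    have h3 : (0 : ℤ) ≤ ((q1 ⟨I, hI⟩ : ℕ) : ℤ) := by positivity
    have h4 : (0 : ℤ) ≤ ((q2 ⟨I, hI⟩ : ℕ) : ℤ) := by positivity
    rw [abs_le]
    constructor <;> linarith
  · have h5 : (∑ I ∈ B, monomial I ((if h : I ∈ B then (((q1 ⟨I, h⟩ : ℕ)) : ℤ) else 0)
        - (if h : I ∈ B then (((q2 ⟨I, h⟩ : ℕ)) : ℤ) else 0)) : MvPolynomial (Fin r) ℤ)
        = (∑ I : B, monomial I.1 (((q1 I : ℕ)) : ℤ))
          - (∑ I : B, monomial I.1 (((q2 I : ℕ)) : ℤ)) := by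
      rw [key, key, ← Finset.sum_sub_distrib]
      refine Finset.sum_congr rfl fun I _ => ?_
      rw [map_sub]
    rw [h5, map_sub, heq, sub_self]

end NF44
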