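import Pool.Agent.Lib.NF44.Mon

/-!
MP_44a56e_nt, module Pts (about 100 lines): points at which monomials are independent.

PROOF of `exists_points`. The functions `P ↦ ∏_s P_s^(e_i s)`, `i : Fin N`, on `Fin r → ℂ` are linearly independent
(`∑ q_i monomial (e_i) = 0` as a function implies `= 0` as a polynomial by `MvPolynomial.funext`, then
coefficients, `e` injective). GENERAL FACT (prove it by induction on `N`): for linearly independent functions `f_1..f_N : X → k` there are points
`x_1..x_N` with `det (f_i (x_t)) ≠ 0`. Induction step: with `x_1..x_N` for `f_1..f_N`, the function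
`x ↦ det (f_i(x_t))_{t ≤ N+1, x_{N+1} = x}` is a combination of `f_1..f_{N+1}` (expand along the last row) with the
coefficient of `f_{N+1}` equal to the nonzero determinant, so it is not the zero function. (Or: the span of the evaluation
vectors `(f_i x)_i ∈ k^N` is everything, because a linear form vanishing on it is a relation; choose a basis among
them.)
-/

set_option autoImplicit false

open MvPolynomial Module NumberField

namespace NF44

theorem exists_points {r N : ℕ} (e : Fin N → (Fin r →₀ ℕ)) (he : Function.Injective e) :
    ∃ P : Fin N → Fin r → ℂ,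
      (Matrix.of fun t i : Fin N => ∏ s, P t s ^ e i s).det ≠ 0 := by
  classical
  let v : (Fin r → ℂ) → (Fin N → ℂ) := fun P i => ∏ s, P s ^ e i s
  have hspan : Submodule.span ℂ (Set.range v) = ⊤ := by
    by_contra hne
    have hlt : Submodule.span ℂ (Set.range v) < ⊤ := lt_top_iff_ne_top.mpr hne
    obtain ⟨φ, hφ, hle⟩ := Submodule.exists_le_ker_of_lt_top _ hlt
    apply hφ
    set q : Fin N → ℂ := fun i => φ (Pi.single i 1) with hq
    have hev : ∀ P : Fin r → ℂ, ∑ i, q i * ∏ s, P s ^ e i s = 0 := by
      intro P
      have h1 : φ (v P) = 0 := by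
        have : v P ∈ LinearMap.ker φ := hle (Submodule.subset_span ⟨P, rfl⟩)
        exact this
      have h2 : φ (v P) = ∑ i, v P i * q i := by
        conv_lhs => rw [LinearMap.pi_apply_eq_sum_univ φ (v P)]
        refine Finset.sum_congr rfl fun i _ => ?_
        rw [smul_eq_mul, hq]
        congr 2
        funext j
        by_cases h : i = j
        · subst h; simp
        · simp [h, Pi.single_apply, Ne.symm h]
      rw [h2] at h1
      rw [← h1]
      exact Finset.sum_congr rfl fun i _ => mul_comm _ _
    have hpoly : (∑ i, monomial (e i) (q i) : MvPolynomial (Fin r) ℂ) = 0 := by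
      apply MvPolynomial.funext
      intro P
      rw [map_sum, map_zero]
      rw [← hev P]
      refine Finset.sum_congr rfl fun i _ => ?_
      rw [eval_monomial, Finsupp.prod_fintype]
      intro s
      exact pow_zero _
    have hq0 : ∀ j, q j = 0 := by
      intro j
      have hc := congrArg (coeff (e j)) hpoly
      rw [coeff_sum, coeff_zero] at hc
      rw [Finset.sum_eq_single j] at hc
      · simpa using hc
      · intro i _ hij
        rw [coeff_monomial, if_neg]
        intro h
        exact hij (he h)
      · intro h
        exact absurd (Finset.mem_univ j) h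
    ext i
    simpa [hq] using hq0 i
  obtain ⟨κ, a, -, hsp, hli⟩ := exists_linearIndependent' ℂ v
  rw [hspan] at hsp
  let b : Module.Basis κ ℂ (Fin N → ℂ) := Module.Basis.mk hli (by rw [hsp])
  have : Finite κ := Module.Finite.finite_basis b
  have : Fintype κ := Fintype.ofFinite κ
  have hcard : Fintype.card κ = Fintype.card (Fin N) := by
    rw [← Module.finrank_eq_card_basis b]
    simp
  let f : Fin N ≃ κ := (Fintype.equivOfCardEq hcard).symm
  refine ⟨fun t => a (f t), ?_⟩
  have hli2 : LinearIndependent ℂ (fun t : Fin N => v (a (f t))) := hli.comp f f.injective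
  have hu : IsUnit (Matrix.of fun t i : Fin N => ∏ s, a (f t) s ^ e i s) := by
    rw [← Matrix.linearIndependent_rows_iff_isUnit]
    exact hli2
  rw [Matrix.isUnit_iff_isUnit_det] at hu
  exact hu.ne_zero

end NF44
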