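import Pool.Agent.Lib.NF44.Defs

/-!
MP_44a56e_nt, module RootCh (about 150 lines): choice of roots compatible with a specialization.

PROOF of `root_choice`. Let `a = ∏_z (F z).leadingCoeff ∈ A`, `φ a ≠ 0`. Let `B` = the set of all `b ∈ Ω` integral over the subring `A1 = A[1/a]` of `Ω` (`A1 = Localization.Away a`, or the subalgebra `Algebra.adjoin A {(a:Ω)⁻¹}`; `integralClosure A1 Ω`).
`φ` extends to `φ1 : A1 → ℂ` (`IsLocalization.Away.lift`). Its kernel is a prime `𝔮`; lying over (`Ideal.exists_ideal_over_prime_of_isIntegral`) gives a prime `𝔔` of `B` with `𝔔 ∩ A1 = 𝔮`; `B ⧸ 𝔔` is a domain integral over `A1 ⧸ 𝔮 ⊆ ℂ`, so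
it embeds in `ℂ` compatibly (`IsAlgClosed.lift`; `Algebra.IsIntegral`/`IsAlgebraic` over `A1 ⧸ 𝔮`; alternatively Zorn). We get `ψ : B → ℂ` extending `φ1`. In `Ω[X]`: `F z = a_z ∏ (X - ζ_i)` (`IsAlgClosed.splits`), each root `ζ_i` is in `B` (it is a root of
the monic `a_z⁻¹ F z` over `A1`), so the identity holds in `B[X]`; apply `ψ`: `φ(F z) = φ(a_z) ∏ (X - ψ ζ_i)`, and `β z` is a root, so `β z = ψ ζ` for a root `ζ =: ζ z`. For `G : MvPolynomial ι A` with
`aeval ζ G = 0` apply `ψ`: `eval₂ φ β G = ψ (aeval ζ G) = 0` (`MvPolynomial.eval₂_comp_left`/`map_aeval`).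
-/

set_option autoImplicit false

open MvPolynomial Module NumberField

namespace NF44

theorem root_choice {A : Type} [CommRing A] [IsDomain A] {ι : Type} [Finite ι] (Ω : Type)
    [Field Ω] [IsAlgClosed Ω] [Algebra A Ω] (hA : Function.Injective (algebraMap A Ω))
    (F : ι → Polynomial A) (φ : A →+* ℂ) (hφ : ∀ z, φ (F z).leadingCoeff ≠ 0)
    (β : ι → ℂ) (hβ : ∀ z, (F z).eval₂ φ (β z) = 0) :
    ∃ ζ : ι → Ω, (∀ z, Polynomial.aeval (ζ z) (F z) = 0) ∧
      ∀ G : MvPolynomial ι A, MvPolynomial.aeval ζ G = 0 → MvPolynomial.eval₂ φ β G = 0 := by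
  sorry

end NF44
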