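import Pool.Agent.Lib.NF44.RootCh
import Pool.Agent.Lib.NF44.DepBd

/-!
MP_44a56e_nt, module Roots (about 250 lines): the primes given by a maximal independent set of variables.

PROOF of `split_main`. `D'` from `good_of_ind r D`, `N = (D+1)^r`. Let `A = MvPolynomial Y ℚ` (variables the subtype of `Y`), `ι = {z // z ∉ Y}`, `Ω = AlgebraicClosure (FractionRing A)`. The isomorphism `PR r ≃ MvPolynomial ι A`
(`MvPolynomial.renameEquiv` with `Fin r ≃ ι ⊕ Y` (`Equiv.sumCompl`-like), `MvPolynomial.sumAlgEquiv`); `A → PR r` = `rename Subtype.val`, with image `supported ℚ Y`. For `z ∉ Y` the relation `F_z ∈ I` in the variables `Y ∪ {z}` corresponds to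
`f_z : Polynomial A` (one variable `z`), nonzero; by `hY` (no relation of degree `≤ D` between the variables `Y` in `I`) `f_z` is not constant in `z`: `natDegree ≥ 1`; `natDegree ≤ D`, all coefficients of total degree `≤ D`. `a_z` = leading coefficient,
`a = ∏_z a_z` (image in `PR r`), degree `≤ r D`, `a ∈ supported ℚ Y`, `a ≠ 0`. `Ps` = set of the kernels of `PR r → Ω`, `Y → Y`, `z ↦ ζ z`, for the `ζ : ι → Ω` with `ζ z` a root of `f_z`:
finitely many, at most `∏ natDegree ≤ D^r ≤ N` (`Finset.image` of `Fintype.piFinset` of root sets). Each such kernel `P` is prime (target a field), `Ind P Y` (`A → Ω` injective), `F_z ∈ P` so `Dep P (insert z Y) D`, so `Good P Y.card D'` by `good_of_ind`.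
Last claim: `α` with `I ≤ Mi α`, `a(α) ≠ 0`. `φ : A → ℂ` evaluation at `(α_y)_{y∈Y}`; `φ(a_z) ≠ 0`; `f_z` evaluated by `φ` at `α_z` is `F_z(α) = 0`. `root_choice` gives `ζ` with: `G(ζ) = 0` implies `G(α) = 0`, i.e. the kernel `P` of `ζ` is `≤ Mi α`.
-/

set_option autoImplicit false

open MvPolynomial Module NumberField

namespace NF44

private theorem rts_deg {σ τ : Type*} {f : σ → τ} (hf : Function.Injective f)
    (p : MvPolynomial σ ℚ) : p.totalDegree ≤ (rename f p).totalDegree := by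
  refine Finset.sup_le fun m hm => ?_
  have h1 : Finsupp.mapDomain f m ∈ (rename f p).support := by
    rw [MvPolynomial.mem_support_iff, coeff_rename_mapDomain f hf]
    exact MvPolynomial.mem_support_iff.1 hm
  have h2 := le_totalDegree h1
  rw [Finsupp.sum_mapDomain_index (fun _ => rfl) (fun _ _ _ => rfl)] at h2
  exact h2

private theorem rts_sup {r : ℕ} {Y : Finset (Fin r)} {G : PR r}
    (h : G ∈ supported ℚ (Y : Set (Fin r))) :
    ∃ g : MvPolynomial {y // y ∈ Y} ℚ, rename Subtype.val g = G := by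
  rw [mem_supported] at h
  apply exists_rename_eq_of_vars_subset_range G (Subtype.val : {y // y ∈ Y} → Fin r)
    Subtype.val_injective
  intro x hx
  exact ⟨⟨x, h hx⟩, rfl⟩

/-- the index map -/
private def rts_e {r : ℕ} (Y : Finset (Fin r)) (z : Fin r) : Option {y // y ∈ Y} → Fin r :=
  fun o => o.elim z Subtype.val

private theorem rts_einj {r : ℕ} {Y : Finset (Fin r)} {z : Fin r} (hz : z ∉ Y) :
    Function.Injective (rts_e Y z) := by
  intro a b h
  cases a with
  | none =>
    cases b with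
    | none => rfl
    | some b => exact absurd (show z ∈ Y by rw [show z = b.1 from h]; exact b.2) hz
  | some a =>
    cases b with
    | none => exact absurd (show z ∈ Y by rw [show z = a.1 from h.symm]; exact a.2) hz
    | some b => exact congrArg some (Subtype.ext h)

private theorem rts_sup' {r : ℕ} {Y : Finset (Fin r)} {z : Fin r} (hz : z ∉ Y) {G : PR r}
    (h : G ∈ supported ℚ ((insert z Y : Finset (Fin r)) : Set (Fin r))) :
    ∃ g : MvPolynomial (Option {y // y ∈ Y}) ℚ, rename (rts_e Y z) g = G := by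
  rw [mem_supported] at h
  apply exists_rename_eq_of_vars_subset_range G (rts_e Y z) (rts_einj hz)
  intro x hx
  have h1 := h hx
  rw [Finset.mem_coe, Finset.mem_insert] at h1
  rcases h1 with rfl | h1
  · exact ⟨none, rfl⟩
  · exact ⟨some ⟨x, h1⟩, rfl⟩

open Classical in
/-- the point with coordinates `s` on `Y` and `t` outside -/
private noncomputable def rts_pt {r : ℕ} {R : Type*} (Y : Finset (Fin r))
    (s : {y // y ∈ Y} → R) (t : {z // z ∉ Y} → R) : Fin r → R :=
  fun i => if h : i ∈ Y then s ⟨i, h⟩ else t ⟨i, h⟩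

private theorem rts_pt_mem {r : ℕ} {R : Type*} (Y : Finset (Fin r))
    (s : {y // y ∈ Y} → R) (t : {z // z ∉ Y} → R) (y : {y // y ∈ Y}) :
    rts_pt Y s t y.1 = s y := by
  unfold rts_pt
  rw [dif_pos y.2]

private theorem rts_pt_not {r : ℕ} {R : Type*} (Y : Finset (Fin r))
    (s : {y // y ∈ Y} → R) (t : {z // z ∉ Y} → R) (z : {z // z ∉ Y}) :
    rts_pt Y s t z.1 = t z := by
  unfold rts_pt
  rw [dif_neg z.2]

/-- evaluation of a polynomial in the variables `Y` -/
private theorem rts_ev {r : ℕ} {R : Type*} [CommRing R] [Algebra ℚ R] (Y : Finset (Fin r))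
    (p : Fin r → R) (φ : MvPolynomial {y // y ∈ Y} ℚ →+* R) (hφ : ∀ y, φ (X y) = p y.1)
    (g : MvPolynomial {y // y ∈ Y} ℚ) : aeval p (rename Subtype.val g) = φ g := by
  have h : (aeval p : PR r →ₐ[ℚ] R).toRingHom.comp
      (rename (Subtype.val : {y // y ∈ Y} → Fin r)).toRingHom = φ := by
    refine MvPolynomial.ringHom_ext' (Subsingleton.elim _ _) fun y => ?_
    rw [hφ]
    change aeval p (rename Subtype.val (X y)) = _
    rw [rename_X, aeval_X]
  exact congrArg (fun f => f g) h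

/-- evaluation of a polynomial in the variables `Y` and `z` -/
private theorem rts_ev' {r : ℕ} {R : Type*} [CommRing R] [Algebra ℚ R] (Y : Finset (Fin r))
    (z : Fin r) (p : Fin r → R) (φ : MvPolynomial {y // y ∈ Y} ℚ →+* R)
    (hφ : ∀ y, φ (X y) = p y.1) (g : MvPolynomial (Option {y // y ∈ Y}) ℚ) :
    aeval p (rename (rts_e Y z) g) = (optionEquivLeft ℚ {y // y ∈ Y} g).eval₂ φ (p z) := by
  have h : (aeval p : PR r →ₐ[ℚ] R).toRingHom.comp (rename (rts_e Y z)).toRingHom =
      (Polynomial.eval₂RingHom φ (p z)).comp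
        (optionEquivLeft ℚ {y // y ∈ Y}).toAlgHom.toRingHom := by
    refine MvPolynomial.ringHom_ext' (Subsingleton.elim _ _) fun y => ?_
    change aeval p (rename (rts_e Y z) (X y)) =
      (optionEquivLeft ℚ {y // y ∈ Y} (X y)).eval₂ φ (p z)
    rw [rename_X, aeval_X]
    cases y with
    | none =>
      rw [optionEquivLeft_X_none, Polynomial.eval₂_X]
      rfl
    | some y =>
      rw [optionEquivLeft_X_some, Polynomial.eval₂_C, hφ]
      rfl
  exact congrArg (fun f => f g) h

/-- the isomorphism with the ring of polynomials in the other variables -/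
private noncomputable def rts_T {r : ℕ} (Y : Finset (Fin r)) :
    PR r →ₐ[ℚ] MvPolynomial {z // z ∉ Y} (MvPolynomial {y // y ∈ Y} ℚ) :=
  aeval (rts_pt Y (fun y => C (X y)) (fun z => X z))

private theorem rts_T_ev {r : ℕ} {R : Type*} [CommRing R] [Algebra ℚ R] (Y : Finset (Fin r))
    (φ : MvPolynomial {y // y ∈ Y} ℚ →+* R) (t : {z // z ∉ Y} → R) (p : Fin r → R)
    (hφ : ∀ y : {y // y ∈ Y}, φ (X y) = p y.1) (ht : ∀ z : {z // z ∉ Y}, t z = p z.1) (Q : PR r) :
    eval₂ φ t (rts_T Y Q) = aeval p Q := by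
  have h : (eval₂Hom φ t).comp (rts_T Y).toRingHom = (aeval p : PR r →ₐ[ℚ] R).toRingHom := by
    refine MvPolynomial.ringHom_ext' (Subsingleton.elim _ _) fun i => ?_
    change eval₂ φ t (rts_T Y (X i)) = aeval p (X i)
    rw [rts_T, aeval_X, aeval_X]
    by_cases hi : i ∈ Y
    · rw [show rts_pt Y (fun y => C (X y)) (fun z => X z) i = C (X (⟨i, hi⟩ : {y // y ∈ Y})) from
        rts_pt_mem Y _ _ (⟨i, hi⟩ : {y // y ∈ Y}), eval₂_C, hφ]
    · rw [show rts_pt Y (fun y => C (X y)) (fun z => X z) i = X (⟨i, hi⟩ : {z // z ∉ Y}) from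
        rts_pt_not Y _ _ (⟨i, hi⟩ : {z // z ∉ Y}), eval₂_X, ht]
  exact congrArg (fun f => f Q) h

theorem split_main (r D : ℕ) : ∃ N D' : ℕ, ∀ (I : Ideal (PR r)) (Y : Finset (Fin r)),
    ¬ Dep I Y D → (∀ z ∉ Y, Dep I (insert z Y) D) →
    ∃ (a : PR r) (Ps : Finset (Ideal (PR r))), a ∈ supported ℚ (Y : Set (Fin r)) ∧ a ≠ 0 ∧
      a.totalDegree ≤ r * D ∧ Ps.card ≤ N ∧ (∀ P ∈ Ps, P.IsPrime ∧ Good P Y.card D') ∧
      ∀ α : Fin r → Zb, I ≤ Mi α → a ∈ Mi α ∨ ∃ P ∈ Ps, P ≤ Mi α := by
  classical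
  obtain ⟨D', hD'⟩ := good_of_ind r D
  refine ⟨(D + 1) ^ r, D', fun I Y _ hdep => ?_⟩
  have h1 : ∀ z : {z // z ∉ Y}, ∃ g : MvPolynomial (Option {y // y ∈ Y}) ℚ,
      g ≠ 0 ∧ rename (rts_e Y z.1) g ∈ I ∧ g.totalDegree ≤ D := by
    intro z
    obtain ⟨G, hG, hG0, hGI, hGD⟩ := hdep z.1 z.2
    obtain ⟨g, rfl⟩ := rts_sup' z.2 hG
    refine ⟨g, ?_, hGI, (rts_deg (rts_einj z.2) g).trans hGD⟩
    rintro rfl
    exact hG0 (map_zero _)
  choose g hg0 hgI hgD using h1
  let A := MvPolynomial {y // y ∈ Y} ℚ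
  let Ω := AlgebraicClosure (FractionRing A)
  have hAinj : Function.Injective (algebraMap A Ω) := by
    rw [IsScalarTower.algebraMap_eq A (FractionRing A) Ω]
    exact (algebraMap (FractionRing A) Ω).injective.comp (IsFractionRing.injective A _)
  let f : {z // z ∉ Y} → Polynomial A := fun z => optionEquivLeft ℚ {y // y ∈ Y} (g z)
  have hf0 : ∀ z, f z ≠ 0 := by
    intro z h0
    exact hg0 z ((optionEquivLeft ℚ {y // y ∈ Y}).injective (h0.trans (map_zero _).symm))
  have hfdeg : ∀ z, (f z).natDegree ≤ D := by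
    intro z
    rw [natDegree_optionEquivLeft]
    exact (degreeOf_le_totalDegree _ _).trans (hgD z)
  have hlead : ∀ z, (f z).leadingCoeff.totalDegree ≤ D := fun z =>
    (totalDegree_coeff_optionEquivLeft_le _ _ _ _).trans (hgD z)
  let ev : ({z // z ∉ Y} → Ω) → (PR r →ₐ[ℚ] Ω) := fun ζ =>
    aeval (rts_pt Y (fun y => algebraMap A Ω (X y)) ζ)
  let Ps : Finset (Ideal (PR r)) :=
    (Fintype.piFinset fun z => ((f z).aroots Ω).toFinset).image
      fun ζ => RingHom.ker (ev ζ).toRingHom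
  let a : PR r := ∏ z : {z // z ∉ Y}, rename Subtype.val (f z).leadingCoeff
  have hcard : Fintype.card {z // z ∉ Y} ≤ r := by
    refine (Fintype.card_subtype_le _).trans ?_
    rw [Fintype.card_fin]
  refine ⟨a, Ps, ?_, ?_, ?_, ?_, ?_, ?_⟩
  · refine prod_mem fun z _ => ?_
    rw [mem_supported]
    intro x hx
    have h2 := vars_rename (Subtype.val : {y // y ∈ Y} → Fin r) (f z).leadingCoeff
    obtain ⟨y, -, rfl⟩ := Finset.mem_image.1 (h2 hx)
    exact y.2
  · refine Finset.prod_ne_zero_iff.2 fun z _ h0 => ?_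
    have h2 := rename_injective (Subtype.val : {y // y ∈ Y} → Fin r) Subtype.val_injective
      (h0.trans (map_zero _).symm)
    exact hf0 z (Polynomial.leadingCoeff_eq_zero.1 h2)
  · refine (totalDegree_finsetProd _ _).trans ?_
    refine (Finset.sum_le_sum fun z _ => (totalDegree_rename_le _ _).trans (hlead z)).trans ?_
    rw [Finset.sum_const, smul_eq_mul, Finset.card_univ]
    exact Nat.mul_le_mul_right D hcard
  · refine Finset.card_image_le.trans ?_
    rw [Fintype.card_piFinset]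
    refine (Finset.prod_le_prod' (g := fun _ => D + 1) fun z _ => ?_).trans ?_
    · refine (Multiset.toFinset_card_le _).trans ?_
      refine (Polynomial.card_roots' _).trans ?_
      refine Polynomial.natDegree_map_le.trans ?_
      exact (hfdeg z).trans (Nat.le_succ D)
    · rw [Finset.prod_const, Finset.card_univ]
      exact Nat.pow_le_pow_right (Nat.succ_pos D) hcard
  · intro P hP
    obtain ⟨ζ, hζ, rfl⟩ := Finset.mem_image.1 hP
    have hpr : (RingHom.ker (ev ζ).toRingHom).IsPrime := RingHom.ker_isPrime _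
    refine ⟨hpr, hD' _ hpr Y ?_ ?_⟩
    · intro G hG hGP
      obtain ⟨g', rfl⟩ := rts_sup hG
      have h2 := rts_ev Y (rts_pt Y (fun y => algebraMap A Ω (X y)) ζ) (algebraMap A Ω)
        (fun y => (rts_pt_mem Y (fun y => algebraMap A Ω (X y)) ζ y).symm) g'
      have h3 : algebraMap A Ω g' = 0 := by
        rw [← h2]
        exact hGP
      have h4 := hAinj (h3.trans (map_zero _).symm)
      rw [h4, map_zero]
    · intro z hz
      have hz2 := Fintype.mem_piFinset.1 hζ ⟨z, hz⟩
      rw [Multiset.mem_toFinset, Polynomial.mem_aroots'] at hz2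
      refine ⟨rename (rts_e Y z) (g ⟨z, hz⟩), ?_, ?_, ?_, ?_⟩
      · rw [mem_supported]
        intro x hx
        obtain ⟨y, -, rfl⟩ := Finset.mem_image.1 (vars_rename (rts_e Y z) (g ⟨z, hz⟩) hx)
        cases y with
        | none => exact Finset.mem_insert_self _ _
        | some y => exact Finset.mem_insert_of_mem y.2
      · intro h0
        exact hg0 ⟨z, hz⟩ (rename_injective _ (rts_einj hz) (h0.trans (map_zero _).symm))
      · change ev ζ (rename (rts_e Y z) (g ⟨z, hz⟩)) = 0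
        change aeval (rts_pt Y (fun y => algebraMap A Ω (X y)) ζ)
          (rename (rts_e Y z) (g ⟨z, hz⟩)) = 0
        rw [rts_ev' Y z _ (algebraMap A Ω) (fun y => (rts_pt_mem Y (fun y => algebraMap A Ω (X y)) ζ y).symm)]
        rw [show rts_pt Y (fun y => algebraMap A Ω (X y)) ζ z = ζ ⟨z, hz⟩ from
          rts_pt_not Y _ _ ⟨z, hz⟩]
        exact hz2.2
      · exact (totalDegree_rename_le _ _).trans (hgD _)
  · intro α hα
    by_cases ha : a ∈ Mi α
    · exact Or.inl ha
    right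
    let φ : A →+* ℂ := (aeval (fun y : {y // y ∈ Y} => (α y.1 : ℂ)) : A →ₐ[ℚ] ℂ).toRingHom
    have hφX : ∀ y : {y // y ∈ Y}, φ (X y) = (α y.1 : ℂ) := fun y => aeval_X _ _
    have hφl : ∀ z, φ (f z).leadingCoeff ≠ 0 := by
      intro z h0
      apply ha
      rw [mem_Mi, map_prod]
      refine Finset.prod_eq_zero (Finset.mem_univ z) ?_
      rw [rts_ev Y (fun i => (α i : ℂ)) φ hφX]
      exact h0
    have hβ : ∀ z : {z // z ∉ Y}, (f z).eval₂ φ (α z.1 : ℂ) = 0 := by
      intro z
      rw [← rts_ev' Y z.1 (fun i => (α i : ℂ)) φ hφX]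
      exact hα (hgI z)
    obtain ⟨ζ, hζ, hζG⟩ := root_choice Ω hAinj f φ hφl (fun z => (α z.1 : ℂ)) hβ
    refine ⟨RingHom.ker (ev ζ).toRingHom, ?_, ?_⟩
    · refine Finset.mem_image.2 ⟨ζ, ?_, rfl⟩
      rw [Fintype.mem_piFinset]
      intro z
      rw [Multiset.mem_toFinset, Polynomial.mem_aroots']
      refine ⟨?_, hζ z⟩
      rw [Ne, Polynomial.map_eq_zero_iff hAinj]
      exact hf0 z
    · intro Q hQ
      rw [mem_Mi, ← rts_T_ev Y φ (fun z => (α z.1 : ℂ)) (fun i => (α i : ℂ)) hφX (fun _ => rfl)]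
      apply hζG
      have h5 : aeval ζ (rts_T Y Q) = eval₂ (algebraMap A Ω) ζ (rts_T Y Q) := rfl
      rw [h5, rts_T_ev Y (algebraMap A Ω) ζ (rts_pt Y (fun y => algebraMap A Ω (X y)) ζ)
        (fun y => (rts_pt_mem Y (fun y => algebraMap A Ω (X y)) ζ y).symm) (fun z => (rts_pt_not Y (fun y => algebraMap A Ω (X y)) ζ z).symm)]
      exact hQ

end NF44
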