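import Pool.Agent.Lib.NF44.Adapt
import Pool.Agent.Lib.NF44.GramD
import Pool.Agent.Lib.MP_44a56e_nt.Hermite

/-!
MP_44a56e_nt, module Short (about 200 lines): short integers outside a subspace of half the dimension.

PROOF of `exists_short`. `g = QTow.gam n` (Hermite constant, from `QTow.hermite` in Lib/MP_44a56e_nt/Hermite), `C = max (g + 1) 1`
(or `|g| + 1`). Take `e, I` from `adapted`, `m = I.card ≤ n/2`, `G` from `gram`, `D = |discr K| ≥ 1`, `N = ⌊g D^(1/n)⌋ + 1 ≥ 1` (natural number),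
`d_i = N` for `i ∈ I`, `1` otherwise; `G' = diag(d) G diag(d)`: positive definite, `det G' = N^(2m) D`. `QTow.hermite` gives
`c ≠ 0` integral with `c ⬝ G' c ≤ g (N^(2m) D)^(1/n) ≤ g N D^(1/n) < N^2` (as `N ≥ 1`, `2m/n ≤ 1`, `N > g D^(1/n)`).
`v = ∑ d_i c_i e_i ≠ 0`. So `∑_φ |φ v|^2 < N^2` and `|φ v| < N ≤ g D^(1/n) + 1 ≤ C D^(1/n)`. If `v ∈ U` then `d_i c_i = 0`, `c_i = 0` for
`i ∉ I`, so `v = N w` with `w = ∑ c_i e_i ∈ 𝓞 K`, `w ≠ 0`; some `|φ w| ≥ 1` (`∏_φ |φ w| = |N(w)| ≥ 1`,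
`Algebra.norm_eq_prod_embeddings`, `Algebra.norm_ne_zero_iff`; or `NumberField.InfinitePlace`/`house` lemmas) and
`|φ v|^2 ≥ N^2`, contradiction.
-/

set_option autoImplicit false

open MvPolynomial Module NumberField

namespace NF44

private theorem one_le_sum (K : SF) [NumberField K] (w : 𝓞 K) (hw : w ≠ 0) :
    1 ≤ ∑ φ : K →+* ℂ, ‖φ (w : K)‖ ^ 2 := by
  have h1 : ∃ φ : K →+* ℂ, 1 ≤ ‖φ (w : K)‖ := by
    by_contra hcon
    push Not at hcon
    have h2 : ∀ z : InfinitePlace K, z (w : K) < 1 := by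
      intro z
      rw [← InfinitePlace.norm_embedding_eq]
      exact hcon _
    obtain ⟨z0⟩ : Nonempty (InfinitePlace K) := inferInstance
    have h3 : 1 ≤ z0 (w : K) := InfinitePlace.one_le_of_lt_one hw (fun z _ => h2 z)
    exact absurd (h2 z0) (not_lt.mpr h3)
  obtain ⟨φ, hφ⟩ := h1
  have h2 : ‖φ (w : K)‖ ^ 2 ≤ ∑ φ : K →+* ℂ, ‖φ (w : K)‖ ^ 2 :=
    Finset.single_le_sum (f := fun φ : K →+* ℂ => ‖φ (w : K)‖ ^ 2) (fun _ _ => by positivity)
      (Finset.mem_univ φ)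
  nlinarith

private theorem scaled (n : ℕ) (G : Matrix (Fin n) (Fin n) ℝ) (hG : G.PosDef)
    (d : Fin n → ℤ) (hd : ∀ i, 0 < d i) :
    ∃ G' : Matrix (Fin n) (Fin n) ℝ, G'.PosDef ∧ G'.det = (∏ i, (d i : ℝ)) ^ 2 * G.det ∧
      ∀ c : Fin n → ℤ, (fun i => (c i : ℝ)) ⬝ᵥ G'.mulVec (fun i => (c i : ℝ)) =
        (fun i => ((d i * c i : ℤ) : ℝ)) ⬝ᵥ G.mulVec (fun i => ((d i * c i : ℤ) : ℝ)) := by
  set Δ : Matrix (Fin n) (Fin n) ℝ := Matrix.diagonal (fun i => (d i : ℝ)) with hΔ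
  have hΔt : Δ.conjTranspose = Δ := by
    rw [hΔ, Matrix.diagonal_conjTranspose]
    congr 1
  have hmv : ∀ x : Fin n → ℝ, Δ.mulVec x = fun i => (d i : ℝ) * x i := by
    intro x
    funext i
    rw [hΔ, Matrix.mulVec_diagonal]
  refine ⟨Δ.conjTranspose * G * Δ, ?_, ?_, ?_⟩
  · apply hG.conjTranspose_mul_mul_same
    intro x y hxy
    rw [hmv, hmv] at hxy
    funext i
    have h1 : (d i : ℝ) * x i = (d i : ℝ) * y i := congrFun hxy i
    have h2 : (d i : ℝ) ≠ 0 := by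
      exact_mod_cast (hd i).ne'
    exact mul_left_cancel₀ h2 h1
  · rw [hΔt, Matrix.det_mul, Matrix.det_mul, hΔ, Matrix.det_diagonal]
    ring
  · intro c
    rw [← Matrix.mulVec_mulVec, ← Matrix.mulVec_mulVec, Matrix.dotProduct_mulVec, hΔt,
      ← Matrix.mulVec_transpose]
    have hΔT : Δ.transpose = Δ := by
      rw [hΔ, Matrix.diagonal_transpose]
    rw [hΔT, hmv]
    have h1 : (fun i => (d i : ℝ) * (c i : ℝ)) = fun i => ((d i * c i : ℤ) : ℝ) := by
      funext i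
      push_cast
      ring
    rw [h1]

theorem exists_short (n : ℕ) (hn : 0 < n) : ∃ C : ℝ, 1 ≤ C ∧ ∀ K : SF, finrank ℚ K = n →
    ∀ _ : NumberField K, ∀ U : Submodule ℚ K, 2 * finrank ℚ U ≤ n →
      ∃ v : 𝓞 K, (v : K) ∉ U ∧
        ∀ φ : K →+* ℂ, ‖φ (v : K)‖ ≤ C * |(discr K : ℝ)| ^ ((1 : ℝ) / n) := by
  set g : ℝ := QTow.gam n with hg
  refine ⟨|g| + 1, by linarith [abs_nonneg g], ?_⟩
  intro K hK hNF U hU
  obtain ⟨e, I, hI, hmem⟩ := adapted K n hK U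
  obtain ⟨G, hG, hdet, hform⟩ := gram K n hK e
  set D : ℝ := |(discr K : ℝ)| with hD
  have hD1 : 1 ≤ D := by
    have h1 : discr K ≠ 0 := discr_ne_zero K
    have h2 : 1 ≤ |discr K| := Int.one_le_abs h1
    rw [hD]
    exact_mod_cast h2
  have hD0 : 0 < D := by linarith
  set r : ℝ := D ^ ((1 : ℝ) / n) with hr
  have hr1 : 1 ≤ r := Real.one_le_rpow hD1 (by positivity)
  set N : ℕ := ⌊|g| * r⌋₊ + 1 with hN
  have hN1 : 1 ≤ N := by omega
  have hgN : |g| * r < N := by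
    rw [hN]
    push_cast
    exact Nat.lt_floor_add_one _
  have hNC : (N : ℝ) ≤ (|g| + 1) * r := by
    rw [hN]
    push_cast
    have h1 : (⌊|g| * r⌋₊ : ℝ) ≤ |g| * r := Nat.floor_le (by positivity)
    nlinarith
  have hN0 : (0 : ℝ) < N := by exact_mod_cast hN1
  have hN1' : (1 : ℝ) ≤ N := by exact_mod_cast hN1
  set d : Fin n → ℤ := fun i => if i ∈ I then (N : ℤ) else 1 with hd
  have hdpos : ∀ i, 0 < d i := by
    intro i
    simp only [hd]
    split_ifs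
    · exact_mod_cast hN1
    · norm_num
  obtain ⟨G', hG', hdet', hform'⟩ := scaled n G hG d hdpos
  obtain ⟨c, hc0, hc⟩ := QTow.hermite hn G' hG'
  have hprod : ∏ i, (d i : ℝ) = (N : ℝ) ^ I.card := by
    have h1 : ∀ i, (d i : ℝ) = if i ∈ I then (N : ℝ) else 1 := by
      intro i
      simp only [hd]
      split_ifs <;> simp
    rw [Finset.prod_congr rfl (fun i _ => h1 i), Finset.prod_ite_mem, Finset.univ_inter,
      Finset.prod_const]
  have hdetle : G'.det ^ ((1 : ℝ) / n) ≤ N * r := by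
    rw [hdet', hprod, hdet, ← pow_mul, Real.mul_rpow (by positivity) hD0.le]
    apply mul_le_mul_of_nonneg_right _ (by positivity)
    rw [← Real.rpow_natCast, ← Real.rpow_mul hN0.le]
    have hn0 : (0 : ℝ) < n := by exact_mod_cast hn
    have h1 : ((I.card * 2 : ℕ) : ℝ) * (1 / n) ≤ 1 := by
      rw [mul_one_div, div_le_one hn0]
      have h2 : I.card * 2 ≤ n := by rw [hI]; omega
      exact_mod_cast h2
    calc (N : ℝ) ^ (((I.card * 2 : ℕ) : ℝ) * (1 / n)) ≤ (N : ℝ) ^ (1 : ℝ) :=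
          Real.rpow_le_rpow_of_exponent_le hN1' h1
      _ = N := Real.rpow_one _
  set v : 𝓞 K := ∑ i, (d i * c i) • e i with hv
  have hdetnn : 0 ≤ G'.det ^ ((1 : ℝ) / n) := Real.rpow_nonneg hG'.det_pos.le _
  have hsum : ∑ φ : K →+* ℂ, ‖φ (v : K)‖ ^ 2 < (N : ℝ) ^ 2 := by
    rw [hv, ← hform, ← hform']
    refine lt_of_le_of_lt hc ?_
    have h1 : g * G'.det ^ ((1 : ℝ) / n) ≤ |g| * (N * r) :=
      le_trans (mul_le_mul_of_nonneg_right (le_abs_self g) hdetnn)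
        (mul_le_mul_of_nonneg_left hdetle (abs_nonneg g))
    refine lt_of_le_of_lt h1 ?_
    have h2 : |g| * (N * r) = N * (|g| * r) := by ring
    rw [h2, pow_two]
    exact mul_lt_mul_of_pos_left hgN hN0
  refine ⟨v, ?_, ?_⟩
  · intro hvU
    have h1 := (hmem (fun i => d i * c i)).mp hvU
    have h2 : ∀ i, i ∉ I → c i = 0 := by
      intro i hi
      have h3 := h1 i hi
      simp only [hd, if_neg hi, one_mul] at h3
      exact h3
    have h3 : v = (N : ℤ) • ∑ i, c i • e i := by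
      rw [hv, Finset.smul_sum]
      apply Finset.sum_congr rfl
      intro i _
      rw [smul_smul]
      by_cases hi : i ∈ I
      · simp only [hd, if_pos hi]
      · rw [h2 i hi, mul_zero, mul_zero]
    have h4 : ∑ i, c i • e i ≠ 0 := by
      intro h5
      apply hc0
      have h6 := (Fintype.linearIndependent_iff.mp e.linearIndependent) c h5
      funext i
      exact h6 i
    have h5 := one_le_sum K _ h4
    have h6 : ∑ φ : K →+* ℂ, ‖φ (v : K)‖ ^ 2 =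
        (N : ℝ) ^ 2 * ∑ φ : K →+* ℂ, ‖φ ((∑ i, c i • e i : 𝓞 K) : K)‖ ^ 2 := by
      rw [Finset.mul_sum]
      apply Finset.sum_congr rfl
      intro φ _
      rw [h3]
      have h7 : (((N : ℤ) • ∑ i, c i • e i : 𝓞 K) : K) = (N : K) * ((∑ i, c i • e i : 𝓞 K) : K) := by
        rw [zsmul_eq_mul]
        push_cast
        ring
      rw [h7, map_mul, map_natCast, norm_mul, Complex.norm_natCast, mul_pow]
    rw [h6] at hsum
    have h7 : (0 : ℝ) < (N : ℝ) ^ 2 := by positivity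
    nlinarith
  · intro φ
    have h1 : ‖φ (v : K)‖ ^ 2 ≤ ∑ φ : K →+* ℂ, ‖φ (v : K)‖ ^ 2 :=
      Finset.single_le_sum (f := fun φ : K →+* ℂ => ‖φ (v : K)‖ ^ 2) (fun _ _ => by positivity)
        (Finset.mem_univ φ)
    have h2 : ‖φ (v : K)‖ < N := lt_of_pow_lt_pow_left₀ 2 hN0.le (lt_of_le_of_lt h1 hsum)
    linarith

end NF44
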