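import Pool.Agent.Lib.NF44.Mon

/-!
MP_44a56e_nt, module StdMon: standard monomials.
-/

set_option autoImplicit false

open MvPolynomial Module NumberField

namespace NF44

private noncomputable def phi {r : ℕ} (P : Ideal (PR r)) : PR r →ₗ[ℚ] (PR r ⧸ P) :=
  (Ideal.Quotient.mkₐ ℚ P).toLinearMap

private noncomputable def vv {r : ℕ} (P : Ideal (PR r)) (I : Fin r →₀ ℕ) : PR r ⧸ P :=
  phi P (monomial I 1)

private theorem phi_mono {r : ℕ} (P : Ideal (PR r)) (I : Fin r →₀ ℕ) (q : ℚ) :
    phi P (monomial I q) = q • vv P I := by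
  unfold vv
  rw [← map_smul, smul_monomial, smul_eq_mul, mul_one]

private theorem W_eq {r : ℕ} (P : Ideal (PR r)) (j : ℕ) :
    (restrictTotalDegree (Fin r) ℚ j).map (Ideal.Quotient.mkₐ ℚ P).toLinearMap =
      Submodule.span ℚ (vv P '' {I | I.degree < j + 1}) := by
  apply le_antisymm
  · rintro _ ⟨p, hp, rfl⟩
    rw [SetLike.mem_coe, dle_eq, mem_restrictSupport_iff] at hp
    have h1 : p = ∑ I ∈ p.support, monomial I (p.coeff I) := (support_sum_monomial_coeff p).symm
    have h2 : phi P p = ∑ I ∈ p.support, p.coeff I • vv P I := by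
      conv_lhs => rw [h1]
      rw [map_sum]
      exact Finset.sum_congr rfl fun I _ => phi_mono P I _
    show phi P p ∈ _
    rw [h2]
    refine Submodule.sum_mem _ fun I hI => Submodule.smul_mem _ _ (Submodule.subset_span ⟨I, ?_, rfl⟩)
    have := hp hI
    rw [Finset.mem_coe, mem_mon] at this
    exact Nat.lt_succ_of_le this
  · rw [Submodule.span_le]
    rintro _ ⟨I, hI, rfl⟩
    refine ⟨monomial I 1, ?_, rfl⟩
    rw [SetLike.mem_coe, dle_eq, mem_restrictSupport_iff]
    intro J hJ
    have := support_monomial_subset hJ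
    rw [Finset.mem_singleton] at this
    rw [this, Finset.mem_coe, mem_mon]
    exact Nat.le_of_lt_succ hI

private theorem build {r : ℕ} (P : Ideal (PR r)) (K : ℕ) :
    ∃ B : Finset (Fin r →₀ ℕ), (∀ I ∈ B, I.degree < K) ∧
      LinearIndepOn ℚ (vv P) (B : Set (Fin r →₀ ℕ)) ∧
      vv P '' {I | I.degree < K} ⊆ Submodule.span ℚ (vv P '' (B : Set (Fin r →₀ ℕ))) ∧
      ∀ j < K, (B.filter (fun I => I.degree ≤ j)).card = hil P j := by
  induction K with
  | zero =>
    refine ⟨∅, by simp, ?_, ?_, by simp⟩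
    · rw [Finset.coe_empty]
      exact linearIndepOn_empty _ _
    · rintro _ ⟨I, hI, rfl⟩
      exact absurd hI (Nat.not_lt_zero _)
  | succ K ih =>
    obtain ⟨B, h1, h2, h3, h4⟩ := ih
    have hsub : (B : Set (Fin r →₀ ℕ)) ⊆ {I | I.degree < K + 1} := fun I hI =>
      (h1 I (Finset.mem_coe.1 hI)).trans (Nat.lt_succ_self K)
    obtain ⟨b, hbt, hsb, hspan, hli⟩ := exists_linearIndepOn_extension h2 hsub
    have hbf : b ⊆ ((mon r K : Finset (Fin r →₀ ℕ)) : Set (Fin r →₀ ℕ)) := by
      intro I hI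
      rw [Finset.mem_coe, mem_mon]
      exact Nat.le_of_lt_succ (hbt hI)
    have hfin : b.Finite := (Finset.finite_toSet _).subset hbf
    obtain ⟨B', rfl⟩ := hfin.exists_finset_coe
    refine ⟨B', fun I hI => hbt (Finset.mem_coe.2 hI), hli, hspan, ?_⟩
    intro j hj
    rcases Nat.lt_or_ge j K with hjK | hjK
    · rw [← h4 j hjK]
      congr 1
      ext I
      simp only [Finset.mem_filter]
      constructor
      · rintro ⟨hI, hd⟩
        refine ⟨?_, hd⟩
        by_contra hIB
        have h5 : vv P I ∈ Submodule.span ℚ (vv P '' (B : Set (Fin r →₀ ℕ))) :=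
          h3 ⟨I, lt_of_le_of_lt hd hjK, rfl⟩
        have h6 : LinearIndepOn ℚ (vv P) (insert I (B : Set (Fin r →₀ ℕ))) := by
          refine hli.mono ?_
          rw [Set.insert_subset_iff]
          exact ⟨Finset.mem_coe.2 hI, hsb⟩
        exact h6.notMem_span_of_insert (by simpa using hIB) h5
      · rintro ⟨hI, hd⟩
        exact ⟨Finset.mem_coe.1 (hsb (Finset.mem_coe.2 hI)), hd⟩
    · have hjK' : j = K := by omega
      subst hjK'
      have h5 : B'.filter (fun I => I.degree ≤ j) = B' := by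
        refine Finset.filter_true_of_mem fun I hI => Nat.le_of_lt_succ (hbt (Finset.mem_coe.2 hI))
      rw [h5]
      unfold hil
      rw [W_eq]
      have h6 : Submodule.span ℚ (vv P '' {I | I.degree < j + 1}) =
          Submodule.span ℚ (vv P '' (B' : Set (Fin r →₀ ℕ))) := by
        apply le_antisymm
        · rw [Submodule.span_le]
          exact hspan
        · exact Submodule.span_mono (Set.image_mono hbt)
      rw [h6]
      have h7 : LinearIndependent ℚ (fun I : (B' : Set (Fin r →₀ ℕ)) => vv P I) := hli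
      have h8 := finrank_span_eq_card (R := ℚ) (b := fun I : B' => vv P (I : Fin r →₀ ℕ)) h7
      rw [Fintype.card_coe] at h8
      have h9 : vv P '' (B' : Set (Fin r →₀ ℕ)) =
          Set.range (fun I : B' => vv P (I : Fin r →₀ ℕ)) := by
        ext x
        simp
      rw [h9]
      exact h8.symm

theorem std_mon {r : ℕ} (P : Ideal (PR r)) (K : ℕ) :
    ∃ B : Finset (Fin r →₀ ℕ), (∀ I ∈ B, I.degree < K) ∧
      (∀ q : (Fin r →₀ ℕ) → ℚ, ∑ I ∈ B, monomial I (q I) ∈ P → ∀ I ∈ B, q I = 0) ∧
      ∑ I ∈ B, (K - I.degree) = ∑ j ∈ Finset.range K, hil P j := by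
  obtain ⟨B, h1, h2, _, h4⟩ := build P K
  refine ⟨B, h1, ?_, ?_⟩
  · intro q hq
    have h5 : ∑ I ∈ B, q I • vv P I = 0 := by
      have h6 : phi P (∑ I ∈ B, monomial I (q I)) = 0 :=
        (Ideal.Quotient.eq_zero_iff_mem).2 hq
      rw [map_sum] at h6
      rw [← h6]
      exact Finset.sum_congr rfl fun I _ => (phi_mono P I _).symm
    exact linearIndepOn_finset_iff.1 h2 q h5
  · have h5 : ∀ I ∈ B, K - I.degree = ∑ j ∈ Finset.range K, if I.degree ≤ j then 1 else 0 := by
      intro I _
      rw [← Finset.card_filter]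
      have h6 : (Finset.range K).filter (fun j => I.degree ≤ j) = Finset.Ico I.degree K := by
        ext j
        simp only [Finset.mem_filter, Finset.mem_range, Finset.mem_Ico]
        tauto
      rw [h6, Nat.card_Ico]
    rw [Finset.sum_congr rfl h5, Finset.sum_comm]
    refine Finset.sum_congr rfl fun j hj => ?_
    rw [← Finset.card_filter]
    exact h4 j (Finset.mem_range.1 hj)

end NF44
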