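import Pool.Agent.Lib.NF44.ClassHom
import Pool.Agent.Lib.NF44.StdMon
import Pool.Agent.Lib.NF44.Pigeon
import Pool.Agent.Lib.NF44.NormP
import Pool.Agent.Lib.NF44.House

/-!
MP_44a56e_nt, module Siegel: the p-adic Siegel lemma.
-/

set_option autoImplicit false

open MvPolynomial Module NumberField

namespace NF44

private theorem card_pi_le {m L e S : ℕ} (p f : ℕ → ℕ) (N : ℕ → ℕ)
    (hpS : ∀ i, p i ≤ 2 ^ (i + 1) * S) (hN : ∀ i, N i ≤ p i ^ (f i * e))
    (hf : ∑ i ∈ Finset.range m, f i = L) :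
    ∏ i ∈ Finset.range m, N i ≤ (2 ^ m * S) ^ (L * e) := by
  calc ∏ i ∈ Finset.range m, N i ≤ ∏ i ∈ Finset.range m, (2 ^ m * S) ^ (f i * e) := by
        apply Finset.prod_le_prod' 
        intro i hi
        refine (hN i).trans (Nat.pow_le_pow_left ((hpS i).trans ?_) _)
        exact Nat.mul_le_mul_right _ (Nat.pow_le_pow_right (by norm_num)
          (Finset.mem_range.1 hi))
    _ = (2 ^ m * S) ^ (L * e) := by
        rw [Finset.prod_pow_eq_pow_sum, ← Finset.sum_mul, hf]

private theorem image_eq {r : ℕ} (α : Fin r → Zb) (B : Finset (Fin r →₀ ℕ))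
    (q : (Fin r →₀ ℕ) → ℤ) :
    aeval (fun i => (α i : ℂ)) (∑ I ∈ B, monomial I ((q I : ℤ) : ℚ) : PR r) =
      (algebraMap (Kf α) ℂ) (((aeval (aO α) (∑ I ∈ B, monomial I (q I)) : 𝓞 (Kf α)) :
        Kf α)) := by
  simp only [map_sum, aeval_monomial, map_mul]
  refine Finset.sum_congr rfl fun I _ => ?_
  refine congrArg₂ (fun a b : ℂ => a * b) (by simp) ?_
  simp only [Finsupp.prod, map_prod, map_pow]
  rfl

theorem siegel (n r K b m L : ℕ) (hn : 1 ≤ n) (hK : K * n < L * b) :
    ∃ S0 : ℕ, ∀ S : ℕ, S0 ≤ S → ∀ P : Ideal (PR r),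
      1 + L * (b + r).choose (r + 1) ≤ ∑ j ∈ Finset.range K, hil P j →
      ∀ p : ℕ → ℕ, (∀ i, (p i).Prime) → Function.Injective p →
      (∀ i, S ≤ p i ∧ p i ≤ 2 ^ (i + 1) * S) →
      ∀ c : (i : ℕ) → ℕ × (Fin r → kap (p i)), ∑ i ∈ Finset.range m, (c i).1 = L →
      ∀ T ⊆ TS n r S, (∀ α ∈ T, ∀ i < m, cls (p i) α = c i) →
      ∃ Q : PR r, Q ∉ P ∧ Q.totalDegree ≤ K ∧ ∀ α ∈ T, Q ∈ Mi α := by
  classical
  set e := (b + r).choose (r + 1) with he
  set N0 := (mon r K).card with hN0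
  refine ⟨(2 ^ m) ^ (L * e) + N0 ^ n + 2, ?_⟩
  intro S hS P hP p hp hinj hpS c hc T hT hTc
  have hS2 : 2 ≤ S := by omega
  have hSa : (2 ^ m) ^ (L * e) < S := by omega
  have hSb : N0 ^ n < S := by omega
  obtain ⟨B, hBdeg, hBind, hBsum⟩ := std_mon P K
  have hBsub : B ⊆ mon r K := fun I hI => mem_mon.2 (hBdeg I hI).le
  have hBcard : B.card ≤ N0 := Finset.card_le_card hBsub
  choose H instH Θ hfin hcard hprop using
    fun i : ℕ => class_hom (p i) (c i).1 b (hp i) (c i).2
  let Hp : Type := (i : Fin m) → H i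
  let Θp : MvPolynomial (Fin r) ℤ →+ Hp := 
    { toFun := fun Q i => Θ i Q
      map_zero' := by funext i; exact (Θ i).map_zero
      map_add' := by intro x y; funext i; exact (Θ i).map_add x y }
  have hfinp : Finite Hp := by
    haveI : ∀ i : Fin m, Finite (H i) := fun i => hfin i
    exact inferInstanceAs (Finite ((i : Fin m) → H i))
  have hcardp : Nat.card Hp < S ^ ∑ I ∈ B, (K - I.degree) := by
    have h1 : Nat.card Hp = ∏ i ∈ Finset.range m, Nat.card (H i) := by
      rw [Finset.prod_range]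
      exact Nat.card_pi
    rw [h1]
    have h2 := card_pi_le (m := m) (L := L) (e := e) (S := S) p (fun i => (c i).1)
      (fun i => Nat.card (H i)) (fun i => (hpS i).2) (fun i => hcard i) hc
    refine h2.trans_lt ?_
    rw [Nat.mul_pow]
    calc (2 ^ m) ^ (L * e) * S ^ (L * e) < S * S ^ (L * e) :=
          Nat.mul_lt_mul_of_pos_right hSa (Nat.pow_pos (by omega))
      _ = S ^ (1 + L * e) := by rw [Nat.add_comm, pow_succ']
      _ ≤ S ^ ∑ I ∈ B, (K - I.degree) := by
          refine Nat.pow_le_pow_right (by omega) ?_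
          rw [hBsum]; exact hP
  obtain ⟨q, ⟨I0, hI0, hqI0⟩, hqb, hq0⟩ := pigeon K S B hfinp Θp hcardp
  refine ⟨∑ I ∈ B, monomial I ((q I : ℤ) : ℚ), ?_, ?_, ?_⟩
  · intro hmem
    have := hBind (fun I => ((q I : ℤ) : ℚ)) hmem I0 hI0
    exact hqI0 (by exact_mod_cast this)
  · refine totalDegree_finsetSum_le fun I hI => ?_
    refine (totalDegree_monomial_le _ _).trans ?_
    have := (hBdeg I hI).le
    rw [Finsupp.degree_eq_sum] at this
    rw [Finsupp.sum_fintype _ _ (fun _ => rfl)]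
    exact this
  · intro α hα
    have hαT : α ∈ TS n r S := hT hα
    have hfr : finrank ℚ (Kf α) = n := hαT.1
    haveI hfd : FiniteDimensional ℚ (Kf α) := 
      Module.finite_of_finrank_pos (by rw [hfr]; exact hn)
    haveI : NumberField (Kf α) := { to_charZero := inferInstance, to_finiteDimensional := hfd }
    have hβ : ∀ i < m, (aeval (aO α) (∑ I ∈ B, monomial I (q I)) : 𝓞 (Kf α)) ∈
        PP (Kf α) (p i) ^ b := by
      intro i hi
      refine hprop i α hfd ?_ _ ?_
      · rw [hTc α hα i hi]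
      · exact congrFun hq0 ⟨i, hi⟩
    have hfdsum : ∑ i ∈ Finset.range m, fd (Kf α) (p i) = L := by
      rw [← hc]
      refine Finset.sum_congr rfl fun i hi => ?_
      have := hTc α hα i (Finset.mem_range.1 hi)
      rw [← this]
      rfl
    have hlt : ((B.card : ℝ) * (S : ℝ) ^ K) ^ n <
        (S : ℝ) ^ (b * ∑ i ∈ Finset.range m, fd (Kf α) (p i)) := by
      rw [hfdsum]
      have h3 : (B.card * S ^ K) ^ n < S ^ (b * L) := by
        calc (B.card * S ^ K) ^ n = B.card ^ n * S ^ (K * n) := by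
              rw [Nat.mul_pow, ← pow_mul]
          _ ≤ N0 ^ n * S ^ (K * n) := Nat.mul_le_mul_right _ (Nat.pow_le_pow_left hBcard _)
          _ < S * S ^ (K * n) := Nat.mul_lt_mul_of_pos_right hSb (Nat.pow_pos (by omega))
          _ = S ^ (K * n + 1) := by rw [pow_succ']
          _ ≤ S ^ (b * L) := by
              refine Nat.pow_le_pow_right (by omega) ?_
              rw [Nat.mul_comm b L]; exact hK
      exact_mod_cast h3
    have hzero := zero_of_small (Kf α) n hfr b m S p hp hinj (fun i => (hpS i).1)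
      (aeval (aO α) (∑ I ∈ B, monomial I (q I)) : 𝓞 (Kf α)) hβ
      ((B.card : ℝ) * (S : ℝ) ^ K) (fun φ => house_le α hαT B hBdeg q hqb φ) hlt
    rw [mem_Mi, image_eq, hzero]
    simp

end NF44
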